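import Pool.Agent.Lib.PosetForcing.CardDefs

set_option autoImplicit false
set_option synthInstance.maxSize 4000

/-! A Hilbert calculus on `Fml` with soundness and completeness, the axioms of ZFC, and predicates
given by one formula. Copied from `P/MP_2e9c36_lc/Lit` (helper50) and `P/MP_2e9c36_lc/YUd`, with
models in any universe. The definitions are repeated in the hand-in file. -/

open Pool.Agent.Lib.PosetForcing

namespace Pool.Agent.P.MP_95b5c3_gt.Lit

open Function

section
variable {M : Type _} (mem : M → M → Prop)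

theorem s_mem (i j : ℕ) (v : ℕ → M) : Sat mem (.mem i j) v ↔ mem (v i) (v j) := Iff.rfl

theorem s_eq (i j : ℕ) (v : ℕ → M) : Sat mem (.eq i j) v ↔ v i = v j := Iff.rfl

theorem s_neg (φ : Fml) (v : ℕ → M) : Sat mem (.neg φ) v ↔ ¬ Sat mem φ v := Iff.rfl

theorem s_and (φ ψ : Fml) (v : ℕ → M) : Sat mem (.and φ ψ) v ↔ Sat mem φ v ∧ Sat mem ψ v :=
  Iff.rfl

theorem s_all (i : ℕ) (φ : Fml) (v : ℕ → M) :
    Sat mem (.all i φ) v ↔ ∀ x, Sat mem φ (Function.update v i x) := Iff.rfl

end

universe v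

deriving instance Countable for Fml

/-- the free variables of a formula -/
def fv : Fml → Finset ℕ
  | .mem i j => {i, j}
  | .eq i j => {i, j}
  | .neg φ => fv φ
  | .and φ ψ => fv φ ∪ fv ψ
  | .all i φ => (fv φ).erase i

/-- simultaneous substitution of the variable `σ i` for each free variable `i`; bound variables
are renamed to fresh ones, so nothing is captured -/
def sb : Fml → (ℕ → ℕ) → Fml
  | .mem i j, σ => .mem (σ i) (σ j)
  | .eq i j, σ => .eq (σ i) (σ j)
  | .neg φ, σ => .neg (sb φ σ)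
  | .and φ ψ, σ => .and (sb φ σ) (sb ψ σ)
  | .all i φ, σ => .all (((fv φ).erase i).sup σ + 1)
      (sb φ (update σ i (((fv φ).erase i).sup σ + 1)))

/-- implication -/
def imp (φ ψ : Fml) : Fml := .neg (.and φ (.neg ψ))

/-- the truth value of a formula when atomic and quantified formulas get their values from `e` -/
def Ev (e : Fml → Prop) : Fml → Prop
  | .neg φ => ¬ Ev e φ
  | .and φ ψ => Ev e φ ∧ Ev e ψ
  | φ => e φ

/-- provability from the axioms `T` (read as universally closed) in a Hilbert calculus for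
first-order logic with equality -/
inductive Prov (T : Set Fml) : Fml → Prop
  | ax {φ : Fml} : φ ∈ T → Prov T φ
  | taut {φ : Fml} : (∀ e, Ev e φ) → Prov T φ
  | mp {φ ψ : Fml} : Prov T (imp φ ψ) → Prov T φ → Prov T ψ
  | subst {φ : Fml} (σ : ℕ → ℕ) : Prov T φ → Prov T (sb φ σ)
  | inst (i j : ℕ) (φ : Fml) : Prov T (imp (.all i φ) (sb φ (update id i j)))
  | gen {i j : ℕ} {φ ψ : Fml} : j ∉ fv ψ → j ∉ fv (.all i φ) →
      Prov T (imp ψ (sb φ (update id i j))) → Prov T (imp ψ (.all i φ))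
  | refl (i : ℕ) : Prov T (.eq i i)
  | eqm (i j k l : ℕ) : Prov T (imp (.eq i j) (imp (.eq k l) (imp (.mem i k) (.mem j l))))
  | eqe (i j k l : ℕ) : Prov T (imp (.eq i j) (imp (.eq k l) (imp (.eq i k) (.eq j l))))

/-- `T` is consistent: it proves no formula together with its negation -/
def Con (T : Set Fml) : Prop := ¬ ∃ φ, Prov T φ ∧ Prov T (.neg φ)

/-- `(M, mem)` satisfies the universal closures of the formulas of `T` -/
def Models {M : Type v} (mem : M → M → Prop) (T : Set Fml) : Prop :=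
  ∀ φ ∈ T, ∀ v, Sat mem φ v

/-- disjunction -/
def orF (φ ψ : Fml) : Fml := .neg (.and (.neg φ) (.neg ψ))

/-- equivalence -/
def iffF (φ ψ : Fml) : Fml := .and (imp φ ψ) (imp ψ φ)

/-- existential quantifier -/
def exF (i : ℕ) (φ : Fml) : Fml := .neg (.all i (.neg φ))

/-- the axioms of ZFC (free variables are read universally) -/
inductive ZFC : Fml → Prop
  | ext : ZFC (imp (.all 2 (iffF (.mem 2 0) (.mem 2 1))) (.eq 0 1))
  | found : ZFC (imp (exF 1 (.mem 1 0))
      (exF 1 (.and (.mem 1 0) (.all 2 (imp (.mem 2 1) (.neg (.mem 2 0)))))))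
  | pair : ZFC (exF 2 (.all 3 (iffF (.mem 3 2) (orF (.eq 3 0) (.eq 3 1)))))
  | union : ZFC (exF 1 (.all 2 (iffF (.mem 2 1) (exF 3 (.and (.mem 3 0) (.mem 2 3))))))
  | power : ZFC (exF 1 (.all 2 (iffF (.mem 2 1) (.all 3 (imp (.mem 3 2) (.mem 3 0))))))
  | inf : ZFC (exF 0 (.and (exF 1 (.and (.mem 1 0) (.all 2 (.neg (.mem 2 1)))))
      (.all 1 (imp (.mem 1 0) (exF 2 (.and (.mem 2 0)
        (.all 3 (iffF (.mem 3 2) (orF (.mem 3 1) (.eq 3 1))))))))))
  | sep (φ : Fml) (a b : ℕ) : a ≠ 0 → b ≠ 0 → b ≠ a → b ∉ fv φ →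
      ZFC (exF b (.all 0 (iffF (.mem 0 b) (.and (.mem 0 a) φ))))
  | repl (φ : Fml) (a b : ℕ) : 1 < a → 1 < b → b ≠ a → b ∉ fv φ →
      ZFC (imp (.all 0 (imp (.mem 0 a) (exF b (.all 1 (iffF φ (.eq 1 b))))))
        (exF b (.all 1 (iffF (.mem 1 b) (exF 0 (.and (.mem 0 a) φ))))))
  | choice : ZFC (imp (.all 1 (imp (.mem 1 0) (exF 2 (.mem 2 1))))
      (imp (.all 1 (.all 2 (.all 3 (imp (.mem 1 0) (imp (.mem 2 0) (imp (.mem 3 1)
        (imp (.mem 3 2) (.eq 1 2))))))))
      (exF 1 (.all 2 (imp (.mem 2 0) (exF 3 (.all 4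
        (iffF (.and (.mem 4 2) (.mem 4 1)) (.eq 4 3)))))))))

theorem fresh_ne {s : Finset ℕ} {σ : ℕ → ℕ} {y : ℕ} (h : y ∈ s) : σ y ≠ s.sup σ + 1 :=
  (Nat.lt_succ_of_le (Finset.le_sup (f := σ) h)).ne

theorem sup_update (s : Finset ℕ) (σ : ℕ → ℕ) (i : ℕ) :
    s.sup (update σ i 0) = (s.erase i).sup σ := by
  refine le_antisymm (Finset.sup_le fun y hy => ?_) (Finset.sup_le fun y hy => ?_)
  · by_cases e : y = i
    · subst e; simp
    · rw [update_of_ne e]
      exact Finset.le_sup (f := σ) (Finset.mem_erase.2 ⟨e, hy⟩)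
  · obtain ⟨e, hy⟩ := Finset.mem_erase.1 hy
    exact (update_of_ne e 0 σ).symm.trans_le (Finset.le_sup (f := update σ i 0) hy)

theorem fv_sb (φ : Fml) : ∀ σ : ℕ → ℕ, fv (sb φ σ) = (fv φ).image σ := by
  induction φ with
  | mem i j => intro σ; simp [fv, sb]
  | eq i j => intro σ; simp [fv, sb]
  | neg φ ih => exact ih
  | and φ ψ ih ih' => intro σ; simp [fv, sb, ih, ih', Finset.image_union]
  | all i φ ih =>
    intro σ
    ext x
    simp only [fv, sb, ih, Finset.mem_erase, Finset.mem_image]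
    constructor
    · rintro ⟨hx, y, hy, rfl⟩
      by_cases e : y = i
      · subst e; simp at hx
      · exact ⟨y, ⟨e, hy⟩, by rw [update_of_ne e]⟩
    · rintro ⟨y, ⟨e, hy⟩, rfl⟩
      exact ⟨fresh_ne (Finset.mem_erase.2 ⟨e, hy⟩), y, hy, update_of_ne e ..⟩

theorem sb_congr (φ : Fml) : ∀ σ τ : ℕ → ℕ, (∀ y ∈ fv φ, σ y = τ y) → sb φ σ = sb φ τ := by
  induction φ with
  | mem i j => intro σ τ h; simp only [sb]; rw [h i (by simp [fv]), h j (by simp [fv])]
  | eq i j => intro σ τ h; simp only [sb]; rw [h i (by simp [fv]), h j (by simp [fv])]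
  | neg φ ih => intro σ τ h; simp only [sb]; rw [ih σ τ h]
  | and φ ψ ih ih' =>
    intro σ τ h
    simp only [sb]
    rw [ih σ τ fun y hy => h y (Finset.mem_union_left _ hy),
      ih' σ τ fun y hy => h y (Finset.mem_union_right _ hy)]
  | all i φ ih =>
    intro σ τ h
    have e : ((fv φ).erase i).sup σ = ((fv φ).erase i).sup τ := Finset.sup_congr rfl h
    simp only [sb]
    rw [e, ih]
    intro y hy
    by_cases g : y = i
    · subst g; simp
    · rw [update_of_ne g, update_of_ne g, h y (Finset.mem_erase.2 ⟨g, hy⟩)]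

theorem sb_sb (φ : Fml) : ∀ σ τ : ℕ → ℕ, sb (sb φ σ) τ = sb φ (τ ∘ σ) := by
  induction φ with
  | mem i j => intro σ τ; rfl
  | eq i j => intro σ τ; rfl
  | neg φ ih => intro σ τ; simp only [sb, ih]
  | and φ ψ ih ih' => intro σ τ; simp only [sb, ih, ih']
  | all i φ ih =>
    intro σ τ
    have e : fv (sb (.all i φ) σ) = ((fv φ).erase i).image σ := fv_sb (.all i φ) σ
    simp only [sb, fv] at e ⊢
    rw [e, Finset.sup_image, ih]
    congr 1
    refine sb_congr φ _ _ fun y hy => ?_
    by_cases g : y = i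
    · subst g; simp
    · rw [comp_apply, update_of_ne g, update_of_ne g,
        update_of_ne (fresh_ne (Finset.mem_erase.2 ⟨g, hy⟩)), comp_apply]

theorem sat_congr {M : Type v} (mem : M → M → Prop) (φ : Fml) :
    ∀ v w : ℕ → M, (∀ y ∈ fv φ, v y = w y) → (Sat mem φ v ↔ Sat mem φ w) := by
  induction φ with
  | mem i j => intro v w h; simp only [s_mem, s_eq, s_neg, s_and, s_all]; rw [h i (by simp [fv]), h j (by simp [fv])]
  | eq i j => intro v w h; simp only [s_mem, s_eq, s_neg, s_and, s_all]; rw [h i (by simp [fv]), h j (by simp [fv])]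
  | neg φ ih => exact fun v w h => not_congr (ih v w h)
  | and φ ψ ih ih' =>
    exact fun v w h => and_congr (ih v w fun y hy => h y (Finset.mem_union_left _ hy))
      (ih' v w fun y hy => h y (Finset.mem_union_right _ hy))
  | all i φ ih =>
    refine fun v w h => forall_congr' fun x => ih _ _ fun y hy => ?_
    by_cases g : y = i
    · subst g; simp
    · rw [update_of_ne g, update_of_ne g, h y (Finset.mem_erase.2 ⟨g, hy⟩)]

theorem sat_sb {M : Type v} (mem : M → M → Prop) (φ : Fml) :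
    ∀ (σ : ℕ → ℕ) (v : ℕ → M), Sat mem (sb φ σ) v ↔ Sat mem φ (v ∘ σ) := by
  induction φ with
  | mem i j => intro σ v; rfl
  | eq i j => intro σ v; rfl
  | neg φ ih => exact fun σ v => not_congr (ih σ v)
  | and φ ψ ih ih' => exact fun σ v => and_congr (ih σ v) (ih' σ v)
  | all i φ ih =>
    refine fun σ v => forall_congr' fun x => (ih _ _).trans (sat_congr mem φ _ _ fun y hy => ?_)
    by_cases g : y = i
    · subst g; simp
    · rw [comp_apply, update_of_ne g, update_of_ne g,
        update_of_ne (fresh_ne (Finset.mem_erase.2 ⟨g, hy⟩)), comp_apply]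

theorem ev_sat {M : Type v} (mem : M → M → Prop) (v : ℕ → M) (φ : Fml) :
    Ev (fun ψ => Sat mem ψ v) φ ↔ Sat mem φ v := by
  induction φ with
  | neg φ ih => exact not_congr ih
  | and φ ψ ih ih' => exact and_congr ih ih'
  | _ => rfl

/-- soundness -/
theorem sound {M : Type v} {mem : M → M → Prop} {T : Set Fml} (hT : Models mem T) {φ : Fml}
    (h : Prov T φ) : ∀ v, Sat mem φ v := by
  induction h with
  | ax h => exact hT _ h
  | taut h => exact fun v => (ev_sat mem v _).1 (h _)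
  | mp _ _ ih ih' => exact fun v => not_not.1 fun g => ih v ⟨ih' v, g⟩
  | subst σ _ ih => exact fun v => (sat_sb mem _ σ v).2 (ih _)
  | inst i j φ =>
    refine fun v g => g.2 ((sat_sb mem φ _ v).2 ?_)
    rw [comp_update]
    exact g.1 (v j)
  | @gen i j φ ψ h1 h2 _ ih =>
    refine fun v g => g.2 fun x => not_not.1 fun g' => ih (update v j x) ⟨?_, fun g2 => g' ?_⟩
    · exact (sat_congr mem ψ _ _ fun y hy =>
        update_of_ne (fun e : y = j => h1 (e ▸ hy)) ..).2 g.1
    · refine (sat_congr mem φ _ _ fun y hy => ?_).1 ((sat_sb mem φ _ _).1 g2)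
      by_cases e : y = i
      · subst e; simp
      · have : y ≠ j := fun e' => h2 (e' ▸ Finset.mem_erase.2 ⟨e, hy⟩)
        simp [update_of_ne e, update_of_ne this]
  | refl i => exact fun v => rfl
  | eqm i j k l =>
    intro v
    simp only [imp, s_mem, s_eq, s_neg, s_and, s_all, not_and, not_not]
    exact fun e e' g => e ▸ e' ▸ g
  | eqe i j k l =>
    intro v
    simp only [imp, s_mem, s_eq, s_neg, s_and, s_all, not_and, not_not]
    exact fun e e' g => e ▸ e' ▸ g

theorem henkin_step {T : Set Fml} {θ : Fml} (h : ¬ Prov T (.neg θ)) (φ : Fml) :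
    ∃ θ', ¬ Prov T (.neg θ') ∧ Prov T (imp θ' θ) ∧ (Prov T (imp θ' φ) ∨ Prov T (imp θ' (.neg φ)) ∧
      ∀ i ψ, φ = .all i ψ → ∃ j, Prov T (imp θ' (.neg (sb ψ (update id i j))))) := by
  by_cases h1 : Prov T (.neg (.and θ φ))
  · have h2 : ¬ Prov T (.neg (.and θ (.neg φ))) := fun h2 => h
      (((Prov.taut (φ := imp _ (imp _ _)) fun e => by simp only [imp, Ev]; tauto).mp h1).mp h2)
    by_cases h3 : ∃ i ψ, φ = .all i ψ
    · obtain ⟨i, ψ, rfl⟩ := h3
      obtain ⟨j, hj⟩ := Infinite.exists_notMem_finset (fv (.and θ (.neg (.all i ψ))))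
      refine ⟨.and (.and θ (.neg (.all i ψ))) (.neg (sb ψ (update id i j))), fun g => h2 ?_,
        .taut fun e => by simp only [imp, Ev]; tauto,
        Or.inr ⟨.taut fun e => by simp only [imp, Ev]; tauto, fun i' ψ' e => ?_⟩⟩
      · exact (Prov.taut (φ := imp _ _) fun e => by simp only [imp, Ev]; tauto).mp
          (Prov.gen hj (fun g' => hj (Finset.mem_union_right _ g')) g)
      · cases e
        exact ⟨j, .taut fun e => by simp only [imp, Ev]; tauto⟩
    · exact ⟨_, h2, .taut fun e => by simp only [imp, Ev]; tauto,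
        Or.inr ⟨.taut fun e => by simp only [imp, Ev]; tauto, fun i ψ e => (h3 ⟨i, ψ, e⟩).elim⟩⟩
  · exact ⟨_, h1, .taut fun e => by simp only [imp, Ev]; tauto,
      Or.inl (.taut fun e => by simp only [imp, Ev]; tauto)⟩

/-- a complete Henkin set containing `θ` -/
theorem henkin {T : Set Fml} {θ : Fml} (h : ¬ Prov T (.neg θ)) :
    ∃ G : Fml → Prop, G θ ∧ (∀ φ, Prov T φ → G φ) ∧ (∀ φ ψ, G (imp φ ψ) → G φ → G ψ) ∧
      (∀ φ, G (.neg φ) ↔ ¬ G φ) ∧ ∀ i ψ, (∀ j, G (sb ψ (update id i j))) → G (.all i ψ) := by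
  have : Nonempty Fml := ⟨θ⟩
  obtain ⟨en, hen⟩ := exists_surjective_nat Fml
  choose st s1 s2 s3 using fun (p : {θ // ¬ Prov T (.neg θ)}) (φ : Fml) => henkin_step p.2 φ
  let c' : ℕ → {θ // ¬ Prov T (.neg θ)} := fun n =>
    Nat.rec ⟨θ, h⟩ (fun n p => ⟨st p (en n), s1 p _⟩) n
  let c : ℕ → Fml := fun n => (c' n).1
  have tr : ∀ {a b d : Fml}, Prov T (imp a b) → Prov T (imp b d) → Prov T (imp a d) :=
    fun g g' => ((Prov.taut (φ := imp _ (imp _ _)) fun e => by
      simp only [imp, Ev]; tauto).mp g).mp g'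
  have mono : ∀ {m n : ℕ} {φ : Fml}, m ≤ n → Prov T (imp (c m) φ) → Prov T (imp (c n) φ) := by
    intro m n φ hmn g
    induction hmn with
    | refl => exact g
    | step _ ih => exact tr (s2 _ _) ih
  have hmp : ∀ φ ψ, (∃ n, Prov T (imp (c n) (imp φ ψ))) → (∃ n, Prov T (imp (c n) φ)) →
      ∃ n, Prov T (imp (c n) ψ) := fun φ ψ ⟨m, g⟩ ⟨n, g'⟩ =>
    ⟨max m n, ((Prov.taut (φ := imp _ (imp _ _)) fun e => by simp only [imp, Ev]; tauto).mp
      (mono (le_max_left m n) g)).mp (mono (le_max_right m n) g')⟩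
  have hc : ∀ φ, (∃ n, Prov T (imp (c n) (.neg φ))) → ¬ ∃ n, Prov T (imp (c n) φ) :=
    fun φ ⟨m, g⟩ ⟨n, g'⟩ => (c' (max m n)).2
      (((Prov.taut (φ := imp _ (imp _ _)) fun e => by simp only [imp, Ev]; tauto).mp
        (mono (le_max_left m n) g)).mp (mono (le_max_right m n) g'))
  refine ⟨fun φ => ∃ n, Prov T (imp (c n) φ), ⟨0, .taut fun e => by simp [imp, Ev, c, c']⟩,
    fun φ g => ⟨0, (Prov.taut (φ := imp _ _) fun e => by simp only [imp, Ev]; tauto).mp g⟩, hmp,
    fun φ => ⟨hc φ, fun g => ?_⟩, fun i ψ g => ?_⟩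
  · obtain ⟨n, rfl⟩ := hen φ
    exact ⟨n + 1, ((s3 (c' n) (en n)).resolve_left fun g' => g ⟨n + 1, g'⟩).1⟩
  · obtain ⟨n, hn⟩ := hen (.all i ψ)
    rcases s3 (c' n) (en n) with g' | ⟨-, g'⟩
    · exact ⟨n + 1, hn ▸ g'⟩
    · obtain ⟨j, hj⟩ := g' i ψ hn
      exact (hc _ ⟨n + 1, hj⟩ (g j)).elim

/-- completeness: a formula that is not refuted holds somewhere in a model -/
theorem complete {T : Set Fml} {θ : Fml} (h : ¬ Prov T (.neg θ)) :
    ∃ (M : Type) (mem : M → M → Prop), Models mem T ∧ ∃ v, Sat mem θ v := by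
  obtain ⟨G, g0, g1, g2, g3, g4⟩ := henkin h
  have ee : ∀ {i j k l}, G (.eq i j) → G (.eq k l) → G (.eq i k) → G (.eq j l) :=
    fun a b d => g2 _ _ (g2 _ _ (g2 _ _ (g1 _ (.eqe _ _ _ _)) a) b) d
  have em' : ∀ {i j k l}, G (.eq i j) → G (.eq k l) → G (.mem i k) → G (.mem j l) :=
    fun a b d => g2 _ _ (g2 _ _ (g2 _ _ (g1 _ (.eqm _ _ _ _)) a) b) d
  have rf : ∀ i, G (.eq i i) := fun i => g1 _ (.refl i)
  have sy : ∀ {i j}, G (.eq i j) → G (.eq j i) := fun a => ee a (rf _) (rf _)
  let S : Setoid ℕ := ⟨fun i j => G (.eq i j), rf, sy, fun a b => ee (rf _) b a⟩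
  let mem : Quotient S → Quotient S → Prop := Quotient.lift₂ (fun i j => G (.mem i j))
    fun _ _ _ _ a b => propext ⟨em' a b, em' (sy a) (sy b)⟩
  have key : ∀ (φ : Fml) (σ : ℕ → ℕ), Sat mem φ (Quotient.mk S ∘ σ) ↔ G (sb φ σ) := by
    intro φ
    induction φ with
    | mem i j => exact fun σ => Iff.rfl
    | eq i j => exact fun σ => Quotient.eq
    | neg φ ih => exact fun σ => (not_congr (ih σ)).trans (g3 _).symm
    | and φ ψ ih ih' =>
      refine fun σ => (and_congr (ih σ) (ih' σ)).trans ⟨fun a => ?_, fun a => ⟨?_, ?_⟩⟩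
      · exact g2 _ _ (g2 _ _ (g1 _ (.taut fun e => by simp only [imp, Ev, sb]; tauto)) a.1) a.2
      · exact g2 _ _ (g1 _ (.taut fun e => by simp only [imp, Ev, sb]; tauto)) a
      · exact g2 _ _ (g1 _ (.taut fun e => by simp only [imp, Ev, sb]; tauto)) a
    | all i φ ih =>
      intro σ
      have e : ∀ j, sb (sb φ (update σ i (((fv φ).erase i).sup σ + 1)))
          (update id (((fv φ).erase i).sup σ + 1) j) = sb φ (update σ i j) := fun j => by
        rw [sb_sb]
        refine sb_congr φ _ _ fun y hy => ?_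
        by_cases g : y = i
        · subst g; simp
        · rw [comp_apply, update_of_ne g, update_of_ne g,
            update_of_ne (fresh_ne (Finset.mem_erase.2 ⟨g, hy⟩)), id]
      constructor
      · refine fun a => g4 _ _ fun j => ?_
        rw [e, ← ih, comp_update]
        exact a _
      · intro a x
        obtain ⟨j, rfl⟩ := Quotient.exists_rep x
        rw [← comp_update, ih, ← e]
        exact g2 _ _ (g1 _ (.inst _ _ _)) a
  refine ⟨Quotient S, mem, fun φ hφ v => ?_, ?_⟩
  · have : v = Quotient.mk S ∘ fun i => (v i).out := funext fun i => (Quotient.out_eq _).symm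
    rw [this, key]
    exact g1 _ (.subst _ (.ax hφ))
  · have key2 : ∀ φ : Fml, Sat mem φ (Quotient.mk S ∘ id) ↔ G φ := by
      intro φ
      induction φ with
      | mem i j => exact Iff.rfl
      | eq i j => exact Quotient.eq
      | neg φ ih => exact (not_congr ih).trans (g3 _).symm
      | and φ ψ ih ih' =>
        refine (and_congr ih ih').trans ⟨fun a => ?_, fun a => ⟨?_, ?_⟩⟩
        · exact g2 _ _ (g2 _ _ (g1 _ (.taut fun e => by simp only [imp, Ev]; tauto)) a.1) a.2
        · exact g2 _ _ (g1 _ (.taut fun e => by simp only [imp, Ev]; tauto)) a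
        · exact g2 _ _ (g1 _ (.taut fun e => by simp only [imp, Ev]; tauto)) a
      | all i φ _ =>
        constructor
        · refine fun a => g4 _ _ fun j => ?_
          rw [← key, comp_update]
          exact a _
        · intro a x
          obtain ⟨j, rfl⟩ := Quotient.exists_rep x
          rw [← comp_update, key]
          exact g2 _ _ (g1 _ (.inst _ _ _)) a
    exact ⟨_, (key2 θ).2 g0⟩

/-- soundness and completeness: provable means true in every model -/
theorem prov_iff (T : Set Fml) (φ : Fml) :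
    Prov T φ ↔ ∀ (M : Type) (mem : M → M → Prop), Models mem T → ∀ v, Sat mem φ v := by
  refine ⟨fun h _ _ hT => sound hT h, fun h => not_not.1 fun g => ?_⟩
  obtain ⟨M, mem, hM, v, hv⟩ := complete (T := T) (θ := .neg φ) fun g' =>
    g ((Prov.taut (φ := imp _ _) fun e => by simp only [imp, Ev]; tauto).mp g')
  exact hv (h M mem hM v)

theorem con_of {M : Type v} {mem : M → M → Prop} {T : Set Fml} (x : M) (h : Models mem T) :
    Con T := fun ⟨_, g, g'⟩ => sound h g' (fun _ => x) (sound h g _)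

/-- consistent means having a model -/
theorem con_iff (T : Set Fml) :
    Con T ↔ ∃ (M : Type) (mem : M → M → Prop), Nonempty M ∧ Models mem T :=
  ⟨fun h => let ⟨M, mem, hM, v, _⟩ := complete (θ := .eq 0 0) fun g => h ⟨_, .refl 0, g⟩
    ⟨M, mem, ⟨v 0⟩, hM⟩, fun ⟨_, _, ⟨x⟩, h⟩ => con_of x h⟩

section
variable {M : Type v} {mem : M → M → Prop}

theorem sat_imp {φ ψ : Fml} {v : ℕ → M} : Sat mem (imp φ ψ) v ↔ (Sat mem φ v → Sat mem ψ v) := by
  simp only [imp, s_mem, s_eq, s_neg, s_and, s_all, not_and, not_not]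

theorem sat_or {φ ψ : Fml} {v : ℕ → M} : Sat mem (orF φ ψ) v ↔ Sat mem φ v ∨ Sat mem ψ v := by
  simp only [orF, s_mem, s_eq, s_neg, s_and, s_all]; tauto

theorem sat_iff {φ ψ : Fml} {v : ℕ → M} : Sat mem (iffF φ ψ) v ↔ (Sat mem φ v ↔ Sat mem ψ v) := by
  simp only [iffF, s_mem, s_eq, s_neg, s_and, s_all, sat_imp, iff_def]

theorem sat_ex {i : ℕ} {φ : Fml} {v : ℕ → M} :
    Sat mem (exF i φ) v ↔ ∃ x, Sat mem φ (update v i x) := by
  simp only [exF, s_mem, s_eq, s_neg, s_and, s_all, not_forall, not_not]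

theorem exu_iff {P : M → Prop} : (∃ c, ∀ y, P y ↔ y = c) ↔ ∃! y, P y :=
  exists_congr fun c => ⟨fun h => ⟨(h c).2 rfl, fun y => (h y).1⟩,
    fun h y => ⟨h.2 y, fun e => e ▸ h.1⟩⟩

theorem sat_sep {φ : Fml} {a b : ℕ} (ha : a ≠ 0) (hb : b ≠ 0) (e : b ≠ a) (h : b ∉ fv φ)
    (v : ℕ → M) : Sat mem (exF b (.all 0 (iffF (.mem 0 b) (.and (.mem 0 a) φ)))) v ↔
      ∃ c, ∀ x, mem x c ↔ mem x (v a) ∧ Sat mem φ (update v 0 x) := by
  simp only [sat_ex, sat_iff, s_mem, s_eq, s_neg, s_and, s_all, update_self, update_of_ne ha, update_of_ne hb,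
    update_of_ne e.symm]
  refine exists_congr fun c => forall_congr' fun x => iff_congr Iff.rfl (and_congr_right'
    (sat_congr mem φ _ _ fun y hy => ?_))
  have : y ≠ b := fun g => h (g ▸ hy)
  simp [update_apply, this]

theorem sat_repl {φ : Fml} {a b : ℕ} (ha : 1 < a) (hb : 1 < b) (e : b ≠ a) (h : b ∉ fv φ)
    (v : ℕ → M) : Sat mem (imp (.all 0 (imp (.mem 0 a) (exF b (.all 1 (iffF φ (.eq 1 b))))))
        (exF b (.all 1 (iffF (.mem 1 b) (exF 0 (.and (.mem 0 a) φ)))))) v ↔
      ((∀ x, mem x (v a) → ∃! y, Sat mem φ (update (update v 0 x) 1 y)) →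
        ∃ c, ∀ y, mem y c ↔ ∃ x, mem x (v a) ∧ Sat mem φ (update (update v 0 x) 1 y)) := by
  have a0 : a ≠ 0 := by omega
  have a1 : a ≠ 1 := by omega
  have b1 : b ≠ 1 := by omega
  simp only [sat_imp, sat_ex, sat_iff, s_mem, s_eq, s_neg, s_and, s_all, update_self, update_of_ne a0, update_of_ne a1,
    update_of_ne b1, update_of_ne e.symm, ← exu_iff]
  refine imp_congr (forall_congr' fun x => imp_congr_right fun _ => exists_congr fun c =>
    forall_congr' fun z => iff_congr (sat_congr mem φ _ _ fun y hy => ?_) Iff.rfl)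
    (exists_congr fun c => forall_congr' fun z => iff_congr Iff.rfl (exists_congr fun x =>
      and_congr_right' (sat_congr mem φ _ _ fun y hy => ?_)))
  all_goals
    have : y ≠ b := fun g => h (g ▸ hy)
    rcases y with _ | _ | y <;> simp [this]

/-- the models of the axioms are the models of ZFC in the sense of `result` -/
theorem models_zfc [Nonempty M] : Models mem {φ | ZFC φ} ↔ IsZFC mem := by
  constructor
  · intro h
    let v : M → M → ℕ → M := fun a b n => if n = 0 then a else b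
    refine ⟨fun a b => ?_, fun a => ?_, fun a b => ?_, fun a => ?_, fun a => ?_, ?_,
      fun φ w a => ?_, fun φ w a => ?_, fun a => ?_⟩
    · simpa [sat_imp, sat_iff, s_mem, s_eq, s_neg, s_and, s_all, v] using h _ .ext (v a b)
    · simpa [sat_imp, sat_ex, s_mem, s_eq, s_neg, s_and, s_all, v] using h _ .found (v a a)
    · simpa [sat_ex, sat_iff, sat_or, s_mem, s_eq, s_neg, s_and, s_all, v] using h _ .pair (v a b)
    · simpa [sat_ex, sat_iff, s_mem, s_eq, s_neg, s_and, s_all, v] using h _ .union (v a a)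
    · simpa [sat_imp, sat_ex, sat_iff, s_mem, s_eq, s_neg, s_and, s_all, v] using h _ .power (v a a)
    · simpa [sat_imp, sat_ex, sat_iff, sat_or, s_mem, s_eq, s_neg, s_and, s_all] using
        h _ .inf fun _ => Classical.arbitrary M
    · obtain ⟨k, hk⟩ : ∃ k, ∀ y ∈ fv φ, y < k := ⟨(fv φ).sup id + 1, fun y hy =>
        Nat.lt_succ_of_le (Finset.le_sup (f := id) hy)⟩
      have nb : k + 2 ∉ fv φ := fun g => by have := hk _ g; omega
      have := (sat_sep (a := k + 1) (by omega) (by omega) (by omega) nb _).1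
        (h _ (.sep φ _ _ (by omega) (by omega) (by omega) nb) (update w (k + 1) a))
      rw [update_self] at this
      refine this.imp fun c g x => (g x).trans (and_congr_right'
        (sat_congr mem φ _ _ fun y hy => ?_))
      have : y ≠ k + 1 := by have := hk _ hy; omega
      simp [update_apply, this]
    · obtain ⟨k, hk⟩ : ∃ k, ∀ y ∈ fv φ, y < k := ⟨(fv φ).sup id + 1, fun y hy =>
        Nat.lt_succ_of_le (Finset.le_sup (f := id) hy)⟩
      have nb : k + 3 ∉ fv φ := fun g => by have := hk _ g; omega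
      have := (sat_repl (a := k + 2) (by omega) (by omega) (by omega) nb _).1
        (h _ (.repl φ _ _ (by omega) (by omega) (by omega) nb) (update w (k + 2) a))
      have e : ∀ x y, Sat mem φ (update (update (update w (k + 2) a) 0 x) 1 y) ↔
          Sat mem φ (update (update w 0 x) 1 y) := fun x z => sat_congr mem φ _ _ fun y hy => by
        have : y ≠ k + 2 := by have := hk _ hy; omega
        simp [update_apply, this]
      simpa only [update_self, e] using this
    · simpa [sat_imp, sat_ex, sat_iff, s_mem, s_eq, s_neg, s_and, s_all, v, ← exu_iff] using h _ .choice (v a a)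
  · intro h φ hφ v
    cases hφ with
    | ext => simpa [sat_imp, sat_iff, s_mem, s_eq, s_neg, s_and, s_all] using h.ext _ _
    | found => simpa [sat_imp, sat_ex, s_mem, s_eq, s_neg, s_and, s_all] using h.found _
    | pair => simpa [sat_ex, sat_iff, sat_or, s_mem, s_eq, s_neg, s_and, s_all] using h.pair _ _
    | union => simpa [sat_ex, sat_iff, s_mem, s_eq, s_neg, s_and, s_all] using h.union _
    | power => simpa [sat_imp, sat_ex, sat_iff, s_mem, s_eq, s_neg, s_and, s_all] using h.power _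
    | inf => simpa [sat_imp, sat_ex, sat_iff, sat_or, s_mem, s_eq, s_neg, s_and, s_all] using h.inf
    | sep φ a b h1 h2 h3 h4 => exact (sat_sep h1 h2 h3 h4 v).2 (h.sep φ v _)
    | repl φ a b h1 h2 h3 h4 => exact (sat_repl h1 h2 h3 h4 v).2 (h.repl φ v _)
    | choice => simpa [sat_imp, sat_ex, sat_iff, s_mem, s_eq, s_neg, s_and, s_all, ← exu_iff] using h.choice _

end

/-- a new first variable -/
def cons {M : Type v} (x : M) (v : ℕ → M) : ℕ → M
  | 0 => x
  | n + 1 => v n

/-- predicates that one formula defines in all structures -/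
class UD (P : ∀ M : Type v, (M → M → Prop) → (ℕ → M) → Prop) : Prop where
  out : ∃ n, (∀ M mem (v w : ℕ → M), (∀ i < n, v i = w i) → (P M mem v ↔ P M mem w)) ∧
    ∀ s : ℕ → ℕ, ∃ φ : Fml, ∀ M mem (w : ℕ → M), Sat mem φ w ↔ P M mem fun i => w (s i)

theorem UD.congr {P Q : ∀ M : Type v, (M → M → Prop) → (ℕ → M) → Prop} (h : UD P)
    (e : ∀ M mem v, P M mem v ↔ Q M mem v) : UD Q := by
  have : P = Q := funext fun M => funext fun mem => funext fun v => propext (e M mem v)
  exact this ▸ h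

theorem UD.fml (P : ∀ M : Type v, (M → M → Prop) → (ℕ → M) → Prop) [h : UD P] :
    ∃ φ : Fml, ∀ M mem (w : ℕ → M), Sat mem φ w ↔ P M mem w := h.out.choose_spec.2 id

theorem UD.ren {P : ∀ M : Type v, (M → M → Prop) → (ℕ → M) → Prop} (h : UD P) (t : ℕ → ℕ) :
    UD fun M mem v => P M mem fun i => v (t i) := by
  obtain ⟨n, h1, h2⟩ := h.out
  refine ⟨(Finset.range n).sup t + 1, fun M mem v w e => h1 M mem _ _ fun i hi => e _ ?_,
    fun s => h2 fun i => s (t i)⟩
  exact Nat.lt_succ_of_le (Finset.le_sup (f := t) (Finset.mem_range.2 hi))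

instance ud_mem (i j : ℕ) : UD.{v} fun _ mem v => mem (v i) (v j) :=
  ⟨i + j + 1, fun _ _ v w h => by simp only [h i (by omega), h j (by omega)],
    fun s => ⟨.mem (s i) (s j), fun _ _ _ => Iff.rfl⟩⟩

instance ud_eq (i j : ℕ) : UD.{v} fun _ _ v => v i = v j :=
  ⟨i + j + 1, fun _ _ v w h => by simp only [h i (by omega), h j (by omega)],
    fun s => ⟨.eq (s i) (s j), fun _ _ _ => Iff.rfl⟩⟩

section
variable (P Q : ∀ M : Type v, (M → M → Prop) → (ℕ → M) → Prop) [h : UD P] [h' : UD Q]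

instance ud_not : UD fun M mem v => ¬ P M mem v := by
  obtain ⟨n, h1, h2⟩ := h.out
  refine ⟨n, fun M mem v w e => not_congr (h1 M mem v w e), fun s => ?_⟩
  obtain ⟨φ, hφ⟩ := h2 s
  exact ⟨.neg φ, fun M mem w => not_congr (hφ M mem w)⟩

instance ud_and : UD fun M mem v => P M mem v ∧ Q M mem v := by
  obtain ⟨n, h1, h2⟩ := h.out
  obtain ⟨n', h1', h2'⟩ := h'.out
  refine ⟨n + n', fun M mem v w e => and_congr (h1 M mem v w fun i hi => e i (by omega))
    (h1' M mem v w fun i hi => e i (by omega)), fun s => ?_⟩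
  obtain ⟨φ, hφ⟩ := h2 s
  obtain ⟨ψ, hψ⟩ := h2' s
  exact ⟨.and φ ψ, fun M mem w => and_congr (hφ M mem w) (hψ M mem w)⟩

instance ud_or : UD fun M mem v => P M mem v ∨ Q M mem v :=
  (inferInstance : UD fun M mem v => ¬ (¬ P M mem v ∧ ¬ Q M mem v)).congr fun _ _ _ => by tauto

instance ud_imp : UD fun M mem v => P M mem v → Q M mem v :=
  (inferInstance : UD fun M mem v => ¬ (P M mem v ∧ ¬ Q M mem v)).congr fun _ _ _ => by tauto

instance ud_iff : UD fun M mem v => P M mem v ↔ Q M mem v :=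
  (inferInstance : UD fun M mem v => (P M mem v → Q M mem v) ∧ (Q M mem v → P M mem v)).congr
    fun _ _ _ => by tauto

end

instance ud_true : UD.{v} fun _ _ _ => True :=
  (ud_eq 0 0).congr fun _ _ _ => by simp

section
variable (P : ∀ M : Type v, (M → M → Prop) → M → (ℕ → M) → Prop)
  [h : UD fun M mem v => P M mem (v 0) fun i => v (i + 1)]

instance ud_all : UD fun M mem v => ∀ x, P M mem x v := by
  obtain ⟨n, h1, h2⟩ := h.out
  refine ⟨n, fun M mem v w e => forall_congr' fun x => h1 M mem (cons x v) (cons x w)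
    fun i hi => ?_, fun s => ?_⟩
  · cases i with
    | zero => rfl
    | succ i => exact e i (by omega)
  · obtain ⟨m, hm⟩ : ∃ m, ∀ i < n, s i < m :=
      ⟨(Finset.range n).sup s + 1, fun i hi =>
        Nat.lt_succ_of_le (Finset.le_sup (f := s) (Finset.mem_range.2 hi))⟩
    obtain ⟨φ, hφ⟩ := h2 fun i => Nat.casesOn i m s
    refine ⟨.all m φ, fun M mem w => forall_congr' fun x => (hφ M mem _).trans
      (h1 M mem (fun i => Function.update w m x (Nat.casesOn i m s)) (cons x fun i => w (s i))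
        fun i hi => ?_)⟩
    cases i with
    | zero => exact Function.update_self ..
    | succ i => exact Function.update_of_ne (hm i (by omega)).ne ..

instance ud_ex : UD fun M mem v => ∃ x, P M mem x v :=
  (inferInstance : UD fun M mem v => ¬ ∀ x, ¬ P M mem x v).congr fun _ _ _ => by simp

instance ud_exu : UD fun M mem v => ∃! x, P M mem x v := by
  have := h.ren fun i => Nat.casesOn i 0 fun j => j + 2
  have h2 : UD fun M mem v => P M mem (v 0) fun i => v (i + 1 + 1) := this
  unfold ExistsUnique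
  infer_instance

end

instance ud_isSub (i j : ℕ) : UD.{v} fun _ mem v => IsSub mem (v i) (v j) := by
  unfold IsSub; infer_instance

instance ud_isUPair (i j k : ℕ) : UD.{v} fun _ mem v => IsUPair mem (v i) (v j) (v k) := by
  unfold IsUPair; infer_instance

instance ud_isPair (i j k : ℕ) : UD.{v} fun _ mem v => IsPair mem (v i) (v j) (v k) := by
  unfold IsPair; infer_instance

instance ud_app (i j k : ℕ) : UD.{v} fun _ mem v => App mem (v i) (v j) (v k) := by
  unfold App; infer_instance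

instance ud_isFun (i j k : ℕ) : UD.{v} fun _ mem v => IsFun mem (v i) (v j) (v k) := by
  unfold IsFun IsFunOn; infer_instance

instance ud_isInj (i j k : ℕ) : UD.{v} fun _ mem v => IsInj mem (v i) (v j) (v k) := by
  unfold IsInj; infer_instance

instance ud_leCard (i j : ℕ) : UD.{v} fun _ mem v => LeCard mem (v i) (v j) := by
  unfold LeCard; infer_instance

instance ud_isSucc (i j : ℕ) : UD.{v} fun _ mem v => IsSucc mem (v i) (v j) := by
  unfold IsSucc; infer_instance

instance ud_isInductive (i : ℕ) : UD.{v} fun _ mem v => IsInductive mem (v i) := by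
  unfold IsInductive; infer_instance

instance ud_isOmega (i : ℕ) : UD.{v} fun _ mem v => IsOmega mem (v i) := by
  unfold IsOmega; infer_instance
theorem sat_lift {M : Type} (mem : M → M → Prop) (φ : Fml) : ∀ v : ℕ → ULift.{v} M,
    Sat (fun a b : ULift.{v} M => mem a.down b.down) φ v ↔ Sat mem φ fun i => (v i).down := by
  induction φ with
  | mem i j => exact fun v => Iff.rfl
  | eq i j => exact fun v => ULift.down_inj.symm
  | neg φ ih => exact fun v => not_congr (ih v)
  | and φ ψ ih ih' => exact fun v => and_congr (ih v) (ih' v)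
  | all i φ ih =>
    refine fun v => ULift.forall.trans (forall_congr' fun x => (ih _).trans (Iff.of_eq ?_))
    congr 1
    funext n
    by_cases e : n = i <;> simp [e]

/-- A sentence that fails in one model of ZFC, in any universe, is expressible and not provable. -/
theorem not_prov {P : ∀ M : Type v, (M → M → Prop) → Prop} [UD fun M mem _ => P M mem]
    {Q : ∀ M : Type, (M → M → Prop) → Prop}
    (e : ∀ M mem, P (ULift.{v} M) (fun a b => mem a.down b.down) ↔ Q M mem)
    {N : Type v} {mem' : N → N → Prop} (hN : IsZFC mem') (h : ¬ P N mem') :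
    (∃ φ, ∀ (M : Type) (mem : M → M → Prop), IsZFC mem → ∀ v, Sat mem φ v ↔ Q M mem) ∧
      ∀ φ, (∀ (M : Type) (mem : M → M → Prop), IsZFC mem → ∀ v, Sat mem φ v ↔ Q M mem) →
        ¬ Prov {χ | ZFC χ} φ ∧ Con (insert (.neg φ) {χ | ZFC χ}) := by
  obtain ⟨ψ, hψ⟩ := UD.fml fun M mem _ => P M mem
  have h0 : ∀ (M : Type) (mem : M → M → Prop) v, Sat mem ψ v ↔ Q M mem := fun M mem v =>
    (sat_lift.{v} mem ψ fun i => ⟨v i⟩).symm.trans ((hψ _ _ _).trans (e M mem))
  obtain ⟨x, -⟩ := hN.inf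
  have : Nonempty N := ⟨x⟩
  have h1 : ¬ Prov {χ | ZFC χ} ψ := fun g =>
    h ((hψ _ _ fun _ => x).1 (sound (models_zfc.2 hN) g _))
  rw [prov_iff] at h1
  simp only [not_forall] at h1
  obtain ⟨M, mem, hM, w, hw⟩ := h1
  have : Nonempty M := ⟨w 0⟩
  have hz : IsZFC mem := models_zfc.1 hM
  have hq : ¬ Q M mem := fun g => hw ((h0 M mem w).2 g)
  refine ⟨⟨ψ, fun M mem _ => h0 M mem⟩, fun φ hφ => ⟨fun g => hq ((hφ M mem hz w).1
    (sound hM g w)), con_of (mem := mem) (w 0) fun χ hχ u => ?_⟩⟩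
  rcases hχ with rfl | hχ
  · exact fun g => hq ((hφ M mem hz u).1 g)
  · exact hM χ hχ u

end Pool.Agent.P.MP_95b5c3_gt.Lit
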