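import Pool.Agent.P.MP_95b5c3_gt.Obj

set_option autoImplicit false

/-! Extending finite parts. -/

open Set

namespace Pool.Agent.P.MP_95b5c3_gt

open Obj Atom Pt

variable {s s' n : Set At} {t t' : Set Act} {w x y : Pt} {O O' : Ob} {U : Set Pt}

theorem Mem.of_sub (h : Mem s' w O) (h1 : ∀ C g v, .asg C g v ∈ s' → .asg C g v ∈ s)
    (h2 : ∀ j ξ η, .le j ξ η ∈ s' → .le j ξ η ∈ s) : Mem s w O := by
  induction h with
  | base h => exact .base h
  | asg _ ha hu ih => exact .asg ih (h1 _ _ _ ha) hu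
  | le _ ha ih => exact .le ih (h2 _ _ _ ha)

theorem Ok.add_dis (h : Ok s t)
    (hd : ∀ a ∈ n, ∃ O O', a = dis O O' ∧ ∀ w, Mem s w O → ¬ Mem s w O') : Ok (s ∪ n) t := by
  have e1 : ∀ C g v, asg C g v ∈ s ∪ n → asg C g v ∈ s := fun C g v h =>
    h.resolve_right fun h => by obtain ⟨_, _, ⟨⟩, -⟩ := hd _ h
  have e2 : ∀ j ξ η, le j ξ η ∈ s ∪ n → le j ξ η ∈ s := fun C g v h =>
    h.resolve_right fun h => by obtain ⟨_, _, ⟨⟩, -⟩ := hd _ h
  refine ⟨?_, fun O O' hr w h1 h2 => ?_⟩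
  · rintro a (ha | ha)
    · exact h.wf a ha
    · obtain ⟨_, _, rfl, -⟩ := hd a ha
      trivial
  · replace h1 := h1.of_sub e1 e2
    replace h2 := h2.of_sub e1 e2
    cases hr with
    | dis hr =>
      rcases hr with hr | hr
      · exact h.disj _ _ (.dis hr) w h1 h2
      · obtain ⟨_, _, ⟨⟩, h3⟩ := hd _ hr
        exact h3 w h1 h2
    | asg a b c d => exact h.disj _ _ (.asg (e1 _ _ _ a) (e1 _ _ _ b) c d) w h1 h2
    | act a b c => exact h.disj _ _ (.act (e1 _ _ _ a) b c) w h1 h2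

/-- separating a point from finitely many objects that do not contain it -/
theorem Ok.exists_dis (h : Ok s t) (hs : s.Finite) {F : Set Ob} (hF : F.Finite)
    (hx : ∀ O ∈ F, ¬ Mem s x O) : ∃ m, Ok (s ∪ dis (tiny x m) '' F) t := by
  obtain ⟨m, hm⟩ := exists_tiny hs hF x
  refine ⟨m, h.add_dis ?_⟩
  rintro _ ⟨O, hO, rfl⟩
  exact ⟨_, _, rfl, fun w h1 h2 =>
    hx O hO ((hm m le_rfl).2 w (base_of_mem_tiny (hm m le_rfl).1 h1) O hO h2)⟩

/-- the conditions on a new assignment -/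
structure New (s : Set At) (t : Set Act) (n : Set At) (x y : Pt) (U : Set Pt) (T : Ob) (g : K)
    (u : List ℕ) : Prop where
  below : T.below g
  hit : ∀ v m, Under u v m → Mem s y (B g v m)
  sub : ∀ w, Mem (s ∪ n) w T → w ∈ U
  old : ∀ C u', asg C g u' ∈ s → ¬ u' <+: u → ¬ Mem s y C ∧ ¬ Mem s x C
  new : ∀ T' u', asg T' g u' ∈ n → u' = u
  nx : ¬ Blocked s t x g
  ny : ¬ Blocked s t y g

theorem Mem.add (h1 : ∀ a ∈ n, ∃ T g u, a = .asg T g u ∧ New s t n x y U T g u)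
    (h : Mem (s ∪ n) w O) : Mem s w O ∨ (Mem s y O ∧ w ∈ U) := by
  induction h with
  | base h => exact Or.inl (.base h)
  | asg h ha hu ih =>
    rcases ha with ha | ha
    · exact ih.imp (fun h => .asg h ha hu) fun h => ⟨.asg h.1 ha hu, h.2⟩
    · obtain ⟨T, g, u, ⟨⟩, h2⟩ := h1 _ ha
      exact Or.inr ⟨h2.hit _ _ hu, h2.sub w h⟩
  | le h ha ih =>
    rcases ha with ha | ha
    · exact ih.imp (fun h => .le h ha) fun h => ⟨.le h.1 ha, h.2⟩
    · obtain ⟨T, g, u, ⟨⟩, h2⟩ := h1 _ ha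

theorem Ok.add (h : Ok s t) (hU : Like s (obs s t) U x)
    (h1 : ∀ a ∈ n, ∃ T g u, a = asg T g u ∧ New s t n x y U T g u)
    (h3 : ∀ O O', Req s t O O' ∨ Req s t O' O → Mem s y O → ¬ Mem s y O' ∧ ¬ Mem s x O') :
    Ok (s ∪ n) t := by
  have e1 : ∀ O O', Req s t O O' → ∀ w, Mem (s ∪ n) w O → ¬ Mem (s ∪ n) w O' := by
    intro O O' hr w a b
    rcases a.add h1 with a | a <;> rcases b.add h1 with b | b
    · exact h.disj _ _ hr w a b
    · exact (h3 _ _ (Or.inr hr) b.1).2 (hU w b.2 O hr.mem_obs.1 a)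
    · exact (h3 _ _ (Or.inl hr) a.1).2 (hU w a.2 O' hr.mem_obs.2 b)
    · exact (h3 _ _ (Or.inl hr) a.1).1 b.1
  have e2 : ∀ O ∈ obs s t, ¬ Mem s y O ∧ ¬ Mem s x O → ∀ w ∈ U, ¬ Mem (s ∪ n) w O := by
    intro O hO h4 w hw a
    rcases a.add h1 with a | a
    · exact h4.2 (hU w hw O hO a)
    · exact h4.1 a.1
  refine ⟨?_, fun O O' hr w a b => ?_⟩
  · rintro a (ha | ha)
    · exact h.wf a ha
    · obtain ⟨T, g, u, rfl, h2⟩ := h1 a ha
      exact h2.below
  · cases hr with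
    | dis hr =>
      rcases hr with hr | hr
      · exact e1 _ _ (.dis hr) w a b
      · obtain ⟨T, g, u, ⟨⟩, -⟩ := h1 _ hr
    | asg c d c1 c2 =>
      rcases c with c | c <;> rcases d with d | d
      · exact e1 _ _ (.asg c d c1 c2) w a b
      · obtain ⟨T, g, u, ⟨⟩, h2⟩ := h1 _ d
        exact e2 _ (mem_obs c rfl) (h2.old _ _ c c1) w (h2.sub w b) a
      · obtain ⟨T, g, u, ⟨⟩, h2⟩ := h1 _ c
        exact e2 _ (mem_obs d rfl) (h2.old _ _ d c2) w (h2.sub w a) b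
      · obtain ⟨T, g, u, ⟨⟩, h2⟩ := h1 _ c
        exact c1 (h2.new _ _ d ▸ List.prefix_rfl)
    | act c d c1 =>
      rcases c with c | c
      · exact e1 _ _ (.act c d c1) w a b
      · obtain ⟨T, g, u, ⟨⟩, h2⟩ := h1 _ c
        exact e2 _ (mem_obs_act d) ⟨fun h => h2.ny ⟨_, _, _, d, c1, h⟩,
          fun h => h2.nx ⟨_, _, _, d, c1, h⟩⟩ w (h2.sub w a) b

theorem Ok.disj' (h : Ok s t) (hr : Req s t O O' ∨ Req s t O' O) (h1 : Mem s w O) :
    ¬ Mem s w O' :=
  hr.elim (fun hr => h.disj _ _ hr w h1) fun hr h2 => h.disj _ _ hr w h2 h1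

theorem Ok.exists_max_node (h : Ok s t) (hs : s.Finite) (x : Pt) (g : K) :
    ∃ v, (∀ u m, Under v u m → Mem s x (B g u m)) ∧ ∀ v', In s x g v' → v' <+: v := by
  have hf : {v | In s x g v}.Finite := (hs.image Atom.node).subset fun v ⟨C, h1, _⟩ => ⟨_, h1, rfl⟩
  rcases eq_empty_or_nonempty {v | In s x g v} with e | e
  · exact ⟨[], fun u m hu => absurd hu.length_lt (by simp),
      fun v' hv => absurd (show v' ∈ {v | In s x g v} from hv) (by simp [e])⟩
  · obtain ⟨v, hv, hmax⟩ := exists_max_image _ List.length hf e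
    refine ⟨v, fun u m hu => In.mem hv hu, fun v' hv' => ?_⟩
    rcases h.comp hv' hv with h1 | h1
    · exact h1
    · exact (h1.eq_of_length_le (hmax v' hv')) ▸ List.prefix_rfl

theorem not_blocked_up (h : Ok s t) {g g' : K} {v : List ℕ} : ¬ Blocked s t (up g v) g' := by
  rintro ⟨j, A, ξ, -, -, h1⟩
  obtain ⟨_, ⟨⟩, -⟩ := h1.q h.wf

/-- data of an alignment of the point `x` with the node `u α` -/
structure Align (s : Set At) (t : Set Act) (x : Pt) (α : K) (n : Set At) (u : K → List ℕ)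
    (Γ : Set K) : Prop where
  at0 : In (s ∪ n) x α (u α)
  atg : ∀ g ∈ Γ, α < g ∧ In (s ∪ n) x g (u g) ∧ asg (B α (u α) 0) g (u g) ∈ n
  form : ∀ a ∈ n, ∃ T g, a = asg T g (u g) ∧ (g = α ∨ g ∈ Γ)
  len1 : ∀ a ∈ s, ∀ g, a.node.length < (u g).length
  len2 : ∀ O ∈ obs s t, ∀ g, O.node.length < (u g).length
  lev : ∀ a ∈ s, ∀ g ∈ a.lv, α < g → g ∈ Γ ∨ Blocked s t x g

theorem Pt.below.mono {x : Pt} {g g' : K} (h : x.below g) (h' : g ≤ g') : x.below g' := by
  cases x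
  exacts [lt_of_lt_of_le h h', trivial]

theorem Ok.exists_align (h : Ok s t) (hs : s.Finite) (ht : t.Finite) {α : K} (hx : x.below α)
    (hb : ¬ Blocked s t x α) : ∃ n u Γ, n.Finite ∧ Ok (s ∪ n) t ∧ Align s t x α n u Γ := by
  choose v hv1 hv2 using h.exists_max_node hs x
  obtain ⟨m, hm⟩ := exists_tiny hs (obs_finite hs ht) x
  obtain ⟨hm1, hm2⟩ := hm m le_rfl
  obtain ⟨l, hl⟩ := ((hs.image fun a => a.node.length).union
    ((obs_finite hs ht).image fun O => O.node.length)).bddAbove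
  let u : K → List ℕ := fun g => v g ++ List.replicate (l + 1) 0
  have hu : ∀ g, l < (u g).length := fun g => by simp [u]; omega
  have l1 : ∀ a ∈ s, ∀ g, a.node.length < (u g).length := fun a ha g =>
    (hl (Or.inl ⟨a, ha, rfl⟩)).trans_lt (hu g)
  have l2 : ∀ O ∈ obs s t, ∀ g, O.node.length < (u g).length := fun a ha g =>
    (hl (Or.inr ⟨a, ha, rfl⟩)).trans_lt (hu g)
  let Γ : Set K := {g | (g ∈ ⋃ a ∈ s, a.lv) ∧ α < g ∧ ¬ Blocked s t x g}
  have hΓ : Γ.Finite := (hs.biUnion fun a _ => a.lv_finite).subset fun g hg => hg.1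
  have hΓ' : ∀ g ∈ Γ, α < g ∧ ¬ Blocked s t x g := fun g hg => hg.2
  let n : Set At := (fun g => asg (tiny x m) g (u g)) '' insert α Γ ∪
    (fun g => asg (B α (u α) 0) g (u g)) '' Γ
  have hn : ∀ T g u', asg T g u' ∈ n → u' = u g ∧ α ≤ g := by
    rintro T g u' (⟨g', hg, ⟨⟩⟩ | ⟨g', hg, ⟨⟩⟩)
    · exact ⟨rfl, hg.elim (fun e => e.ge) fun e => (hΓ' _ e).1.le⟩
    · exact ⟨rfl, (hΓ' _ hg).1.le⟩
  have hT : ∀ w, Mem (s ∪ n) w (tiny x m) → Base w (tiny x m) := fun w =>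
    base_of_mem_tiny fun O g v' u' e ha => ha.elim (hm1 O g v' u' e) fun ha _ =>
      absurd (tiny_below hx m g (by rw [e]; rfl)) (hn _ _ _ ha).2.not_gt
  have hE : ∀ w, Mem (s ∪ n) w (B α (u α) 0) → Base w (B α (u α) 0) := fun w hw => by
    rcases hw.of_B with h1 | ⟨v', ⟨C, h1 | h1, -⟩, h2⟩
    · exact h1
    · exact absurd h2.length_lt (l1 _ h1 α).le.not_gt
    · exact absurd h2.length_lt ((hn _ _ _ h1).1 ▸ lt_irrefl _)
  have hnew : ∀ T g, T.below g → ¬ Blocked s t x g →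
      (∀ w, Mem (s ∪ n) w T → Base w (tiny x m) ∨ Base w (B α (u α) 0)) →
      New s t n x x {w | Base w (tiny x m) ∨ Base w (B α (u α) 0)} T g (u g) :=
    fun T g h1 h2 h3 => ⟨h1, fun v' m' h => hv1 g v' m' (under_zeros h), h3,
      fun C u' a b => by
        have : ¬ Mem s x C := fun c => b ((hv2 g u' ⟨C, a, c⟩).trans (List.prefix_append _ _))
        exact ⟨this, this⟩,
      fun T' u' a => (hn _ _ _ a).1, h2, h2⟩
  refine ⟨n, u, Γ, ((hΓ.insert α).image _).union (hΓ.image _), h.add (x := x) (y := x)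
    (U := {w | Base w (tiny x m) ∨ Base w (B α (u α) 0)}) ?_ ?_
    fun O O' hr a => ⟨h.disj' hr a, h.disj' hr a⟩, ?_, fun g hg => ⟨(hΓ' g hg).1, ?_, ?_⟩, ?_,
    l1, l2, fun a ha g hg h1 => ?_⟩
  · rintro w (hw | hw)
    · exact hm2 w hw
    · refine like_of_base (U := {w}) (obs_mono subset_rfl (empty_subset _)) ?_ w rfl
      rintro _ rfl O hO h1
      have h2 : ∀ v', u α <+: v' → Base (up α v') O → Mem s x O := by
        intro v' h2 h3
        cases h3 with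
        | self => exact absurd h2.length_le (l2 _ hO α).not_ge
        | under _ h3 =>
          exact hv1 _ _ _ (under_zeros (h3.of_comp (Or.inr h2)
            fun h4 => absurd h4.length_le (l2 _ hO α).not_ge))
      cases hw with
      | self => exact h2 _ List.prefix_rfl h1
      | under _ hw => exact h2 _ hw.pre h1
  · rintro _ (⟨g, hg, rfl⟩ | ⟨g, hg, rfl⟩)
    · refine ⟨_, _, _, rfl, hnew _ _ (tiny_below ?_ m) ?_ fun w hw => Or.inl (hT w hw)⟩
      · exact hx.mono (hg.elim (fun e => e.ge) fun e => (hΓ' _ e).1.le)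
      · rcases hg with rfl | hg
        exacts [hb, (hΓ' _ hg).2]
    · exact ⟨_, _, _, rfl, hnew _ _ (by rintro _ rfl; exact (hΓ' _ hg).1) (hΓ' _ hg).2
        fun w hw => Or.inr (hE w hw)⟩
  · exact ⟨_, Or.inr (Or.inl ⟨α, Or.inl rfl, rfl⟩), .base (base_tiny x m)⟩
  · exact ⟨_, Or.inr (Or.inl ⟨g, Or.inr hg, rfl⟩), .base (base_tiny x m)⟩
  · exact Or.inr ⟨g, hg, rfl⟩
  · rintro _ (⟨g, hg, rfl⟩ | ⟨g, hg, rfl⟩)
    exacts [⟨_, g, rfl, hg⟩, ⟨_, g, rfl, Or.inr hg⟩]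
  · by_cases h2 : Blocked s t x g
    · exact Or.inr h2
    · exact Or.inl ⟨mem_biUnion ha hg, h1, h2⟩

/-- assigning a small object around `x` to a child of the node `v` of level `α` -/
theorem Ok.exists_child (h : Ok s t) (hs : s.Finite) (ht : t.Finite) {α : K} {v : List ℕ}
    (hx : x.below α) (hb : ¬ Blocked s t x α)
    (h1 : ∀ C u, asg C α u ∈ s → Mem s x C → u <+: v)
    (h3 : ∀ O O', Req s t O O' ∨ Req s t O' O → Mem s (up α v) O → ¬ Mem s x O') (m : ℕ) :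
    ∃ a, Ok (s ∪ {a}) t ∧ Mem (s ∪ {a}) x (B α v m) := by
  obtain ⟨k, hk⟩ := exists_tiny hs (obs_finite hs ht) x
  obtain ⟨hk1, hk2⟩ := hk k le_rfl
  refine ⟨asg (tiny x k) α (v ++ [m + 1]), h.add (x := x) (y := up α v) hk2 ?_
    fun O O' hr a => ⟨h.disj' hr a, h3 O O' hr a⟩,
    .asg (.base (base_tiny x k)) (Or.inr rfl) ⟨m + 1, Nat.lt_succ_self m, List.prefix_rfl⟩⟩
  rintro _ rfl
  refine ⟨_, _, _, rfl, tiny_below hx k, fun u m' hu => ?_, fun w hw => ?_,
    fun C u a b => ⟨fun c => lt_irrefl _ (c.not_below h.wf (h.wf _ a)),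
      fun c => b ((h1 C u a c).trans (List.prefix_append _ _))⟩, ?_, hb, not_blocked_up h⟩
  · rcases under_concat hu with rfl | h2
    exacts [.base (.self _ _ _), .base (.under _ h2)]
  · refine base_of_mem_tiny (fun O g v' u' e ha => ha.elim (hk1 O g v' u' e) ?_) hw
    rintro ⟨⟩ -
    exact lt_irrefl _ (tiny_below hx k α (by rw [e]; rfl))
  · rintro T' u' ⟨⟩
    rfl

/-- a point outside all objects of `(s, t)` can be put near any node of a high level -/
theorem Ok.exists_near {sa : Set At} {ta : Set Act} (h : Ok (s ∪ sa) (t ∪ ta))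
    (hs : (s ∪ sa).Finite) (ht : (t ∪ ta).Finite) {α : K} (hx : x.below α)
    (h1 : ∀ O ∈ obs s t, ¬ Mem (s ∪ sa) x O) (h2 : ∀ a ∈ sa, ∀ g ∈ a.lv, g < α)
    (h3 : ∀ j A ξ, (j, A, ξ) ∈ ta → ∀ g ∈ A, g < α) (v : List ℕ) (m : ℕ) :
    ∃ a, Ok (s ∪ sa ∪ {a}) (t ∪ ta) ∧ Mem (s ∪ sa ∪ {a}) x (B α v m) := by
  have e1 : ∀ C g u, asg C g u ∈ s ∪ sa → α ≤ g → C ∈ obs s t := fun C g u a b =>
    mem_obs (a.resolve_right fun a => (h2 _ a g (mem_insert _ _)).not_ge b) rfl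
  have e2 : ∀ a ∈ s ∪ sa, ∀ O ∈ a.obs, Mem (s ∪ sa) (up α v) O → a ∈ s := fun a ha O hO b =>
    ha.resolve_right fun ha =>
      lt_irrefl _ (b.not_below h.wf fun g hg => h2 _ ha g (Atom.lv_of_obs hO hg))
  refine h.exists_child hs ht hx ?_ (fun C u a b => absurd b (h1 C (e1 C α u a le_rfl))) ?_ m
  · rintro ⟨j, A, ξ, a | a, b, c⟩
    · exact h1 _ (mem_obs_act a) c
    · exact lt_irrefl _ (h3 _ _ _ a α b)
  · rintro O O' (hr | hr) b
    · cases hr with
      | dis a => exact h1 _ (mem_obs (e2 _ a O (Or.inl rfl) b) (Or.inr rfl))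
      | asg a a' _ _ => exact h1 _ (e1 _ _ _ a' (b.not_below h.wf (h.wf _ a)).le)
      | act a a' c =>
        rcases a' with a' | a'
        · exact h1 _ (mem_obs_act a')
        · exact absurd (b.not_below h.wf (h.wf _ a)) (h3 _ _ _ a' _ c).le.not_gt
    · cases hr with
      | dis a => exact h1 _ (mem_obs (e2 _ a O (Or.inr rfl) b) (Or.inl rfl))
      | asg a a' _ _ => exact h1 _ (e1 _ _ _ a (b.not_below h.wf (h.wf _ a')).le)
      | act a a' c => obtain ⟨_, ⟨⟩, -⟩ := b.q h.wf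

theorem Mem.fresh {j η : W} (h : Mem s (bot j η) O) (h1 : ∀ O ∈ obs s ∅, j ∉ O.wv) : j ∈ O.wv := by
  induction h with
  | base h => cases h <;> simp [Obj.wv]
  | asg _ ha _ ih => exact absurd ih (h1 _ (mem_obs ha rfl))
  | le _ ha ih => exact absurd ih (h1 _ (mem_obs ha (Or.inr rfl)))

theorem Ok.add_act (h : Ok s t) {j : W} (hj : ∀ O ∈ obs s ∅, j ∉ O.wv) (A : Set K) (ξ : W) :
    Ok s (insert (j, A, ξ) t) := by
  refine ⟨h.wf, fun O O' hr w a b => ?_⟩
  cases hr with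
  | dis c => exact h.disj _ _ (.dis c) w a b
  | asg c d e f => exact h.disj _ _ (.asg c d e f) w a b
  | act c d e =>
    rcases d with ⟨⟨⟩⟩ | d
    · obtain ⟨η, rfl, -⟩ := b.q h.wf
      exact hj _ (mem_obs c rfl) (a.fresh hj)
    · exact h.disj _ _ (.act c d e) w a b

/-- the last step in the proof of the Lindelof property of a level -/
theorem Align.exists_child {α : K} {u : K → List ℕ} {Γ : Set K} (A : Align s t x α n u Γ)
    {sa : Set At} {ta : Set Act} (h : Ok (s ∪ n ∪ sa) (t ∪ ta)) (hs : (s ∪ n ∪ sa).Finite)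
    (ht : (t ∪ ta).Finite) (H4 : ∀ C ∈ obs sa ta, C.below α → ¬ Mem (s ∪ n ∪ sa) x C)
    (H7 : ∀ a ∈ sa, ∀ g ∈ a.lv, α < g → ¬ Blocked (s ∪ n ∪ sa) (t ∪ ta) x g) (m : ℕ) :
    ∃ a, Ok (s ∪ n ∪ sa ∪ {a}) (t ∪ ta) ∧ Mem (s ∪ n ∪ sa ∪ {a}) x (B α (u α) m) := by
  have i0 : In (s ∪ n ∪ sa) x α (u α) := A.at0.mono subset_union_left
  have ig : ∀ g ∈ Γ, In (s ∪ n ∪ sa) x g (u g) := fun g hg => (A.atg g hg).2.1.mono subset_union_left
  have iE : ∀ g ∈ Γ, In (s ∪ n ∪ sa) (up α (u α)) g (u g) := fun g hg =>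
    ⟨_, Or.inl (Or.inr (A.atg g hg).2.2), .base (.self _ _ _)⟩
  have hx : x.below α := i0.below h.wf
  have sub : s ⊆ s ∪ n ∪ sa := subset_union_left.trans subset_union_left
  -- assignments of low objects containing `x`
  have leaf : ∀ C g v, asg C g v ∈ s ∪ n ∪ sa → Mem (s ∪ n ∪ sa) x C → C.below α → α ≤ g →
      v <+: u g ∧ (g = α ∨ g ∈ Γ) := by
    intro C g v a b c d
    rcases a with (a | a) | a
    · have i : In (s ∪ n ∪ sa) x g v := ⟨C, sub a, b⟩
      have e : g = α ∨ g ∈ Γ := d.eq_or_lt.imp Eq.symm fun d =>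
        (A.lev _ a g (mem_insert _ _) d).resolve_right fun e =>
          h.not_blocked i (e.mono sub subset_union_left)
      refine ⟨(h.comp i (e.elim (fun e => e ▸ i0) (ig g))).resolve_right fun e => ?_, e⟩
      exact absurd e.length_le (A.len1 _ a g).not_ge
    · obtain ⟨T, g', ⟨⟩, e⟩ := A.form _ a
      exact ⟨List.prefix_rfl, e⟩
    · exact absurd b (H4 C (mem_obs a rfl) c)
  have X : ∀ O, Mem (s ∪ n ∪ sa) x O → ¬ O.below α → Mem (s ∪ n ∪ sa) (up α (u α)) O := by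
    intro O hO
    induction hO with
    | base b =>
      intro c
      refine absurd ?_ c
      cases b with
      | self => rintro _ rfl; exact hx
      | under => rintro _ rfl; exact hx
      | cyl => rintro _ ⟨⟩
      | q => rintro _ ⟨⟩
    | @asg C g v v' m' b a hu ih =>
      intro c
      by_cases d : C.below α
      · obtain ⟨e1, e2 | e2⟩ := leaf C g v a b d (not_lt.1 fun e => c (by rintro _ rfl; exact e))
        · subst e2
          exact .base (.under _ (hu.ext e1))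
        · exact (iE g e2).mem (hu.ext e1)
      · exact .asg (ih d) a hu
    | le => exact fun c => absurd (by rintro _ ⟨⟩) c
  have lvl : ∀ O ∈ obs s t, ∀ g ∈ O.lv, ∃ a ∈ s, g ∈ a.lv := by
    rintro O (hO | ⟨a, -, rfl⟩) g hg
    · obtain ⟨a, ha, h1⟩ := mem_iUnion₂.1 hO
      exact ⟨a, ha, Atom.lv_of_obs h1 hg⟩
    · exact hg.elim
  have Z : ∀ O, Mem (s ∪ n ∪ sa) (up α (u α)) O → O ∈ obs s t → Mem (s ∪ n ∪ sa) x O := by
    intro O hO
    induction hO with
    | base b =>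
      intro c
      cases b with
      | self => exact absurd (A.len2 _ c α) (lt_irrefl _)
      | under _ b => exact i0.mem b
    | @asg C g v v' m' b a hu ih =>
      intro c
      have d : α < g := b.not_below h.wf (h.wf _ a)
      by_cases e : g ∈ Γ
      · exact (ig g e).mem (hu.of_comp (h.comp ⟨C, a, b⟩ (iE g e))
          fun f => absurd f.length_le (A.len2 _ c g).not_ge)
      · obtain ⟨a', ha', f⟩ := lvl _ c g rfl
        have f' := ((A.lev a' ha' g f d).resolve_left e).mono sub (subset_union_left (t := ta))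
        rcases a with (a | a) | a
        · exact .asg (ih (mem_obs a rfl)) (sub a) hu
        · obtain ⟨T, g', ⟨⟩, f | f⟩ := A.form _ a
          exacts [absurd f d.ne', absurd f e]
        · exact absurd f' (H7 _ a g (mem_insert _ _) d)
    | le b => obtain ⟨_, ⟨⟩, -⟩ := b.q h.wf
  refine h.exists_child hs ht hx (h.not_blocked i0)
    (fun C v a b => (leaf C α v a b (h.wf _ a) le_rfl).1) (fun O O' hr b c => ?_) m
  by_cases d : O'.below α
  swap
  · exact h.disj' hr b (X O' c d)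
  have e1 : ∀ O1 O2, dis O1 O2 ∈ s ∪ n ∪ sa → O' ∈ (dis O1 O2).obs → dis O1 O2 ∈ s := by
    rintro O1 O2 ((a | a) | a) e
    · exact a
    · obtain ⟨_, _, ⟨⟩, -⟩ := A.form _ a
    · exact absurd c (H4 _ (mem_obs a e) d)
  have e2 : ∀ g v v', asg O g v ∈ s ∪ n ∪ sa → asg O' g v' ∈ s ∪ n ∪ sa →
      v <+: v' ∨ v' <+: v := by
    intro g v v' a a'
    have f : α < g := b.not_below h.wf (h.wf _ a)
    obtain ⟨f1, f2⟩ := leaf O' g v' a' c d f.le
    rcases h.comp ⟨O, a, b⟩ (iE g (f2.resolve_left f.ne')) with f3 | f3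
    exacts [pre_total f3 f1, Or.inr (f1.trans f3)]
  rcases hr with hr | hr
  · cases hr with
    | dis a => exact h.disj _ _ (.dis a) x (Z O b (mem_obs (e1 _ _ a (Or.inr rfl)) (Or.inl rfl))) c
    | asg a a' f f' => exact (e2 _ _ _ a a').elim f f'
    | @act g v j ξ A' a a' f =>
      have f1 : α < g := b.not_below h.wf (h.wf _ a)
      have f2 : Blocked (s ∪ n ∪ sa) (t ∪ ta) x g := ⟨j, A', ξ, a', f, c⟩
      rcases a with (a | a) | a
      · exact h.not_blocked ⟨O, sub a, Z O b (mem_obs a rfl)⟩ f2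
      · obtain ⟨T, g', ⟨⟩, f | f⟩ := A.form _ a
        exacts [f1.ne' f, h.not_blocked (ig g f) f2]
      · exact H7 _ a g (mem_insert _ _) f1 f2
  · cases hr with
    | dis a => exact h.disj _ _ (.dis a) x c (Z O b (mem_obs (e1 _ _ a (Or.inl rfl)) (Or.inr rfl)))
    | asg a a' f f' => exact (e2 _ _ _ a' a).elim f' f
    | act => obtain ⟨_, ⟨⟩, -⟩ := b.q h.wf

end Pool.Agent.P.MP_95b5c3_gt
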