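import Pool.Agent.P.MP_95b5c3_gt.Add

set_option autoImplicit false

/-! Amalgamation of twins. -/

open Set

namespace Pool.Agent.P.MP_95b5c3_gt

open Obj Atom Pt

theorem Mem.proj {s s' : Set At} {f : K → K} {h : W → W} {N : ℕ}
    (h1 : ∀ O g v, .asg O g v ∈ s → O.len ≤ N ∧ Atom.asg (O.map f h) (f g) v ∈ s')
    (h2 : ∀ j ξ η, .le j ξ η ∈ s → Atom.le (h j) (h ξ) (h η) ∈ s' ∨ h ξ = h η)
    (h3 : ∀ η, rs (h η) N = rs η N) {w : Pt} {O : Ob} (hw : Mem s w O) (hO : O.len ≤ N) :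
    Mem s' (w.map f h) (O.map f h) := by
  induction hw with
  | base b =>
    refine .base ?_
    cases b with
    | self => exact .self _ _ _
    | under _ b => exact .under _ b
    | cyl j η n =>
      simp only [Pt.map, Obj.map]
      rw [← rs_mono (m := n) (h3 η) hO]
      exact .cyl _ _ _
    | q => exact .q _ _
  | asg _ a hu ih => exact .asg (ih (h1 _ _ _ a).1) (h1 _ _ _ a).2 hu
  | le _ a ih =>
    rcases h2 _ _ _ a with e | e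
    · exact .le (ih (Nat.zero_le _)) e
    · simp only [Obj.map]
      rw [e]
      exact ih (Nat.zero_le _)

/-- `(a, b)` supports `(s, t)` and `N` bounds the lengths of the cylinders -/
structure Supp (s : Set At) (t : Set Act) (a : Set K) (b : Set W) (N : ℕ) : Prop where
  lv : ∀ x ∈ s, x.lv ⊆ a
  wv : ∀ O ∈ obs s t, O.wv ⊆ b
  len : ∀ O ∈ obs s t, O.len ≤ N

/-- allowed additional atoms -/
def Extra (s2 : Set At) (b1 : Set W) (f : K → K) (h h' : W → W) (N : ℕ) (x : At) : Prop :=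
  (∃ O O', x = dis O O' ∧ O.len ≤ N ∧ O'.len ≤ N ∧ x.map f h ∈ s2) ∨
    ∃ j ξ η, x = le j ξ η ∧ ξ < η ∧ j ∈ b1 ∧ h ξ = h η ∧ h' ξ = h' η

theorem amalg {s1 s2 ex : Set At} {t1 t2 : Set Act} {a1 a2 : Set K} {b1 b2 : Set W} {N : ℕ}
    {f f' : K → K} {h h' : W → W} (ok1 : Ok s1 t1) (ok2 : Ok s2 t2)
    (S1 : Supp s1 t1 a1 b1 N) (S2 : Supp s2 t2 a2 b2 N)
    (f2 : ∀ g ∈ a2, f g = g) (h2 : ∀ j ∈ b2, h j = j)
    (f1 : ∀ g ∈ a1, f' g = g) (h1 : ∀ j ∈ b1, h' j = j)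
    (m1 : ∀ x ∈ s1, x.map f h ∈ s2) (m2 : ∀ x ∈ s2, x.map f' h' ∈ s1)
    (r1 : ∀ η, rs (h η) N = rs η N) (r2 : ∀ η, rs (h' η) N = rs η N)
    (hex : ∀ x ∈ ex, Extra s2 b1 f h h' N x)
    (c1 : ∀ j A ξ, (j, A, ξ) ∈ t1 → ∀ g ∈ A, g ∈ a2 → g ∈ a1)
    (c2 : ∀ j A ξ, (j, A, ξ) ∈ t2 → j ∉ b1 → ∀ g ∈ A, g ∈ a1 → ∀ d ∈ a1, d < g → d ∈ A)
    (c3 : ∀ j A ξ, (j, A, ξ) ∈ t2 → j ∈ b1 → ∀ g ∈ A, g ∈ a1 → g ∈ a2) :
    Ok (s1 ∪ s2 ∪ ex) (t1 ∪ t2) := by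
  have fix2 : ∀ x ∈ s2, x.map f h = x := fun x hx => Atom.map_fix
    (fun g hg => f2 g (S2.lv x hx hg)) fun O hO j hj => h2 j (S2.wv O (mem_obs hx hO) hj)
  have fix1 : ∀ x ∈ s1, x.map f' h' = x := fun x hx => Atom.map_fix
    (fun g hg => f1 g (S1.lv x hx hg)) fun O hO j hj => h1 j (S1.wv O (mem_obs hx hO) hj)
  have m1' : ∀ x ∈ s1 ∪ s2, x.map f h ∈ s2 := fun x hx =>
    hx.elim (m1 x) fun hx => (fix2 x hx).symm ▸ hx
  have m2' : ∀ x ∈ s1 ∪ s2, x.map f' h' ∈ s1 := fun x hx =>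
    hx.elim (fun hx => (fix1 x hx).symm ▸ hx) (m2 x)
  have len : ∀ x ∈ s1 ∪ s2, ∀ O ∈ x.obs, O.len ≤ N := fun x hx O hO =>
    hx.elim (fun hx => S1.len O (mem_obs hx hO)) fun hx => S2.len O (mem_obs hx hO)
  have ea : ∀ {C g v}, asg C g v ∈ s1 ∪ s2 ∪ ex → asg C g v ∈ s1 ∪ s2 := fun a =>
    a.resolve_right fun a => by
      obtain ⟨_, _, ⟨⟩, -⟩ | ⟨_, _, _, ⟨⟩, -⟩ := hex _ a
  have el : ∀ {j ξ η}, le j ξ η ∈ ex → ξ < η ∧ j ∈ b1 ∧ h ξ = h η ∧ h' ξ = h' η := fun a => by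
    obtain ⟨_, _, ⟨⟩, -⟩ | ⟨_, _, _, ⟨⟩, e⟩ := hex _ a
    exact e
  have P2 : ∀ {w O}, Mem (s1 ∪ s2 ∪ ex) w O → O.len ≤ N → Mem s2 (w.map f h) (O.map f h) :=
    Mem.proj (fun O g v a => ⟨len _ (ea a) O rfl, m1' _ (ea a)⟩)
      (fun j ξ η a => a.imp (m1' _) fun a => (el a).2.2.1) r1
  have P1 : ∀ {w O}, Mem (s1 ∪ s2 ∪ ex) w O → O.len ≤ N → Mem s1 (w.map f' h') (O.map f' h') :=
    Mem.proj (fun O g v a => ⟨len _ (ea a) O rfl, m2' _ (ea a)⟩)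
      (fun j ξ η a => a.imp (m2' _) fun a => (el a).2.2.2) r2
  have wf : ∀ x ∈ s1 ∪ s2 ∪ ex, x.wf := by
    rintro x ((a | a) | a)
    · exact ok1.wf x a
    · exact ok2.wf x a
    · obtain ⟨_, _, rfl, -⟩ | ⟨_, _, _, rfl, e⟩ := hex _ a
      exacts [trivial, e.1]
  -- points of a level that the first condition does not know
  have src : ∀ j η, j ∉ b1 → ∀ C g v, asg C g v ∈ s1 → Mem s2 (bot j η) C →
      ∃ d ∈ a1, d < g ∧ ∃ u, In s2 (bot j η) d u := by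
    intro j η hj C g v a b
    cases C with
    | B d u m =>
      rcases b.of_B with b | ⟨u', b, -⟩
      · cases b
      · exact ⟨d, S1.lv _ a (Or.inr rfl), ok1.wf _ a d rfl, u', b⟩
    | Cyl j' n τ =>
      obtain ⟨_, ⟨⟩, -⟩ := b.cyl
      exact absurd (S1.wv _ (mem_obs a rfl) rfl) hj
    | Q j' ξ =>
      obtain ⟨_, ⟨⟩, -⟩ := b.q ok2.wf
      exact absurd (S1.wv _ (mem_obs a rfl) (Or.inl rfl)) hj
  have R4 : ∀ j η, j ∉ b1 → ∀ O, Mem (s1 ∪ s2 ∪ ex) (bot j η) O → Mem s2 (bot j η) O ∨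
      ∃ d ∈ a1, (∃ g ∈ O.lv, d < g) ∧ ∃ u, In s2 (bot j η) d u := by
    intro j η hj O hO
    induction hO with
    | base b => exact Or.inl (.base b)
    | @asg C g v u m _ a hu ih =>
      rcases ih with ih | ⟨d, d1, ⟨g', d2, d3⟩, d4⟩
      · rcases ea a with a | a
        · obtain ⟨d, d1, d2, d3⟩ := src j η hj C g v a ih
          exact Or.inr ⟨d, d1, ⟨g, rfl, d2⟩, d3⟩
        · exact Or.inl (.asg ih a hu)
      · exact Or.inr ⟨d, d1, ⟨g, rfl, d3.trans (wf _ a g' d2)⟩, d4⟩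
    | le b a ih =>
      obtain ⟨_, ⟨⟩, -⟩ := b.q wf
      rcases ih with ih | ⟨d, -, ⟨g', ⟨⟩, -⟩, -⟩
      rcases a with (a | a) | a
      · exact absurd (S1.wv _ (mem_obs a (Or.inl rfl)) (Or.inl rfl)) hj
      · exact Or.inl (.le ih a)
      · exact absurd (el a).2.1 hj
  refine ⟨wf, fun O O' hr w a b => ?_⟩
  cases hr with
  | dis c =>
    rcases c with c | c
    · exact ok2.disj _ _ (.dis (m1' _ c)) _ (P2 a (len _ c O (Or.inl rfl)))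
        (P2 b (len _ c O' (Or.inr rfl)))
    · obtain ⟨_, _, ⟨⟩, e1, e2, e3⟩ | ⟨_, _, _, ⟨⟩, -⟩ := hex _ c
      exact ok2.disj _ _ (.dis e3) _ (P2 a e1) (P2 b e2)
  | asg c d e1 e2 =>
    exact ok2.disj _ _ (.asg (m1' _ (ea c)) (m1' _ (ea d)) e1 e2) _ (P2 a (len _ (ea c) O rfl))
      (P2 b (len _ (ea d) O' rfl))
  | @act g u j ξ A c d e =>
    replace c := ea c
    have hg : g ∈ a1 ∨ g ∈ a2 :=
      c.imp (fun c => S1.lv _ c (mem_insert _ _)) fun c => S2.lv _ c (mem_insert _ _)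
    rcases d with d | d
    · have e1 : f' g = g := f1 g (hg.elim id (c1 _ _ _ d g e))
      have e2 : (Q j ξ : Ob).map f' h' = Q j ξ :=
        Obj.map_fix (fun _ => False.elim) fun i hi => h1 i (S1.wv _ (mem_obs_act d) hi)
      exact ok1.disj _ _ (.act (m2' _ c) d (e1.symm ▸ e)) _ (P1 a (len _ c O rfl))
        (e2 ▸ P1 b (Nat.zero_le _))
    · by_cases g2 : g ∈ a2
      · have e2 : (Q j ξ : Ob).map f h = Q j ξ :=
          Obj.map_fix (fun _ => False.elim) fun i hi => h2 i (S2.wv _ (mem_obs_act d) hi)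
        exact ok2.disj _ _ (.act (m1' _ c) d ((f2 g g2).symm ▸ e)) _ (P2 a (len _ c O rfl))
          (e2 ▸ P2 b (Nat.zero_le _))
      · have g1 := hg.resolve_right g2
        have c' : asg O g u ∈ s1 := c.resolve_right fun c => g2 (S2.lv _ c (mem_insert _ _))
        have hj : j ∉ b1 := fun hj => g2 (c3 _ _ _ d hj g e g1)
        obtain ⟨η, rfl, -⟩ := b.q wf
        have b' : Mem s2 (bot j η) (Q j ξ) :=
          (R4 j η hj _ b).resolve_right fun ⟨_, _, ⟨_, k, _⟩, _⟩ => k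
        obtain ⟨δ, d1, d2, v, d3⟩ : ∃ d ∈ a1, d < g ∧ ∃ u, In s2 (bot j η) d u := by
          rcases R4 j η hj _ a with k | ⟨δ, d1, ⟨g', d2, d3⟩, d4⟩
          · exact src j η hj O g u c' k
          · exact ⟨δ, d1, d3.trans (ok1.wf _ c' g' d2), d4⟩
        exact ok2.not_blocked d3 ⟨j, A, ξ, d, c2 _ _ _ d hj g e g1 δ d1 d2, b'⟩

end Pool.Agent.P.MP_95b5c3_gt
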