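import Pool.Agent.Lib.PosetForcing.Card
import Pool.Agent.Lib.PosetForcing.Cond

set_option autoImplicit false

/-! Index types, recursion of length `ω₁`, codes for delta-systems. -/

open Set Pool.Agent.Lib.PosetForcing

namespace Pool.Agent.P.MP_95b5c3_gt

/-- levels: the successor of the continuum as a type -/
abbrev K : Type 1 := (Order.succ Cardinal.continuum.{1}).ord.ToType

/-- a type of size continuum -/
abbrev Th : Type 1 := Cardinal.continuum.{1}.ord.ToType

/-- the first uncountable ordinal as a type -/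
abbrev W : Type := (Cardinal.aleph 1).ord.ToType

theorem countable_Iio (x : W) : (Iio x).Countable := by
  rw [← Cardinal.le_aleph0_iff_set_countable, ← Order.lt_succ_iff, Cardinal.succ_aleph0]
  simpa using Cardinal.mk_Iio_lt x

theorem countable_Iic (x : W) : (Iic x).Countable := by
  rw [← Iio_insert]; exact (countable_Iio x).insert x

instance : Uncountable W := by
  rw [← Cardinal.aleph0_lt_mk_iff, Cardinal.mk_ord_toType]
  exact Cardinal.aleph0_lt_aleph_one

theorem exists_bound {S : Set W} (hS : S.Countable) : ∃ δ, ∀ x ∈ S, x < δ := by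
  have h1 : (⋃ x ∈ S, Iic x).Countable := hS.biUnion fun x _ => countable_Iic x
  by_contra h
  push Not at h
  refine not_countable_univ (α := W) (h1.mono fun δ _ => ?_)
  obtain ⟨x, hx, h2⟩ := h δ
  exact mem_biUnion hx h2

theorem exists_not_mem {S : Set W} (hS : S.Countable) : ∃ δ, δ ∉ S := by
  obtain ⟨δ, h⟩ := exists_bound hS
  exact ⟨δ, fun h' => lt_irrefl _ (h δ h')⟩

/-- of size at most continuum -/
def Sm {α : Type 1} (A : Set α) : Prop := Cardinal.mk A ≤ Cardinal.continuum

theorem Sm.mono {α : Type 1} {A B : Set α} (h : Sm B) (e : A ⊆ B) : Sm A :=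
  (Cardinal.mk_le_mk_of_subset e).trans h

theorem Sm.image {α β : Type 1} {A : Set α} (h : Sm A) (f : α → β) : Sm (f '' A) :=
  Cardinal.mk_image_le.trans h

theorem Sm.biUnion {ι α : Type 1} {s : Set ι} (hs : Sm s) {A : ι → Set α}
    (hA : ∀ x ∈ s, Sm (A x)) : Sm (⋃ x ∈ s, A x) :=
  (Cardinal.mk_biUnion_le A s).trans ((mul_le_mul' hs (ciSup_le' fun x : s => hA x.1 x.2)).trans
    Cardinal.continuum_mul_self.le)

theorem sm_of_countable {α : Type 1} {A : Set α} (h : A.Countable) : Sm A :=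
  (Cardinal.le_aleph0_iff_set_countable.2 h).trans Cardinal.aleph0_le_continuum

theorem sm_range {ι : Type} {α : Type 1} (h : Cardinal.mk ι ≤ Cardinal.continuum) (f : ι → α) :
    Sm (range f) := by
  have h1 := Cardinal.mk_range_le_lift (f := f)
  have h2 := Cardinal.lift_le.{1}.2 h
  rw [Cardinal.lift_continuum] at h2
  have h3 := h1.trans h2
  rwa [Cardinal.lift_uzero] at h3

theorem mk_W_le : Cardinal.mk W ≤ Cardinal.continuum := by
  rw [Cardinal.mk_ord_toType]
  exact Cardinal.aleph_one_le_continuum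

theorem sm_iUnion {α : Type 1} {A : W → Set α} (hA : ∀ j, Sm (A j)) : Sm (⋃ j, A j) :=
  (Sm.biUnion (sm_range mk_W_le A) (A := id) (by rintro _ ⟨j, rfl⟩; exact hA j)).mono
    fun _ hx => let ⟨j, h⟩ := mem_iUnion.1 hx; mem_biUnion ⟨j, rfl⟩ h

theorem Sm.prod {α β : Type 1} {A : Set α} {B : Set β} (hA : Sm A) (hB : Sm B) : Sm (A ×ˢ B) :=
  (hA.biUnion (A := fun a => Prod.mk a '' B) fun a _ => hB.image _).mono
    fun x hx => mem_biUnion hx.1 ⟨x.2, hx.2, rfl⟩

theorem Sm.cnt {α : Type 1} {A : Set α} (hA : Sm A) : Sm {t : Set α | t ⊆ A ∧ t.Countable} := by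
  have h1 := Cardinal.mk_bounded_subset_le A Cardinal.aleph0
  have h2 : max (Cardinal.mk A) Cardinal.aleph0 ^ Cardinal.aleph0 ≤ Cardinal.continuum.{1} :=
    (Cardinal.power_le_power_right (max_le hA Cardinal.aleph0_le_continuum)).trans
      Cardinal.continuum_power_aleph0.le
  refine le_trans (le_of_eq ?_) (h1.trans h2)
  simp only [Cardinal.le_aleph0_iff_set_countable]
  rfl

theorem Sm.exists_enum {α : Type 1} {A : Set α} (hA : Sm A) (hne : A.Nonempty) :
    ∃ f : Th → α, range f = A := by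
  have : Nonempty A := hne.to_subtype
  have h1 : Cardinal.mk A ≤ Cardinal.mk Th := by rw [Cardinal.mk_ord_toType]; exact hA
  obtain ⟨e⟩ := (Cardinal.le_def _ _).1 h1
  refine ⟨Subtype.val ∘ Function.invFun e, ?_⟩
  rw [(Function.invFun_surjective e.injective).range_comp, Subtype.range_coe]

theorem sm_Iic (x : K) : Sm (Iic x) := by
  have h : Sm (Iio x) := by
    rw [Sm, ← Order.lt_succ_iff]
    simpa using Cardinal.mk_Iio_lt x
  rw [← Iio_insert, insert_eq]
  exact (Cardinal.mk_union_le _ _).trans ((add_le_add (sm_of_countable (countable_singleton x)) h).trans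
    Cardinal.continuum_add_self.le)

theorem exists_boundK_small {S : Set K} (hS : Sm S) : ∃ β, ∀ x ∈ S, x < β := by
  have h1 : Sm (⋃ x ∈ S, Iic x) := hS.biUnion fun x _ => sm_Iic x
  by_contra h
  push Not at h
  have h2 : Sm (univ : Set K) := h1.mono fun δ _ =>
    let ⟨x, hx, h2⟩ := h δ; mem_biUnion hx h2
  rw [Sm, Cardinal.mk_univ, Cardinal.mk_ord_toType] at h2
  exact (Order.lt_succ _).not_ge h2

theorem exists_boundK {S : Set K} (hS : S.Countable) : ∃ β, ∀ x ∈ S, x < β :=
  exists_boundK_small (sm_of_countable hS)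

instance : Nonempty K := ⟨(exists_boundK countable_empty).choose⟩

theorem exists_rr : ∃ r : W → ℕ → Bool, Function.Injective r := by
  have : Cardinal.mk W ≤ Cardinal.mk (ℕ → Bool) := by
    rw [Cardinal.mk_ord_toType]
    simpa using Cardinal.aleph_one_le_continuum
  obtain ⟨e⟩ := (Cardinal.le_def _ _).1 this
  exact ⟨e, e.injective⟩

/-- pairwise different reals -/
noncomputable def rr : W → ℕ → Bool := exists_rr.choose

/-- initial segments of the reals -/
noncomputable def rs (η : W) (n : ℕ) : List Bool := (List.range n).map (rr η)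

theorem rs_eq_iff {η ζ : W} {n : ℕ} : rs η n = rs ζ n ↔ ∀ i < n, rr η i = rr ζ i := by
  simp [rs]

theorem rs_mono {η ζ : W} {m n : ℕ} (h : rs η n = rs ζ n) (hm : m ≤ n) : rs η m = rs ζ m :=
  rs_eq_iff.2 fun i hi => rs_eq_iff.1 h i (hi.trans_le hm)

theorem rs_zero (η : W) : rs η 0 = [] := rfl

theorem exists_rs_ne {η ζ : W} (h : η ≠ ζ) : ∃ n, rs η n ≠ rs ζ n := by
  by_contra h'
  push Not at h'
  exact h (exists_rr.choose_spec (funext fun i => rs_eq_iff.1 (h' (i + 1)) i (Nat.lt_succ_self i)))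

/-- recursion of length `ω₁` -/
theorem exists_chain {α : Type*} (U : α → Prop) (V : α → α → Prop)
    (h : ∀ H : Set α, H.Countable → (∀ x ∈ H, U x) → (∀ x ∈ H, ∀ y ∈ H, x = y ∨ V x y ∨ V y x) →
      ∃ x, U x ∧ ∀ y ∈ H, V y x) :
    ∃ g : W → α, (∀ i, U (g i)) ∧ ∀ i k, i < k → V (g i) (g k) := by
  classical
  obtain ⟨x0, -⟩ := h ∅ countable_empty (by simp) (by simp)
  have h' : ∀ H : Set α, ∃ x, H.Countable → (∀ x ∈ H, U x) →
      (∀ x ∈ H, ∀ y ∈ H, x = y ∨ V x y ∨ V y x) → U x ∧ ∀ y ∈ H, V y x := by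
    intro H
    by_cases h1 : H.Countable ∧ (∀ x ∈ H, U x) ∧ (∀ x ∈ H, ∀ y ∈ H, x = y ∨ V x y ∨ V y x)
    · obtain ⟨x, hx⟩ := h H h1.1 h1.2.1 h1.2.2
      exact ⟨x, fun _ _ _ => hx⟩
    · exact ⟨x0, fun a b c => absurd ⟨a, b, c⟩ h1⟩
  choose F hF using h'
  let g : W → α := (wellFounded_lt (α := W)).fix fun k ih => F (range fun i : Iio k => ih i.1 i.2)
  have hg : ∀ k, g k = F (range fun i : Iio k => g i.1) := fun k => WellFounded.fix_eq _ _ k
  have key : ∀ k, U (g k) ∧ ∀ i < k, V (g i) (g k) := by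
    intro k
    induction k using WellFoundedLT.induction with
    | ind k ih =>
      have := (countable_Iio k).to_subtype
      have h1 := hF (range fun i : Iio k => g i.1) (countable_range _)
        (by rintro _ ⟨i, rfl⟩; exact (ih i.1 i.2).1) (by
          rintro _ ⟨i, rfl⟩ _ ⟨j, rfl⟩
          rcases lt_trichotomy i.1 j.1 with e | e | e
          · exact Or.inr (Or.inl ((ih j.1 j.2).2 _ e))
          · exact Or.inl (congrArg g e)
          · exact Or.inr (Or.inr ((ih i.1 i.2).2 _ e)))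
      rw [← hg k] at h1
      exact ⟨h1.1, fun i hi => h1.2 _ ⟨⟨i, hi⟩, rfl⟩⟩
  exact ⟨g, fun i => (key i).1, fun i k hik => (key k).2 i hik⟩

/-- a delta-system with codes that agree on the root -/
theorem exists_code {ι X : Type*} [Nonempty X] (S : ι → Set X) (hS : ∀ i, (S i).Finite)
    {I : Set ι} (hI : ¬ I.Countable) :
    ∃ (code : ι → X → ℕ) (dec : ι → ℕ → X) (D : Set X), ∃ I' ⊆ I, ¬ I'.Countable ∧
      (∀ i ∈ I', D ⊆ S i) ∧ (∀ i ∈ I', ∀ j ∈ I', i ≠ j → ∀ x ∈ S i, x ∈ S j → x ∈ D) ∧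
      (∀ i, ∀ x ∈ S i, dec i (code i x) = x) ∧ ∀ i j, ∀ x ∈ D, code i x = code j x := by
  classical
  obtain ⟨D, I', h1, h2, h3, h4⟩ := exists_delta (fun i => (hS i).toFinset) hI
  obtain ⟨φ, hφ⟩ := countable_iff_exists_injOn.1 D.countable_toSet
  choose ψ hψ using fun i => countable_iff_exists_injOn.1 (hS i).countable
  let code : ι → X → ℕ := fun i x => if x ∈ D then 2 * φ x else 2 * ψ i x + 1
  have hc : ∀ i, InjOn (code i) (S i) := by
    intro i x hx y hy e
    simp only [code] at e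
    split_ifs at e with a b b
    · exact hφ a b (by omega)
    · omega
    · omega
    · exact hψ i hx hy (by omega)
  refine ⟨code, fun i => Function.invFunOn (code i) (S i), D, I', h1, h2, fun i hi x hx => ?_,
    fun i hi j hj hij x hx hx' => ?_, fun i x hx => (hc i).leftInvOn_invFunOn hx,
    fun i j x hx => ?_⟩
  · simpa using h3 i hi hx
  · exact h4 i hi j hj hij x (by simpa using hx) (by simpa using hx')
  · have : x ∈ D := hx
    simp [code, this]

end Pool.Agent.P.MP_95b5c3_gt
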