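import Pool.Agent.P.MP_95b5c3_gt.Basic

set_option autoImplicit false

/-! Countable conditions with side conditions of Hechler type. -/

open Set Pool.Agent.Lib.PosetForcing

namespace Pool.Agent.P.MP_95b5c3_gt

/-- entries of the enumerations -/
abbrev SE : Type 1 := (K × W) × (K × ℕ)

/-- entries of the bounds -/
abbrev ZE : Type 1 := (K × W) × W

/-- raw conditions -/
inductive Raw : Type 1
  | mk (s : Set SE) (z : Set ZE) (use : Set ℕ) (lev : use → K) (d : use → W → Th → Raw)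
      (v : use → W → Th → W) : Raw

/-- a level with a name -/
abbrev Side : Type 1 := K × (W → Th → Raw × W)

namespace Raw

/-- the enumerations -/
def s : Raw → Set SE
  | mk s _ _ _ _ _ => s

/-- the bounds -/
def z : Raw → Set ZE
  | mk _ z _ _ _ _ => z

/-- the side conditions -/
def sides : Raw → Set Side
  | mk _ _ _ lev d v => range fun n => (lev n, fun j t => (d n j t, v n j t))

theorem sides_cnt (c : Raw) : c.sides.Countable := by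
  cases c
  exact countable_range _

theorem exists_mk (s : Set SE) (z : Set ZE) {S : Set Side} (hS : S.Countable) :
    ∃ c : Raw, c.s = s ∧ c.z = z ∧ c.sides = S := by
  have := hS.to_subtype
  obtain ⟨f, hf⟩ := exists_injective_nat S
  let e := (Equiv.ofInjective f hf).symm
  refine ⟨mk s z (range f) (fun n => (e n).1.1) (fun n j t => ((e n).1.2 j t).1)
    fun n j t => ((e n).1.2 j t).2, rfl, rfl, ?_⟩
  exact (e.surjective.range_comp Subtype.val).trans Subtype.range_coe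

theorem ind {P : Raw → Prop} (h : ∀ c : Raw, (∀ σ ∈ c.sides, ∀ j t, P (σ.2 j t).1) → P c)
    (c : Raw) : P c := by
  induction c with
  | mk s z use lev d v ih => exact h _ (by rintro _ ⟨n, rfl⟩ j t; exact ih n j t)

/-- the first condition extends the second -/
def Le (c' c : Raw) : Prop :=
  Raw.rec (motive := fun _ => Prop) (fun s z use lev d v ih => s ⊆ c'.s ∧ z ⊆ c'.z ∧
    (mk s z use lev d v).sides ⊆ c'.sides ∧ ∀ n j ζ, ((lev n, j), ζ) ∈ c'.z →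
      ((lev n, j), ζ) ∉ z → ∃ t, ih n j t ∧ v n j t ≤ ζ) c

theorem le_iff {c' c : Raw} : Le c' c ↔ c.s ⊆ c'.s ∧ c.z ⊆ c'.z ∧ c.sides ⊆ c'.sides ∧
    ∀ σ ∈ c.sides, ∀ j ζ, ((σ.1, j), ζ) ∈ c'.z → ((σ.1, j), ζ) ∉ c.z →
      ∃ t, Le c' (σ.2 j t).1 ∧ (σ.2 j t).2 ≤ ζ := by
  cases c
  refine and_congr Iff.rfl (and_congr Iff.rfl (and_congr Iff.rfl ?_))
  exact ⟨fun h => by rintro _ ⟨n, rfl⟩; exact h n, fun h n => h _ ⟨n, rfl⟩⟩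

theorem Le.s {c' c : Raw} (h : Le c' c) : c.s ⊆ c'.s := (le_iff.1 h).1

theorem Le.z {c' c : Raw} (h : Le c' c) : c.z ⊆ c'.z := (le_iff.1 h).2.1

theorem Le.sides {c' c : Raw} (h : Le c' c) : c.sides ⊆ c'.sides := (le_iff.1 h).2.2.1

theorem le_of_old {u c : Raw} (h1 : c.s ⊆ u.s) (h2 : c.z ⊆ u.z) (h3 : c.sides ⊆ u.sides)
    (h : ∀ σ ∈ c.sides, ∀ j ζ, ((σ.1, j), ζ) ∈ u.z → ((σ.1, j), ζ) ∈ c.z) : Le u c :=
  le_iff.2 ⟨h1, h2, h3, fun σ hσ j ζ a b => (b (h σ hσ j ζ a)).elim⟩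

theorem Le.refl (c : Raw) : Le c c :=
  le_of_old subset_rfl subset_rfl subset_rfl fun _ _ _ _ h => h

theorem Le.trans {a b c : Raw} (h : Le a b) (h' : Le b c) : Le a c := by
  induction c using ind with
  | h c ih =>
    refine le_iff.2 ⟨h'.s.trans h.s, h'.z.trans h.z, h'.sides.trans h.sides,
      fun σ hσ j ζ e1 e2 => ?_⟩
    by_cases e : ((σ.1, j), ζ) ∈ b.z
    · obtain ⟨t, t1, t2⟩ := (le_iff.1 h').2.2.2 σ hσ j ζ e e2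
      exact ⟨t, ih σ hσ j t t1, t2⟩
    · exact (le_iff.1 h).2.2.2 σ (h'.sides hσ) j ζ e1 e

/-- countable functions, the first value of the enumeration at `(g, i)` being at most `g` -/
structure Base (c : Raw) : Prop where
  cnt : c.s.Countable
  fn : ∀ x b b', (x, b) ∈ c.s → (x, b') ∈ c.s → b = b'
  bd : ∀ x ∈ c.s, x.2.1 ≤ x.1.1
  zcnt : c.z.Countable
  zfn : ∀ x b b', (x, b) ∈ c.z → (x, b') ∈ c.z → b = b'

/-- all levels lie below `g` -/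
structure Bdd (g : K) (c : Raw) : Prop where
  s : ∀ x ∈ c.s, x.1.1 < g
  z : ∀ x ∈ c.z, x.1.1 < g
  sides : ∀ σ ∈ c.sides, σ.1 < g

theorem Bdd.mono {g g' : K} {c : Raw} (h : Bdd g c) (e : g ≤ g') : Bdd g' c :=
  ⟨fun x hx => (h.s x hx).trans_le e, fun x hx => (h.z x hx).trans_le e,
    fun x hx => (h.sides x hx).trans_le e⟩

/-- the valid conditions below a level -/
def V : K → Raw → Prop := (wellFounded_lt (α := K)).fix fun g ih c => Base c ∧ Bdd g c ∧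
  ∀ σ ∈ c.sides, ∀ h : σ.1 < g, (∀ j t, ih σ.1 h (σ.2 j t).1) ∧
    ∀ j q, ih σ.1 h q → ∃ q' t, ih σ.1 h q' ∧ Le q' q ∧ Le q' (σ.2 j t).1

/-- the name is total -/
def Tot (σ : Side) : Prop := (∀ j t, V σ.1 (σ.2 j t).1) ∧
  ∀ j q, V σ.1 q → ∃ q' t, V σ.1 q' ∧ Le q' q ∧ Le q' (σ.2 j t).1

/-- valid conditions -/
def Val (c : Raw) : Prop := Base c ∧ ∀ σ ∈ c.sides, Tot σ

theorem V_iff {g : K} {c : Raw} : V g c ↔ Val c ∧ Bdd g c := by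
  have : V g c ↔ Base c ∧ Bdd g c ∧ ∀ σ ∈ c.sides, σ.1 < g → Tot σ := by
    rw [V, WellFounded.fix_eq]
    rfl
  rw [this]
  exact ⟨fun h => ⟨⟨h.1, fun σ hσ => h.2.2 σ hσ (h.2.1.sides σ hσ)⟩, h.2.1⟩,
    fun h => ⟨h.1.1, h.2, fun σ hσ _ => h.1.2 σ hσ⟩⟩

theorem V.mono {g g' : K} {c : Raw} (h : V g c) (e : g ≤ g') : V g' c :=
  V_iff.2 ⟨(V_iff.1 h).1, (V_iff.1 h).2.mono e⟩

theorem Base.exists_lv {c : Raw} (h : Base c) : ∃ L : Set K, L.Countable ∧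
    (∀ x ∈ c.s, x.1.1 ∈ L) ∧ (∀ x ∈ c.z, x.1.1 ∈ L) ∧ ∀ σ ∈ c.sides, σ.1 ∈ L :=
  ⟨_, ((h.cnt.image fun x => x.1.1).union (h.zcnt.image fun x => x.1.1)).union
    (c.sides_cnt.image Prod.fst), fun x hx => Or.inl (Or.inl ⟨x, hx, rfl⟩),
    fun x hx => Or.inl (Or.inr ⟨x, hx, rfl⟩), fun x hx => Or.inr ⟨x, hx, rfl⟩⟩

theorem Base.exists_bdd {c : Raw} (h : Base c) : ∃ g, Bdd g c := by
  obtain ⟨L, hL, h1, h2, h3⟩ := h.exists_lv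
  obtain ⟨g, hg⟩ := exists_boundK hL
  exact ⟨g, fun x hx => hg _ (h1 x hx), fun x hx => hg _ (h2 x hx), fun x hx => hg _ (h3 x hx)⟩

/-- conditions that agree below `g` extend the same valid conditions below `g` -/
theorem le_of_agree {g : K} {q u : Raw} (hs : ∀ x ∈ q.s, x.1.1 < g → x ∈ u.s)
    (hz : ∀ x ∈ q.z, x.1.1 < g → x ∈ u.z) (hS : ∀ σ ∈ q.sides, σ.1 < g → σ ∈ u.sides)
    (hz' : ∀ x ∈ u.z, x.1.1 < g → x ∈ q.z) {d : Raw} (hd : V g d) (h : Le q d) : Le u d := by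
  induction d using ind with
  | h d ih =>
    obtain ⟨hv, hb⟩ := V_iff.1 hd
    refine le_iff.2 ⟨fun x hx => hs x (h.s hx) (hb.s x hx), fun x hx => hz x (h.z hx) (hb.z x hx),
      fun x hx => hS x (h.sides hx) (hb.sides x hx), fun σ hσ j ζ e1 e2 => ?_⟩
    obtain ⟨t, t1, t2⟩ := (le_iff.1 h).2.2.2 σ hσ j ζ (hz' _ e1 (hb.sides σ hσ)) e2
    exact ⟨t, ih σ hσ j t (((hv.2 σ hσ).1 j t).mono (hb.sides σ hσ).le) t1, t2⟩

theorem exists_res {c : Raw} (hc : Val c) (g : K) : ∃ r, V g r ∧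
    (∀ x, x ∈ r.s ↔ x ∈ c.s ∧ x.1.1 < g) ∧ (∀ x, x ∈ r.z ↔ x ∈ c.z ∧ x.1.1 < g) ∧
    (∀ σ, σ ∈ r.sides ↔ σ ∈ c.sides ∧ σ.1 < g) ∧ ∀ d, V g d → Le c d → Le r d := by
  obtain ⟨r, h1, h2, h3⟩ := exists_mk {x | x ∈ c.s ∧ x.1.1 < g} {x | x ∈ c.z ∧ x.1.1 < g}
    (S := {σ | σ ∈ c.sides ∧ σ.1 < g}) (c.sides_cnt.mono fun _ h => h.1)
  have a1 : ∀ x, x ∈ r.s ↔ x ∈ c.s ∧ x.1.1 < g := fun x => by rw [h1]; rfl
  have a2 : ∀ x, x ∈ r.z ↔ x ∈ c.z ∧ x.1.1 < g := fun x => by rw [h2]; rfl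
  have a3 : ∀ σ, σ ∈ r.sides ↔ σ ∈ c.sides ∧ σ.1 < g := fun x => by rw [h3]; rfl
  refine ⟨r, V_iff.2 ⟨⟨⟨hc.1.cnt.mono fun x h => ((a1 x).1 h).1,
    fun x b b' h h' => hc.1.fn x b b' ((a1 _).1 h).1 ((a1 _).1 h').1,
    fun x h => hc.1.bd x ((a1 x).1 h).1, hc.1.zcnt.mono fun x h => ((a2 x).1 h).1,
    fun x b b' h h' => hc.1.zfn x b b' ((a2 _).1 h).1 ((a2 _).1 h').1⟩,
    fun σ h => hc.2 σ ((a3 σ).1 h).1⟩, fun x h => ((a1 x).1 h).2, fun x h => ((a2 x).1 h).2,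
    fun x h => ((a3 x).1 h).2⟩, a1, a2, a3, fun d hd h => ?_⟩
  exact le_of_agree (fun x h e => (a1 x).2 ⟨h, e⟩) (fun x h e => (a2 x).2 ⟨h, e⟩)
    (fun x h e => (a3 x).2 ⟨h, e⟩) (fun x h _ => ((a2 x).1 h).1) hd h

theorem exists_union {S : Set Raw} (hS : S.Countable) (hv : ∀ p ∈ S, Val p)
    (h1 : ∀ p ∈ S, ∀ q ∈ S, ∀ x b b', (x, b) ∈ p.s → (x, b') ∈ q.s → b = b')
    (h2 : ∀ p ∈ S, ∀ q ∈ S, ∀ x b b', (x, b) ∈ p.z → (x, b') ∈ q.z → b = b') :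
    ∃ u, Val u ∧ (∀ x, x ∈ u.s ↔ ∃ p ∈ S, x ∈ p.s) ∧ (∀ x, x ∈ u.z ↔ ∃ p ∈ S, x ∈ p.z) ∧
      ∀ x, x ∈ u.sides ↔ ∃ p ∈ S, x ∈ p.sides := by
  obtain ⟨u, e1, e2, e3⟩ := exists_mk (⋃ p ∈ S, p.s) (⋃ p ∈ S, p.z)
    (hS.biUnion fun p _ => p.sides_cnt)
  have a1 : ∀ x, x ∈ u.s ↔ ∃ p ∈ S, x ∈ p.s := fun x => by simp [e1]
  have a2 : ∀ x, x ∈ u.z ↔ ∃ p ∈ S, x ∈ p.z := fun x => by simp [e2]
  have a3 : ∀ x, x ∈ u.sides ↔ ∃ p ∈ S, x ∈ p.sides := fun x => by simp [e3]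
  refine ⟨u, ⟨⟨e1 ▸ hS.biUnion fun p hp => (hv p hp).1.cnt, fun x b b' h h' => ?_, fun x h => ?_,
    e2 ▸ hS.biUnion fun p hp => (hv p hp).1.zcnt, fun x b b' h h' => ?_⟩, fun σ h => ?_⟩,
    a1, a2, a3⟩
  · obtain ⟨p, hp, h⟩ := (a1 _).1 h
    obtain ⟨q, hq, h'⟩ := (a1 _).1 h'
    exact h1 p hp q hq x b b' h h'
  · obtain ⟨p, hp, h⟩ := (a1 _).1 h
    exact (hv p hp).1.bd x h
  · obtain ⟨p, hp, h⟩ := (a2 _).1 h
    obtain ⟨q, hq, h'⟩ := (a2 _).1 h'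
    exact h2 p hp q hq x b b' h h'
  · obtain ⟨p, hp, h⟩ := (a3 _).1 h
    exact (hv p hp).2 σ h

theorem exists_union2 {p q : Raw} (hp : Val p) (hq : Val q)
    (h1 : ∀ x b b', (x, b) ∈ p.s → (x, b') ∈ q.s → b = b')
    (h2 : ∀ x b b', (x, b) ∈ p.z → (x, b') ∈ q.z → b = b') :
    ∃ u, Val u ∧ (∀ x, x ∈ u.s ↔ x ∈ p.s ∨ x ∈ q.s) ∧ (∀ x, x ∈ u.z ↔ x ∈ p.z ∨ x ∈ q.z) ∧
      ∀ x, x ∈ u.sides ↔ x ∈ p.sides ∨ x ∈ q.sides := by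
  obtain ⟨u, a0, a1, a2, a3⟩ := exists_union (S := {p, q}) (toFinite _).countable
    (by rintro _ (rfl | rfl); exacts [hp, hq]) (by
      rintro _ (rfl | rfl) _ (rfl | rfl)
      exacts [hp.1.fn, h1, fun x b b' a a' => (h1 x b' b a' a).symm, hq.1.fn]) (by
      rintro _ (rfl | rfl) _ (rfl | rfl)
      exacts [hp.1.zfn, h2, fun x b b' a a' => (h2 x b' b a' a).symm, hq.1.zfn])
  exact ⟨u, a0, fun x => by simp [a1], fun x => by simp [a2], fun x => by simp [a3]⟩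

theorem exists_lower {S : Set Raw} (hS : S.Countable) (hv : ∀ p ∈ S, Val p)
    (h : ∀ p ∈ S, ∀ q ∈ S, ∃ r ∈ S, Le r p ∧ Le r q) :
    ∃ u, Val u ∧ (∀ p ∈ S, Le u p) ∧ ∀ g, (∀ p ∈ S, Bdd g p) → Bdd g u := by
  obtain ⟨u, a0, a1, a2, a3⟩ := exists_union hS hv
    (fun p hp q hq x b b' e e' => let ⟨r, hr, r1, r2⟩ := h p hp q hq
      (hv r hr).1.fn x b b' (r1.s e) (r2.s e'))
    fun p hp q hq x b b' e e' => let ⟨r, hr, r1, r2⟩ := h p hp q hq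
      (hv r hr).1.zfn x b b' (r1.z e) (r2.z e')
  have key : ∀ d, ∀ r ∈ S, Le r d → Le u d := by
    intro d
    induction d using ind with
    | h d ih =>
      intro r hr e
      refine le_iff.2 ⟨fun x hx => (a1 x).2 ⟨r, hr, e.s hx⟩, fun x hx => (a2 x).2 ⟨r, hr, e.z hx⟩,
        fun x hx => (a3 x).2 ⟨r, hr, e.sides hx⟩, fun σ hσ j ζ e1 e2 => ?_⟩
      obtain ⟨q, hq, e3⟩ := (a2 _).1 e1
      obtain ⟨r', hr', r1, r2⟩ := h r hr q hq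
      obtain ⟨t, t1, t2⟩ := (le_iff.1 (r1.trans e)).2.2.2 σ hσ j ζ (r2.z e3) e2
      exact ⟨t, ih σ hσ j t r' hr' t1, t2⟩
  refine ⟨u, a0, fun p hp => key p p hp (Le.refl p), fun g hg => ⟨fun x hx => ?_, fun x hx => ?_,
    fun x hx => ?_⟩⟩
  · obtain ⟨p, hp, e⟩ := (a1 x).1 hx
    exact (hg p hp).s x e
  · obtain ⟨p, hp, e⟩ := (a2 x).1 hx
    exact (hg p hp).z x e
  · obtain ⟨p, hp, e⟩ := (a3 x).1 hx
    exact (hg p hp).sides x e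

theorem exists_lower_seq (f : ℕ → Raw) (hv : ∀ n, Val (f n)) (hf : ∀ n, Le (f (n + 1)) (f n)) :
    ∃ u, Val u ∧ (∀ n, Le u (f n)) ∧ ∀ g, (∀ n, Bdd g (f n)) → Bdd g u := by
  have h1 : ∀ m n, m ≤ n → Le (f n) (f m) := fun m n h => by
    induction h with
    | refl => exact Le.refl _
    | step _ ih => exact (hf _).trans ih
  obtain ⟨u, a, b, c⟩ := exists_lower (countable_range f) (by rintro _ ⟨n, rfl⟩; exact hv n) (by
    rintro _ ⟨i, rfl⟩ _ ⟨j, rfl⟩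
    exact ⟨_, ⟨max i j, rfl⟩, h1 _ _ (le_max_left i j), h1 _ _ (le_max_right i j)⟩)
  exact ⟨u, a, fun n => b _ ⟨n, rfl⟩, fun g hg => c g (by rintro _ ⟨n, rfl⟩; exact hg n)⟩

end Raw

theorem exists_forall_gen {P : Type*} [Preorder P]
    (hσ : ∀ p : ℕ → P, (∀ n, p (n + 1) ≤ p n) → ∃ q, ∀ i, q ≤ p i) {ι : Type*} {I : Set ι}
    (hI : I.Countable) (p : P) (R : ι → P → Prop)
    (hR : ∀ n q r, r ≤ q → R n q → R n r) (h : ∀ n ∈ I, ∀ q ≤ p, ∃ r ≤ q, R n r) :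
    ∃ q ≤ p, ∀ n ∈ I, R n q := by
  rcases I.eq_empty_or_nonempty with rfl | hne
  · exact ⟨p, le_rfl, fun _ h => h.elim⟩
  obtain ⟨f, rfl⟩ := hI.exists_eq_range hne
  obtain ⟨q, hq, h1⟩ := exists_le_forall hσ p (fun n => R (f n)) (fun n => hR (f n))
    fun n => h (f n) ⟨n, rfl⟩
  exact ⟨q, hq, by rintro _ ⟨n, rfl⟩; exact h1 n⟩

namespace Raw

/-- the valid conditions below a level, as a type -/
structure PB (g : K) : Type 1 where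
  /-- the condition -/
  r : Raw
  val : V g r

instance (g : K) : Preorder (PB g) where
  le p q := Le p.r q.r
  le_refl p := Le.refl p.r
  le_trans _ _ _ := Le.trans

theorem exists_dec {c : Raw} (hc : Val c) (g : K) (j : W) :
    ∃ u, Val u ∧ Le u c ∧ ∃ ζ, ((g, j), ζ) ∈ u.z := by
  by_cases e : ∃ ζ, ((g, j), ζ) ∈ c.z
  · exact ⟨c, hc, Le.refl c, e⟩
  obtain ⟨r, r0, r1, r2, r3, -⟩ := exists_res hc g
  have hI : {σ | σ ∈ c.sides ∧ σ.1 = g}.Countable := c.sides_cnt.mono fun _ h => h.1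
  obtain ⟨⟨q, q0⟩, (hq : Le q r), h1⟩ := exists_forall_gen (P := PB g) (fun f hf => by
      obtain ⟨u, a, b, d⟩ := exists_lower_seq (fun n => (f n).r) (fun n => (V_iff.1 (f n).val).1) hf
      exact ⟨⟨u, V_iff.2 ⟨a, d g fun n => (V_iff.1 (f n).val).2⟩⟩, b⟩) hI ⟨r, r0⟩
    (fun σ q => ∃ t, Le q.r (σ.2 j t).1) (fun σ q q' h ⟨t, ht⟩ => ⟨t, Le.trans h ht⟩)
    fun σ hσ q _ => by
      obtain ⟨hσ, rfl⟩ := hσ
      obtain ⟨q', t, a, b, d⟩ := (hc.2 σ hσ).2 j q.r q.val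
      exact ⟨⟨q', a⟩, b, t, d⟩
  have : Nonempty Th := ⟨Classical.choice (by
    rw [← Cardinal.mk_ne_zero_iff, Cardinal.mk_ord_toType]; exact Cardinal.continuum_ne_zero)⟩
  choose! t ht using h1
  obtain ⟨ζ, hζ⟩ := exists_bound (hI.image fun σ => (σ.2 j (t σ)).2)
  obtain ⟨qv, qb⟩ := V_iff.1 q0
  obtain ⟨u1, a0, a1, a2, a3⟩ := exists_union2 qv hc
    (fun x b b' h h' => qv.1.fn x b b' h (hq.s ((r1 _).2 ⟨h', qb.s (x, b) h⟩)))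
    fun x b b' h h' => qv.1.zfn x b b' h (hq.z ((r2 _).2 ⟨h', qb.z (x, b) h⟩))
  obtain ⟨u, b1, b2, b3⟩ := exists_mk u1.s (insert ((g, j), ζ) u1.z) u1.sides_cnt
  have n1 : ∀ b, ((g, j), b) ∉ u1.z := fun b h =>
    ((a2 _).1 h).elim (fun h => lt_irrefl _ (qb.z _ h)) fun h => e ⟨b, h⟩
  have key : ∀ d, V g d → Le q d → Le u d := fun d hd h =>
    le_of_agree (fun x h _ => b1 ▸ (a1 x).2 (Or.inl h))
      (fun x h _ => b2 ▸ Or.inr ((a2 x).2 (Or.inl h))) (fun x h _ => b3 ▸ (a3 x).2 (Or.inl h))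
      (fun x h l => by
        rw [b2] at h
        rcases h with rfl | h
        · exact (lt_irrefl _ l).elim
        · exact ((a2 x).1 h).elim id fun h => hq.z ((r2 x).2 ⟨h, l⟩)) hd h
  refine ⟨u, ⟨⟨b1 ▸ a0.1.cnt, b1 ▸ a0.1.fn, b1 ▸ a0.1.bd, b2 ▸ a0.1.zcnt.insert _, ?_⟩,
    b3 ▸ a0.2⟩, le_iff.2 ⟨fun x h => b1 ▸ (a1 x).2 (Or.inr h),
      fun x h => b2 ▸ Or.inr ((a2 x).2 (Or.inr h)), fun x h => b3 ▸ (a3 x).2 (Or.inr h),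
      fun σ hσ j' ζ' e1 e2 => ?_⟩, ζ, b2 ▸ Or.inl rfl⟩
  · rw [b2]
    rintro x b b' (⟨⟨⟩⟩ | h1) (⟨⟨⟩⟩ | h2)
    exacts [rfl, absurd h2 (n1 _), absurd h1 (n1 _), a0.1.zfn x b b' h1 h2]
  · rw [b2] at e1
    rcases e1 with e1 | e1
    · obtain ⟨⟨e3, rfl⟩, rfl⟩ : (σ.1 = g ∧ j' = j) ∧ ζ' = ζ := by simpa using e1
      exact ⟨t σ, key _ (e3 ▸ (hc.2 σ hσ).1 _ _) (ht σ ⟨hσ, e3⟩), (hζ _ ⟨σ, ⟨hσ, e3⟩, rfl⟩).le⟩
    · have e3 := ((a2 _).1 e1).resolve_right e2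
      have e4 : σ.1 < g := qb.z _ e3
      obtain ⟨t', t1, t2⟩ := (le_iff.1 hq).2.2.2 σ ((r3 σ).2 ⟨hσ, e4⟩) j' ζ' e3
        fun h => e2 ((r2 _).1 h).1
      exact ⟨t', key _ (((hc.2 σ hσ).1 _ _).mono e4.le) t1, t2⟩

theorem exists_top : ∃ c : Raw, Val c ∧ c.s = ∅ ∧ c.z = ∅ ∧ c.sides = ∅ := by
  obtain ⟨c, h1, h2, h3⟩ := exists_mk ∅ ∅ countable_empty
  exact ⟨c, ⟨⟨h1 ▸ countable_empty, by simp [h1], by simp [h1], h2 ▸ countable_empty,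
    by simp [h2]⟩, by simp [h3]⟩, h1, h2, h3⟩

/-- the two functions below a level -/
def Ty (β : K) (a : Raw) : Set SE × Set ZE :=
  ({x | x ∈ a.s ∧ x.1.1 < β}, {x | x ∈ a.z ∧ x.1.1 < β})

theorem sm_Ty (β : K) : Sm (Ty β '' {a | Val a}) := by
  have w1 : Cardinal.mk (W × ℕ) ≤ Cardinal.continuum := by
    rw [Cardinal.mk_prod, Cardinal.lift_id, Cardinal.lift_id, Cardinal.mk_nat]
    exact (mul_le_mul' mk_W_le Cardinal.aleph0_le_continuum).trans Cardinal.continuum_mul_self.le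
  have w2 : Cardinal.mk (W × W) ≤ Cardinal.continuum := by
    rw [Cardinal.mk_prod, Cardinal.lift_id]
    exact (mul_le_mul' mk_W_le mk_W_le).trans Cardinal.continuum_mul_self.le
  have h1 : Sm (⋃ g ∈ Iic β, ⋃ d ∈ Iic β, range fun y : W × ℕ => (((g, y.1), (d, y.2)) : SE)) :=
    (sm_Iic β).biUnion fun _ _ => (sm_Iic β).biUnion fun _ _ => sm_range w1 _
  have h2 : Sm (⋃ g ∈ Iic β, range fun y : W × W => (((g, y.1), y.2) : ZE)) :=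
    (sm_Iic β).biUnion fun _ _ => sm_range w2 _
  refine (h1.cnt.prod h2.cnt).mono ?_
  rintro _ ⟨a, ha, rfl⟩
  exact ⟨⟨fun x hx => mem_biUnion hx.2.le (mem_biUnion ((ha.1.bd x hx.1).trans hx.2.le)
    ⟨(x.1.2, x.2.2), rfl⟩), ha.1.cnt.mono fun _ h => h.1⟩,
    fun x hx => mem_biUnion hx.2.le ⟨(x.1.2, x.2), rfl⟩, ha.1.zcnt.mono fun _ h => h.1⟩

/-- names of size continuum suffice -/
theorem exists_name (E : W → Raw → W → Prop)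
    (hE : ∀ j q, Val q → ∃ r ζ, Val r ∧ Le r q ∧ E j r ζ) (β0 : K) :
    ∃ σ : Side, β0 ≤ σ.1 ∧ Tot σ ∧ ∀ j t, E j (σ.2 j t).1 (σ.2 j t).2 := by
  obtain ⟨c0, hc0, -⟩ := exists_top
  have h1 : ∀ β j T, ∃ y : Raw × W, Val y.1 ∧ E j y.1 y.2 ∧
      ∀ a ζ, Val a → E j a ζ → Ty β a = T → Ty β y.1 = T := fun β j T => by
    by_cases h : ∃ a ζ, Val a ∧ E j a ζ ∧ Ty β a = T
    · obtain ⟨a, ζ, a1, a2, a3⟩ := h
      exact ⟨(a, ζ), a1, a2, fun _ _ _ _ _ => a3⟩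
    · obtain ⟨a, ζ, a1, -, a2⟩ := hE j c0 hc0
      exact ⟨(a, ζ), a1, a2, fun a ζ b1 b2 b3 => (h ⟨a, ζ, b1, b2, b3⟩).elim⟩
  choose F F1 F2 F3 using h1
  choose bd hbd using fun β j T => (F1 β j T).1.exists_bdd
  have h2 : ∀ β, ∃ β', ∀ j a, Val a → Bdd β' (F β j (Ty β a)).1 := fun β => by
    obtain ⟨β', h⟩ := exists_boundK_small (sm_iUnion fun j => (sm_Ty β).image (bd β j))
    exact ⟨β', fun j a ha => (hbd _ _ _).mono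
      (h _ (mem_iUnion.2 ⟨j, _, ⟨a, ha, rfl⟩, rfl⟩)).le⟩
  choose G hG using h2
  obtain ⟨g, g1, g2⟩ := exists_chain (fun β => β0 ≤ β) (fun β β' => β ≤ β' ∧ G β ≤ β')
    fun H hH _ _ => by
      obtain ⟨β, h⟩ := exists_boundK ((hH.union (hH.image G)).insert β0)
      exact ⟨β, (h _ (Or.inl rfl)).le, fun y hy =>
        ⟨(h _ (Or.inr (Or.inl hy))).le, (h _ (Or.inr (Or.inr ⟨y, hy, rfl⟩))).le⟩⟩
  obtain ⟨γ, γ1, γ2⟩ := (wellFounded_lt (α := K)).has_min {δ | ∀ i, g i ≤ δ} (by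
    obtain ⟨δ, h⟩ := exists_boundK_small (sm_range mk_W_le g)
    exact ⟨δ, fun i => (h _ ⟨i, rfl⟩).le⟩)
  have γ3 : ∀ x, x < γ → ∃ i, x < g i := fun x hx => by
    by_contra h
    push Not at h
    exact γ2 x h hx
  obtain ⟨i0, -⟩ := exists_bound countable_empty
  choose τ hτ using fun j => (sm_iUnion fun i => (sm_Ty (g i)).image (F (g i) j)).exists_enum
    ⟨_, mem_iUnion.2 ⟨i0, _, ⟨c0, hc0, rfl⟩, rfl⟩⟩
  have h3 : ∀ i j a, Val a → V γ (F (g i) j (Ty (g i) a)).1 := fun i j a ha => by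
    obtain ⟨k, hk⟩ := exists_bound (countable_singleton i)
    exact V_iff.2 ⟨F1 _ _ _, (hG _ j a ha).mono ((g2 i k (hk i rfl)).2.trans (γ1 k))⟩
  have h4 : ∀ j t, ∃ i a, Val a ∧ τ j t = F (g i) j (Ty (g i) a) := fun j t => by
    obtain ⟨i, _, ⟨a, ha, rfl⟩, e⟩ := mem_iUnion.1 ((hτ j).subset ⟨t, rfl⟩)
    exact ⟨i, a, ha, e.symm⟩
  refine ⟨(γ, τ), (g1 i0).trans (γ1 i0), ⟨fun j t => ?_, fun j q hq => ?_⟩, fun j t => ?_⟩
  · obtain ⟨i, a, ha, e⟩ := h4 j t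
    show V γ (τ j t).1
    rw [e]
    exact h3 i j a ha
  · obtain ⟨a, ζ, a1, a2, a3⟩ := hE j q (V_iff.1 hq).1
    obtain ⟨L, hL, l1, l2, l3⟩ := a1.1.exists_lv
    choose! ι hι using γ3
    obtain ⟨i, hi⟩ := exists_bound (hL.image ι)
    have hl : ∀ x ∈ L, x < γ → x < g i := fun x hx e =>
      (hι x e).trans_le (g2 _ _ (hi _ ⟨x, hx, rfl⟩)).1
    obtain ⟨t, ht⟩ := (hτ j).superset (mem_iUnion.2 ⟨i, _, ⟨a, a1, rfl⟩, rfl⟩)
    have v1 : V γ (τ j t).1 := ht ▸ h3 i j a a1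
    have v2 : Ty (g i) (τ j t).1 = Ty (g i) a := ht ▸ F3 _ _ _ a ζ a1 a3 rfl
    obtain ⟨v3, v4⟩ := V_iff.1 v1
    have s1 : ∀ x ∈ a.s, x.1.1 < γ → x ∈ (τ j t).1.s := fun x hx e =>
      ((congrArg Prod.fst v2).superset ⟨hx, hl _ (l1 x hx) e⟩).1
    have z1 : ∀ x ∈ a.z, x.1.1 < γ → x ∈ (τ j t).1.z := fun x hx e =>
      ((congrArg Prod.snd v2).superset ⟨hx, hl _ (l2 x hx) e⟩).1
    have z2 : ∀ x ∈ (τ j t).1.z, x.1.1 ∈ L → x ∈ a.z := fun x hx e =>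
      ((congrArg Prod.snd v2).subset ⟨hx, hl _ e (v4.z x hx)⟩).1
    obtain ⟨u, u0, u1, u2, u3⟩ := exists_union2 a1 v3
      (fun x b b' h h' => v3.1.fn x b b' (s1 _ h (v4.s (x, b') h')) h')
      fun x b b' h h' => v3.1.zfn x b b' (z1 _ h (v4.z (x, b') h')) h'
    have e1 : Le u a := le_of_old (fun x h => (u1 x).2 (Or.inl h)) (fun x h => (u2 x).2 (Or.inl h))
      (fun x h => (u3 x).2 (Or.inl h))
      fun σ hσ j' ζ' h => ((u2 _).1 h).elim id fun h => z2 _ h (l3 σ hσ)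
    have e2 : Le u (τ j t).1 := le_of_old (fun x h => (u1 x).2 (Or.inr h))
      (fun x h => (u2 x).2 (Or.inr h)) (fun x h => (u3 x).2 (Or.inr h))
      fun σ hσ j' ζ' h => ((u2 _).1 h).elim (fun h => z1 _ h (v4.sides σ hσ)) id
    obtain ⟨r, r0, -, -, -, r4⟩ := exists_res u0 γ
    exact ⟨r, t, r0, r4 q hq (e1.trans a2), r4 _ v1 e2⟩
  · obtain ⟨i, a, -, e⟩ := h4 j t
    show E j (τ j t).1 (τ j t).2
    rw [e]
    exact F2 _ _ _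

end Raw

end Pool.Agent.P.MP_95b5c3_gt
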