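import Pool.Agent.P.MP_95b5c3_gt.Obj
import Pool.Agent.P.MP_95b5c3_gt.Raw

set_option autoImplicit false

/-! The countably closed part of the forcing. -/

open Set Pool.Agent.Lib.PosetForcing

namespace Pool.Agent.P.MP_95b5c3_gt

/-- valid conditions -/
structure P0 : Type 1 where
  /-- the condition -/
  r : Raw
  val : Raw.Val r

namespace P0

/-- the enumerations -/
def s (p : P0) : Set SE := p.r.s

/-- the bounds -/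
def z (p : P0) : Set ZE := p.r.z

theorem cnt (p : P0) : p.s.Countable := p.val.1.cnt

theorem fn (p : P0) : ∀ x b b', (x, b) ∈ p.s → (x, b') ∈ p.s → b = b' := p.val.1.fn

theorem bd (p : P0) : ∀ x ∈ p.s, x.2.1 ≤ x.1.1 := p.val.1.bd

theorem zfn (p : P0) : ∀ x b b', (x, b) ∈ p.z → (x, b') ∈ p.z → b = b' := p.val.1.zfn

instance : Preorder P0 where
  le p q := Raw.Le p.r q.r
  le_refl p := Raw.Le.refl p.r
  le_trans _ _ _ := Raw.Le.trans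

theorem s_mono {p q : P0} (h : p ≤ q) : q.s ⊆ p.s := Raw.Le.s h

theorem z_mono {p q : P0} (h : p ≤ q) : q.z ⊆ p.z := Raw.Le.z h

noncomputable instance : OrderTop P0 where
  top := ⟨Raw.exists_top.choose, Raw.exists_top.choose_spec.1⟩
  le_top _ := by
    obtain ⟨-, h1, h2, h3⟩ := Raw.exists_top.choose_spec
    exact Raw.le_of_old (h1.subset.trans (empty_subset _)) (h2.subset.trans (empty_subset _))
      (h3.subset.trans (empty_subset _)) fun σ hσ => (h3.subset hσ).elim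

theorem exists_lower {S : Set P0} (hS : S.Countable) (h : ∀ p ∈ S, ∀ q ∈ S, p ≤ q ∨ q ≤ p) :
    ∃ q, ∀ p ∈ S, q ≤ p := by
  obtain ⟨u, a, b, -⟩ := Raw.exists_lower (hS.image P0.r) (by rintro _ ⟨p, -, rfl⟩; exact p.val) (by
    rintro _ ⟨p, hp, rfl⟩ _ ⟨q, hq, rfl⟩
    rcases h p hp q hq with e | e
    exacts [⟨_, ⟨p, hp, rfl⟩, Raw.Le.refl _, e⟩, ⟨_, ⟨q, hq, rfl⟩, e, Raw.Le.refl _⟩])
  exact ⟨⟨u, a⟩, fun p hp => b _ ⟨p, hp, rfl⟩⟩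

theorem exists_forall {ι : Type*} {I : Set ι} (hI : I.Countable) (p : P0) (R : ι → P0 → Prop)
    (hR : ∀ n q r, r ≤ q → R n q → R n r) (h : ∀ n ∈ I, ∀ q ≤ p, ∃ r ≤ q, R n r) :
    ∃ q ≤ p, ∀ n ∈ I, R n q :=
  exists_forall_gen (fun f hf => by
    obtain ⟨u, a, b, -⟩ := Raw.exists_lower_seq (fun n => (f n).r) (fun n => (f n).val) hf
    exact ⟨⟨u, a⟩, b⟩) hI p R hR h

theorem exists_with (p : P0) {s' : Set SE} (h : p.s ⊆ s') (h1 : s'.Countable)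
    (h2 : ∀ x b b', (x, b) ∈ s' → (x, b') ∈ s' → b = b') (h3 : ∀ x ∈ s', x.2.1 ≤ x.1.1) :
    ∃ q ≤ p, q.s = s' := by
  obtain ⟨u, b1, b2, b3⟩ := Raw.exists_mk s' p.r.z p.r.sides_cnt
  exact ⟨⟨u, ⟨b1 ▸ h1, b1 ▸ h2, b1 ▸ h3, b2 ▸ p.val.1.zcnt, b2 ▸ p.val.1.zfn⟩, b3 ▸ p.val.2⟩,
    Raw.le_of_old (h.trans b1.superset) b2.superset b3.superset fun _ _ _ _ e => b2.subset e, b1⟩

theorem exists_insert (p : P0) {g : K} {i : W} (h : ∀ b, ((g, i), b) ∉ p.s) {d : K} (hd : d ≤ g)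
    (n : ℕ) : ∃ q ≤ p, ((g, i), (d, n)) ∈ q.s := by
  obtain ⟨q, h1, h2⟩ := p.exists_with (subset_insert ((g, i), (d, n)) _) (p.cnt.insert _) (by
      rintro x b b' (⟨⟨⟩⟩ | h1) (⟨⟨⟩⟩ | h2)
      exacts [rfl, absurd h2 (h _), absurd h1 (h _), p.fn x b b' h1 h2]) (by
      rintro _ (rfl | h1)
      exacts [hd, p.bd _ h1])
  exact ⟨q, h1, h2.superset (Or.inl rfl)⟩

theorem exists_prep (p : P0) {A : Set K} (hA : A.Countable) {J : Set W} (hJ : J.Countable) :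
    ∃ q ≤ p, (∀ g ∈ A, ∀ d ∈ A, d ≤ g → ∃ i n, ((g, i), (d, n)) ∈ q.s) ∧
      ∀ g ∈ A, ∀ j ∈ J, ∃ d n, ((g, j), (d, n)) ∈ q.s := by
  obtain ⟨q, hq, h1⟩ := exists_forall (hA.prod hA) p
    (fun z q => z.2 ≤ z.1 → ∃ i n, ((z.1, i), (z.2, n)) ∈ q.s)
    (fun z q r hr h e => let ⟨i, n, h⟩ := h e; ⟨i, n, s_mono hr h⟩) fun z _ q _ => by
      by_cases e : z.2 ≤ z.1
      · obtain ⟨i, hi⟩ := exists_not_mem (q.cnt.image fun z => z.1.2)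
        obtain ⟨r, hr, h⟩ := q.exists_insert (g := z.1) (i := i) (fun b hb => hi ⟨_, hb, rfl⟩) e 0
        exact ⟨r, hr, fun _ => ⟨i, 0, h⟩⟩
      · exact ⟨q, le_rfl, fun h => absurd h e⟩
  obtain ⟨r, hr, h2⟩ := exists_forall (hA.prod hJ) q
    (fun z q => ∃ d n, ((z.1, z.2), (d, n)) ∈ q.s)
    (fun z q r hr h => let ⟨i, n, h⟩ := h; ⟨i, n, s_mono hr h⟩) fun z _ q _ => by
      by_cases e : ∃ b, ((z.1, z.2), b) ∈ q.s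
      · obtain ⟨b, hb⟩ := e
        exact ⟨q, le_rfl, b.1, b.2, hb⟩
      · obtain ⟨r, hr, h⟩ := q.exists_insert (fun b hb => e ⟨b, hb⟩) le_rfl 0
        exact ⟨r, hr, _, _, h⟩
  exact ⟨r, hr.trans hq, fun g hg d hd e => let ⟨i, n, h⟩ := h1 (g, d) ⟨hg, hd⟩ e; ⟨i, n, s_mono hr h⟩,
    fun g hg j hj => h2 (g, j) ⟨hg, hj⟩⟩

theorem exists_dec (p : P0) (g : K) (j : W) : ∃ q ≤ p, ∃ ζ, ((g, j), ζ) ∈ q.z :=
  let ⟨u, a, b, c⟩ := Raw.exists_dec p.val g j; ⟨⟨u, a⟩, b, c⟩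

/-- a fresh level dominates a given name of a bound -/
theorem exists_side (p : P0) (G : W → P0 → W → Prop)
    (hG : ∀ j, ∀ c ≤ p, ∃ c' ≤ c, ∃ ζ, G j c' ζ) : ∃ c0 ≤ p, ∃ γ, ∀ j, ∀ q ≤ c0, ∀ ζ',
      ((γ, j), ζ') ∈ q.z → ∃ c ζ, q ≤ c ∧ G j c ζ ∧ ζ ≤ ζ' := by
  obtain ⟨β, hβ⟩ := p.val.1.exists_bdd
  obtain ⟨σ, h1, h2, h3⟩ := Raw.exists_name
    (fun j d ζ => ∀ hd : Raw.Val d, (∃ r : P0, r ≤ ⟨d, hd⟩ ∧ r ≤ p) → G j ⟨d, hd⟩ ζ)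
    (fun j q hq => by
      by_cases e : ∃ r : P0, r ≤ ⟨q, hq⟩ ∧ r ≤ p
      · obtain ⟨r, r1, r2⟩ := e
        obtain ⟨c', c1, ζ, c2⟩ := hG j r r2
        exact ⟨c'.r, ζ, c'.val, c1.trans r1, fun _ _ => c2⟩
      · exact ⟨q, j, hq, Raw.Le.refl q, fun _ h => (e h).elim⟩) β
  obtain ⟨u, b1, b2, b3⟩ := Raw.exists_mk p.r.s p.r.z (p.r.sides_cnt.insert σ)
  have hu : Raw.Val u := ⟨⟨b1 ▸ p.val.1.cnt, b1 ▸ p.val.1.fn, b1 ▸ p.val.1.bd, b2 ▸ p.val.1.zcnt,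
    b2 ▸ p.val.1.zfn⟩, fun σ' h => (b3.subset h).elim (fun e => e ▸ h2) (p.val.2 σ')⟩
  have hl : (⟨u, hu⟩ : P0) ≤ p := Raw.le_of_old b1.superset b2.superset
    ((subset_insert _ _).trans b3.superset) fun _ _ _ _ e => b2.subset e
  refine ⟨⟨u, hu⟩, hl, σ.1, fun j q hq ζ' e => ?_⟩
  obtain ⟨t, t1, t2⟩ := (Raw.le_iff.1 hq).2.2.2 σ (b3.superset (Or.inl rfl)) j ζ' e
    fun h => (hβ.z _ (b2.subset h)).not_ge h1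
  have hd := (Raw.V_iff.1 (h2.1 j t)).1
  exact ⟨⟨_, hd⟩, _, t1, h3 j t hd ⟨q, t1, hq.trans hl⟩, t2⟩

end P0

/-- the activation `a` is allowed by `c` -/
structure ActOk (c : P0) (a : Act) : Prop where
  cl : ∀ g ∈ a.2.1, ∀ i < a.1, ∃ d ∈ a.2.1, ∃ n, ((g, i), (d, n)) ∈ c.s
  inj : ∃ φ : K → ℕ, InjOn φ a.2.1 ∧ ∀ g ∈ a.2.1, ∃ d, ((g, a.1), (d, φ g)) ∈ c.s
  tk : ∀ g ∈ a.2.1, ∃ ζ ≤ a.2.2, ((g, a.1), ζ) ∈ c.z

theorem ActOk.mono {c c' : P0} {a : Act} (h : ActOk c a) (hc : c' ≤ c) : ActOk c' a := by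
  refine ⟨fun g hg i hi => ?_, ?_, fun g hg => ?_⟩
  · obtain ⟨d, h1, n, h2⟩ := h.cl g hg i hi
    exact ⟨d, h1, n, P0.s_mono hc h2⟩
  · obtain ⟨φ, h1, h2⟩ := h.inj
    exact ⟨φ, h1, fun g hg => let ⟨d, h3⟩ := h2 g hg; ⟨d, P0.s_mono hc h3⟩⟩
  · obtain ⟨ζ, h1, h2⟩ := h.tk g hg
    exact ⟨ζ, h1, P0.z_mono hc h2⟩

theorem ActOk.countable {c : P0} {a : Act} (h : ActOk c a) : a.2.1.Countable :=
  let ⟨φ, h1, _⟩ := h.inj; countable_iff_exists_injOn.2 ⟨φ, h1⟩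

theorem ActOk.mem {c : P0} {j ξ i : W} {A : Set K} (h : ActOk c (j, A, ξ)) {g d : K} {n : ℕ}
    (hg : g ∈ A) (hi : i < j) (h1 : ((g, i), (d, n)) ∈ c.s) : d ∈ A := by
  obtain ⟨d', h2, n', h3⟩ := h.cl g hg i hi
  cases c.fn _ _ _ h1 h3
  exact h2

theorem exists_actOk (c : P0) {A0 : Set K} (hA : A0.Countable) {E : Set W} (hE : E.Countable) :
    ∃ c' ≤ c, ∃ j ∉ E, ∃ A ⊇ A0, ∃ ξ, ActOk c' (j, A, ξ) := by
  obtain ⟨j, hj⟩ := exists_not_mem (hE.union (c.cnt.image fun z => z.1.2))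
  let A : Set K := A0 ∪ (fun z => z.2.1) '' c.s
  have hA' : A.Countable := hA.union (c.cnt.image _)
  obtain ⟨φ, hφ⟩ := countable_iff_exists_injOn.1 hA'
  obtain ⟨c1, e1, e2⟩ := c.exists_with (s' := c.s ∪ (fun z : K × W => (z, (z.1, φ z.1))) ''
      {z | z ∈ A ×ˢ Iic j ∧ ∀ b, (z, b) ∉ c.s}) subset_union_left
    (c.cnt.union (((hA'.prod (countable_Iic j)).mono fun _ h => h.1).image _)) (by
      rintro x b b' (h1 | ⟨z, h1, ⟨⟩⟩) (h2 | ⟨z', h2, ⟨⟩⟩)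
      exacts [c.fn x b b' h1 h2, absurd h1 (h2.2 _), absurd h2 (h1.2 _), rfl]) (by
      rintro _ (h1 | ⟨z, h1, rfl⟩)
      exacts [c.bd _ h1, le_rfl])
  obtain ⟨c2, h0, h2⟩ := P0.exists_forall hA' c1 (fun g q => ∃ ζ, ((g, j), ζ) ∈ q.z)
    (fun g q r hr ⟨ζ, h⟩ => ⟨ζ, P0.z_mono hr h⟩) fun g _ q _ => q.exists_dec g j
  have h1 := e2.superset.trans (P0.s_mono h0)
  choose! ζ hζ using h2
  obtain ⟨ξ, hξ⟩ := exists_bound (hA'.image ζ)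
  refine ⟨c2, h0.trans e1, j, fun h => hj (Or.inl h), A, subset_union_left, ξ,
    fun g hg i hi => ?_, ⟨φ, hφ, fun g hg => ⟨g, h1 (Or.inr ⟨(g, j), ⟨⟨hg, mem_Iic.2 le_rfl⟩,
      fun b hb => hj (Or.inr ⟨_, hb, rfl⟩)⟩, rfl⟩)⟩⟩,
    fun g hg => ⟨ζ g, (hξ _ ⟨g, hg, rfl⟩).le, hζ g hg⟩⟩
  by_cases h : ∃ b, ((g, i), b) ∈ c.s
  · obtain ⟨b, hb⟩ := h
    exact ⟨b.1, Or.inr ⟨_, hb, rfl⟩, b.2, h1 (Or.inl hb)⟩
  · exact ⟨g, hg, φ g, h1 (Or.inr ⟨(g, i), ⟨⟨hg, le_of_lt hi⟩, fun b hb => h ⟨b, hb⟩⟩, rfl⟩)⟩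

end Pool.Agent.P.MP_95b5c3_gt
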