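import Pool.Agent.P.MP_95b5c3_gt.Amal
import Pool.Agent.P.MP_95b5c3_gt.P0

set_option autoImplicit false

/-! The forcing, twins in sequences of length `ω₁`, the master lemma. -/

open Set Pool.Agent.Lib.PosetForcing

namespace Pool.Agent.P.MP_95b5c3_gt

open Obj Atom Pt

/-- conditions -/
structure PP : Type 1 where
  /-- the countable part -/
  c : P0
  /-- atoms -/
  s : Set At
  /-- activations -/
  t : Set Act
  fs : s.Finite
  ft : t.Finite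
  ok : Ok s t
  act : ∀ a ∈ t, ActOk c a

instance : Preorder PP where
  le p q := p.c ≤ q.c ∧ q.s ⊆ p.s ∧ q.t ⊆ p.t
  le_refl _ := ⟨le_rfl, subset_rfl, subset_rfl⟩
  le_trans _ _ _ h h' := ⟨h.1.trans h'.1, h'.2.1.trans h.2.1, h'.2.2.trans h.2.2⟩

noncomputable instance : OrderTop PP where
  top := ⟨⊤, ∅, ∅, finite_empty, finite_empty,
    ⟨fun _ h => h.elim, fun _ _ h => by cases h <;> contradiction⟩, fun _ h => h.elim⟩
  le_top _ := ⟨le_top, empty_subset _, empty_subset _⟩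

/-- strengthening the countable part -/
def PP.wc (p : PP) (c : P0) (h : c ≤ p.c) : PP :=
  ⟨c, p.s, p.t, p.fs, p.ft, p.ok, fun a ha => (p.act a ha).mono h⟩

theorem PP.wc_le (p : PP) (c : P0) (h : c ≤ p.c) : p.wc c h ≤ p := ⟨h, subset_rfl, subset_rfl⟩

/-- adding atoms -/
def PP.add (p : PP) (n : Set At) (hn : n.Finite) (h : Ok (p.s ∪ n) p.t) : PP :=
  ⟨p.c, p.s ∪ n, p.t, p.fs.union hn, p.ft, h, p.act⟩

theorem PP.add_le (p : PP) (n : Set At) (hn : n.Finite) (h : Ok (p.s ∪ n) p.t) :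
    p.add n hn h ≤ p := ⟨le_rfl, subset_union_left, subset_rfl⟩

/-- the union of the finite parts of two conditions, over the countable part of a common
extension -/
def PP.join {p q r : PP} (h : r ≤ p) (h' : r ≤ q) : PP :=
  ⟨r.c, p.s ∪ q.s, p.t ∪ q.t, p.fs.union q.fs, p.ft.union q.ft,
    r.ok.anti (union_subset h.2.1 h'.2.1) (union_subset h.2.2 h'.2.2),
    fun a ha => r.act a (union_subset h.2.2 h'.2.2 ha)⟩

theorem PP.join_le {p q r : PP} (h : r ≤ p) (h' : r ≤ q) : PP.join h h' ≤ p :=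
  ⟨h.1, subset_union_left, subset_union_left⟩

theorem PP.join_le' {p q r : PP} (h : r ≤ p) (h' : r ≤ q) : PP.join h h' ≤ q :=
  ⟨h'.1, subset_union_right, subset_union_right⟩

theorem PP.le_join {p q r : PP} (h : r ≤ p) (h' : r ≤ q) : r ≤ PP.join h h' :=
  ⟨le_rfl, union_subset h.2.1 h'.2.1, union_subset h.2.2 h'.2.2⟩

/-- levels of a condition -/
def PP.lv (p : PP) : Set K := ⋃ a ∈ p.s, a.lv

/-- countable ordinals of a condition -/
def PP.wv (p : PP) : Set W := ⋃ O ∈ obs p.s p.t, O.wv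

theorem PP.lv_finite (p : PP) : p.lv.Finite := p.fs.biUnion fun a _ => a.lv_finite

theorem PP.obs_finite (p : PP) : (obs p.s p.t).Finite := MP_95b5c3_gt.obs_finite p.fs p.ft

theorem PP.wv_finite (p : PP) : p.wv.Finite := p.obs_finite.biUnion fun O _ => O.wv_finite

/-- twins with marked objects -/
structure Twin (p q : PP) (L L' : List Ob) (f : K → K) (h : W → W) : Prop where
  map : L.map (Obj.map f h) = L'
  fix : ∀ O ∈ L', O.map f h = O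
  lt : ∀ j ξ, Q j ξ ∈ L → h ξ = ξ ∨ ξ < h ξ
  am : ∀ ex : Set At, ex.Finite → (∀ x ∈ ex,
    (∃ O ∈ L, ∃ O' ∈ L', x = dis O O' ∧ dis (O.map f h) O' ∈ q.s) ∨
      ∃ j ξ, Q j ξ ∈ L ∧ ξ < h ξ ∧ x = le j ξ (h ξ)) → ∃ r, r ≤ p ∧ r ≤ q ∧ ex ⊆ r.s

theorem twins_of_seq (p : W → PP) (L : W → List Ob) (hc : ∀ i k, i < k → (p k).c ≤ (p i).c)
    (a : W → Set K) (b : W → Set W) (ha : ∀ i, (a i).Finite) (hb : ∀ i, (b i).Finite)
    (a1 : ∀ i, (p i).lv ⊆ a i) (a2 : ∀ i, ∀ O ∈ L i, O.lv ⊆ a i)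
    (b1 : ∀ i, (p i).wv ⊆ b i) (b2 : ∀ i, ∀ O ∈ L i, O.wv ⊆ b i)
    (pr1 : ∀ i, ∀ g ∈ a i, ∀ d ∈ a i, d ≤ g → ∃ ι n, ((g, ι), (d, n)) ∈ (p i).c.s)
    (pr2 : ∀ i, ∀ g ∈ a i, ∀ j ∈ b i, ∃ d n, ((g, j), (d, n)) ∈ (p i).c.s) :
    ∃ i k, i < k ∧ ∃ f h, Twin (p i) (p k) (L i) (L k) f h := by
  classical
  obtain ⟨j0, -⟩ := exists_bound countable_empty
  have : Nonempty W := ⟨j0⟩
  obtain ⟨cK, dK, D, I1, -, hI1, D1, D2, D3, D4⟩ := exists_code a ha not_countable_univ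
  obtain ⟨cW, dW, E, I2, h21, hI2, E1, E2, E3, E4⟩ := exists_code b hb hI1
  have hN : ∀ i, ∃ N, (∀ O ∈ obs (p i).s (p i).t, O.len ≤ N) ∧ (∀ O ∈ L i, O.len ≤ N) ∧
      ∀ g ∈ a i, ∀ j ∈ b i, ∃ d, ∃ n ≤ N, ((g, j), (d, n)) ∈ (p i).c.s := fun i => by
    choose! d n hn using pr2 i
    obtain ⟨N, hN⟩ := ((((p i).obs_finite.union (L i).finite_toSet).image Obj.len).union
      (((ha i).prod (hb i)).image fun z => n z.1 z.2)).bddAbove
    exact ⟨N, fun O hO => hN (Or.inl ⟨O, Or.inl hO, rfl⟩), fun O hO => hN (Or.inl ⟨O, Or.inr hO, rfl⟩),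
      fun g hg j hj => ⟨_, _, hN (Or.inr ⟨(g, j), ⟨hg, hj⟩, rfl⟩), hn g hg j hj⟩⟩
  choose N N1 N2 N3 using hN
  obtain ⟨⟨N0, sh1, sh2, sh3⟩, hI3⟩ := exists_fiber (fun i => (N i,
    ((p i).fs.image (Atom.map (cK i) (cW i))).toFinset, (L i).map (Obj.map (cK i) (cW i)),
    ((hb i).image fun ξ => (cW i ξ, rs ξ (N i))).toFinset)) hI2
  simp only [Prod.mk.injEq] at hI3
  set I3 := {i | i ∈ I2 ∧ N i = N0 ∧ ((p i).fs.image (Atom.map (cK i) (cW i))).toFinset = sh1 ∧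
    (L i).map (Obj.map (cK i) (cW i)) = sh2 ∧
    ((hb i).image fun ξ => (cW i ξ, rs ξ (N i))).toFinset = sh3} with hI3'
  have inf : I3.Infinite := fun h => hI3 h.countable
  let e : ℕ ↪ I3 := inf.natEmbedding
  have sK : ∀ g, {k | k ∈ I3 ∧ g ∈ a k ∧ g ∉ D}.Subsingleton := fun g k hk k' hk' => by
    by_contra hne
    exact hk.2.2 (D2 k (h21 hk.1.1) k' (h21 hk'.1.1) hne g hk.2.1 hk'.2.1)
  have sW : ∀ x, {k | k ∈ I3 ∧ x ∈ b k ∧ x ∉ E}.Subsingleton := fun g k hk k' hk' => by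
    by_contra hne
    exact hk.2.2 (E2 k hk.1.1 k' hk'.1.1 hne g hk.2.1 hk'.2.1)
  obtain ⟨β, hβ⟩ := exists_bound (countable_iUnion fun n : ℕ => (((hb (e n)).countable.union
    ((p (e n)).c.cnt.image fun z => z.1.2)).insert (e n).1))
  obtain ⟨k, hk, hk'⟩ := nonempty_of_not_countable (not_countable_diff hI3
    (((countable_Iic β).union (countable_iUnion fun n : ℕ => (p (e n)).ft.countable.biUnion
      fun x hx => ((p (e n)).act x hx).countable.biUnion fun g _ => (sK g).finite.countable)).union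
      ((countable_Iic β).biUnion fun x _ => (sW x).finite.countable)))
  simp only [mem_union, mem_iUnion, not_or, not_exists, mem_Iic, not_le] at hk'
  obtain ⟨⟨k1, k2⟩, k3⟩ := hk'
  have fin : ∀ x ∈ (p k).t, {g | g ∈ x.2.1 ∧ ∃ d, ∃ n ≤ N0, ((g, x.1), (d, n)) ∈ (p k).c.s}.Finite := by
    intro x hx
    obtain ⟨φ, h1, h2⟩ := ((p k).act x hx).inj
    refine Finite.of_finite_image (f := φ) ((finite_Iic N0).subset ?_) (h1.mono fun g hg => hg.1)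
    rintro _ ⟨g, ⟨hg, d, n, hn, h3⟩, rfl⟩
    obtain ⟨d', h4⟩ := h2 g hg
    cases (p k).c.fn _ _ _ h3 h4
    exact hn
  obtain ⟨n, hn⟩ := (((p k).ft.biUnion fun x hx => (fin x hx).biUnion fun g _ =>
    (sK g).finite).preimage (f := fun n => (e n).1)
      (Subtype.val_injective.comp e.injective).injOn).exists_notMem
  simp only [mem_preimage, mem_iUnion, not_exists] at hn
  obtain ⟨i, hi⟩ : ∃ i, i = e n := ⟨_, rfl⟩
  have hi3 : i.1 ∈ I3 := i.2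
  have β1 : ∀ x ∈ b i, x < β := fun x hx => hβ x (mem_iUnion.2 ⟨n, Or.inr (Or.inl (hi ▸ hx))⟩)
  have β2 : ∀ z ∈ (p i).c.s, z.1.2 < β := fun z hz =>
    hβ _ (mem_iUnion.2 ⟨n, Or.inr (Or.inr ⟨z, hi ▸ hz, rfl⟩)⟩)
  have hik : i.1 < k := (hβ i (mem_iUnion.2 ⟨n, Or.inl (by rw [hi])⟩)).trans k1
  have hk3 : ∀ x ∈ b k, x ∉ E → β < x := fun x hx hx' => lt_of_not_ge fun h => k3 x h ⟨hk, hx, hx'⟩
  -- the renaming maps
  have main : ∀ i ∈ I3, ∀ k ∈ I3, i ≠ k → ∃ (f : K → K) (h : W → W), (∀ g ∈ a k, f g = g) ∧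
      (∀ j ∈ b k, h j = j) ∧ (∀ x ∈ (p i).s, x.map f h ∈ (p k).s) ∧
      (L i).map (Obj.map f h) = L k ∧ (∀ η, rs (h η) N0 = rs η N0) ∧
      ∀ ξ ∈ b i, ∀ η ∈ b k, cW i ξ = cW k η → h ξ = η := by
    intro i hi k hk hne
    refine ⟨fun x => if x ∈ a i then dK k (cK i x) else x,
      fun x => if x ∈ b i then dW k (cW i x) else x, fun g hg => ?_, fun g hg => ?_,
      fun x hx => ?_, ?_, fun η => ?_, fun ξ hξ η hη h => ?_⟩
    · by_cases h : g ∈ a i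
      · simp only [h, if_true]
        rw [D4 i k g (D2 i (h21 hi.1) k (h21 hk.1) hne g h hg), D3 k g hg]
      · simp [h]
    · by_cases h : g ∈ b i
      · simp only [h, if_true]
        rw [E4 i k g (E2 i hi.1 k hk.1 hne g h hg), E3 k g hg]
      · simp [h]
    · have h1 := hi.2.2.1.trans hk.2.2.1.symm
      rw [Finite.toFinset_inj] at h1
      obtain ⟨y, hy, h2⟩ := h1.subset ⟨x, hx, rfl⟩
      have h3 : Atom.map (fun x => if x ∈ a i then dK k (cK i x) else x)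
          (fun x => if x ∈ b i then dW k (cW i x) else x) x =
          Atom.map (dK k ∘ cK i) (dW k ∘ cW i) x :=
        Atom.map_congr (fun g hg => if_pos (a1 i (mem_biUnion hx hg)))
          fun O hO j hj => if_pos (b1 i (mem_biUnion (mem_obs hx hO) hj))
      rw [h3, ← Atom.map_map, ← h2, Atom.map_map, Atom.map_fix (f := dK k ∘ cK k) (h := dW k ∘ cW k)
          (fun g hg => D3 k g (a1 k (mem_biUnion hy hg)))
          fun O hO j hj => E3 k j (b1 k (mem_biUnion (mem_obs hy hO) hj))]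
      exact hy
    · have h1 := congrArg (List.map (Obj.map (dK k) (dW k))) (hi.2.2.2.1.trans hk.2.2.2.1.symm)
      simp only [List.map_map] at h1
      refine (List.map_congr_left fun O hO => ?_).trans (h1.trans
        ((List.map_congr_left fun O hO => ?_).trans (List.map_id _)))
      · rw [Function.comp_apply, Obj.map_map]
        exact Obj.map_congr (fun g hg => if_pos (a2 i O hO hg)) fun j hj => if_pos (b2 i O hO hj)
      · rw [Function.comp_apply, Obj.map_map]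
        exact Obj.map_fix (fun g hg => D3 k g (a2 k O hO hg)) fun j hj => E3 k j (b2 k O hO hj)
    · by_cases h : η ∈ b i
      · have h1 := hi.2.2.2.2.trans hk.2.2.2.2.symm
        rw [Finite.toFinset_inj] at h1
        obtain ⟨y, hy, h2⟩ := h1.subset ⟨η, h, rfl⟩
        simp only [Prod.mk.injEq, hi.2.1, hk.2.1] at h2
        simp only [h, if_true]
        rw [← h2.1, E3 k y hy, h2.2]
      · simp [h]
    · simp only [hξ, if_true]
      rw [h, E3 k η hη]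
  obtain ⟨f, h, f2, h2, m1, mL, r1, w1⟩ := main i hi3 k hk hik.ne
  obtain ⟨f', h', f1, h1, m2, -, r2, w2⟩ := main k hk i hi3 hik.ne'
  have code : ∀ ξ ∈ b i, ∃ η ∈ b k, cW i ξ = cW k η := fun ξ hξ => by
    have h1 := hi3.2.2.2.2.trans hk.2.2.2.2.symm
    rw [Finite.toFinset_inj] at h1
    obtain ⟨y, hy, h2⟩ := h1.subset ⟨ξ, hξ, rfl⟩
    exact ⟨y, hy, (congrArg Prod.fst h2).symm⟩
  have fixL : ∀ O ∈ L k, O.map f h = O := fun O hO =>
    Obj.map_fix (fun g hg => f2 g (a2 k O hO hg)) fun j hj => h2 j (b2 k O hO hj)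
  refine ⟨i, k, hik, f, h, mL, fixL, fun j ξ hξ => ?_, fun ex hex hex' => ?_⟩
  · have e1 : ξ ∈ b i := b2 i _ hξ (Or.inr rfl)
    obtain ⟨η, e2, e3⟩ := code ξ e1
    rw [w1 ξ e1 η e2 e3]
    by_cases e4 : η ∈ E
    · exact Or.inl ((h1 η (E1 i hi3.1 e4)).symm.trans (w2 η e2 ξ e1 e3.symm))
    · exact Or.inr ((β1 ξ e1).trans (hk3 η e2 e4))
  have ok : Ok ((p i).s ∪ (p k).s ∪ ex) ((p i).t ∪ (p k).t) := by
    refine amalg (a1 := a i) (a2 := a k) (b1 := b i) (b2 := b k) (N := N0) (p i).ok (p k).ok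
      ⟨fun x hx g hg => a1 i (mem_biUnion hx hg), fun O hO j hj => b1 i (mem_biUnion hO hj),
        hi3.2.1 ▸ N1 i⟩
      ⟨fun x hx g hg => a1 k (mem_biUnion hx hg), fun O hO j hj => b1 k (mem_biUnion hO hj),
        hk.2.1 ▸ N1 k⟩ f2 h2 f1 h1 m1 m2 r1 r2 (fun x hx => ?_) (fun j A ξ x g hg hg' => ?_)
      (fun j A ξ x hj g hg hg' d hd hd' => ?_) fun j A ξ x hj g hg hg' => ?_
    · rcases hex' x hx with ⟨O, hO, O', hO', rfl, e1⟩ | ⟨j, ξ, e1, e2, rfl⟩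
      · refine Or.inl ⟨O, O', rfl, hi3.2.1 ▸ N2 i O hO, hk.2.1 ▸ N2 k O' hO', ?_⟩
        simp only [Atom.map]
        rwa [fixL O' hO']
      · have e3 : ξ ∈ b i := b2 i _ e1 (Or.inr rfl)
        obtain ⟨η, e4, e5⟩ := code ξ e3
        rw [w1 ξ e3 η e4 e5] at e2 ⊢
        exact Or.inr ⟨j, ξ, η, rfl, e2, b2 i _ e1 (Or.inl rfl),
          (w1 ξ e3 η e4 e5).trans (h2 η e4).symm, (h1 ξ e3).trans (w2 η e4 ξ e3 e5.symm).symm⟩
    · by_contra e1
      exact k2 n (j, A, ξ) (hi ▸ x) g hg ⟨hk, hg', fun e2 => e1 (D1 i (h21 hi3.1) e2)⟩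
    · obtain ⟨ι, m, e1⟩ := pr1 i g hg' d hd hd'.le
      exact ((p k).act _ x).mem hg ((β2 _ e1).trans (hk3 j
        (b1 k (mem_biUnion (mem_obs_act x) (Or.inl rfl))) fun e2 => hj (E1 i hi3.1 e2)))
        (P0.s_mono (hc i k hik) e1)
    · by_contra e1
      obtain ⟨d, m, e2, e3⟩ := N3 i g hg' j hj
      exact hn (j, A, ξ) x g ⟨hg, d, m, hi3.2.1 ▸ e2, P0.s_mono (hc i k hik) e3⟩
        ⟨hi ▸ hi3, hi ▸ hg', fun e4 => e1 (D1 k (h21 hk.1) e4)⟩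
  exact ⟨⟨(p k).c, _, _, ((p i).fs.union (p k).fs).union hex, (p i).ft.union (p k).ft, ok,
      fun x hx => hx.elim (fun hx => ((p i).act x hx).mono (hc i k hik)) ((p k).act x)⟩,
    ⟨hc i k hik, subset_union_left.trans subset_union_left, subset_union_left⟩,
    ⟨le_rfl, subset_union_right.trans subset_union_left, subset_union_right⟩, subset_union_right⟩

theorem exists_twins {α : Type*} (c0 : P0) (U : α → Prop) (V : α → α → Prop) (p : α → PP)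
    (L : α → List Ob) (step : ∀ c ≤ c0, ∀ H : Set α, H.Countable → (∀ x ∈ H, U x ∧ c ≤ (p x).c) →
      ∃ x, (p x).c ≤ c ∧ U x ∧ ∀ y ∈ H, V y x) :
    ∃ x y, U x ∧ U y ∧ V x y ∧ ∃ p' ≤ p x, ∃ q' ≤ p y, q'.s = (p y).s ∧
      ∃ f h, Twin p' q' (L x) (L y) f h := by
  let a : α → Set K := fun x => (p x).lv ∪ ⋃ O ∈ L x, O.lv
  let b : α → Set W := fun x => (p x).wv ∪ ⋃ O ∈ L x, O.wv
  have ha : ∀ x, (a x).Finite := fun x =>
    (p x).lv_finite.union ((L x).finite_toSet.biUnion fun O _ => O.lv_finite)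
  have hb : ∀ x, (b x).Finite := fun x =>
    (p x).wv_finite.union ((L x).finite_toSet.biUnion fun O _ => O.wv_finite)
  obtain ⟨g, g1, g2⟩ := exists_chain (α := α × P0) (fun z => U z.1 ∧ z.2 ≤ c0 ∧ z.2 ≤ (p z.1).c ∧
      (∀ g ∈ a z.1, ∀ d ∈ a z.1, d ≤ g → ∃ i n, ((g, i), (d, n)) ∈ z.2.s) ∧
      ∀ g ∈ a z.1, ∀ j ∈ b z.1, ∃ d n, ((g, j), (d, n)) ∈ z.2.s)
    (fun z z' => V z.1 z'.1 ∧ z'.2 ≤ z.2) fun H hH h1 h2 => by
      obtain ⟨c, hc⟩ := P0.exists_lower ((hH.image Prod.snd).insert c0) (by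
        rintro _ (rfl | ⟨z, hz, rfl⟩) _ (rfl | ⟨z', hz', rfl⟩)
        · exact Or.inl le_rfl
        · exact Or.inr (h1 z' hz').2.1
        · exact Or.inl (h1 z hz).2.1
        · rcases h2 z hz z' hz' with rfl | e | e
          exacts [Or.inl le_rfl, Or.inr e.2, Or.inl e.2])
      obtain ⟨x, x1, x2, x3⟩ := step c (hc _ (Or.inl rfl)) _ (hH.image Prod.fst) (by
        rintro _ ⟨z, hz, rfl⟩
        exact ⟨(h1 z hz).1, (hc _ (Or.inr ⟨z, hz, rfl⟩)).trans (h1 z hz).2.2.1⟩)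
      obtain ⟨c', e1, e2⟩ := (p x).c.exists_prep (ha x).countable (hb x).countable
      exact ⟨(x, c'), ⟨x2, e1.trans (x1.trans (hc _ (Or.inl rfl))), e1, e2⟩, fun z hz =>
        ⟨x3 _ ⟨z, hz, rfl⟩, e1.trans (x1.trans (hc _ (Or.inr ⟨z, hz, rfl⟩)))⟩⟩
  obtain ⟨i, k, hik, f, h, T⟩ := twins_of_seq (fun i => (p (g i).1).wc (g i).2 (g1 i).2.2.1)
    (fun i => L (g i).1) (fun i k h => (g2 i k h).2) (fun i => a (g i).1) (fun i => b (g i).1)
    (fun i => ha _) (fun i => hb _) (fun i => subset_union_left)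
    (fun i O hO g hg => Or.inr (mem_iUnion₂.2 ⟨O, hO, hg⟩)) (fun i => subset_union_left)
    (fun i O hO g hg => Or.inr (mem_iUnion₂.2 ⟨O, hO, hg⟩)) (fun i => (g1 i).2.2.2.1)
    fun i => (g1 i).2.2.2.2
  exact ⟨_, _, (g1 i).1, (g1 k).1, (g2 i k hik).1, _, PP.wc_le _ _ _, _,
    PP.wc_le _ (g k).2 _, rfl, f, h, T⟩

/-- the master lemma -/
theorem master (p : PP) (D : PP → Prop) (hD : ∀ q ≤ p, ∃ r ≤ q, D r) (c : P0) :
    ∃ c' ≤ c, ∃ A : Set PP, A.Countable ∧ (∀ a ∈ A, D a) ∧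
      ∀ q ≤ p, q.c ≤ c' → ∃ a ∈ A, ∃ r, r ≤ q ∧ r ≤ a := by
  by_contra hcon
  push Not at hcon
  obtain ⟨x, y, -, -, h1, p', h2, q', h3, -, f, h, T⟩ := exists_twins c D
    (fun a b => ∀ r, r ≤ b → ¬ r ≤ a) id (fun _ => []) fun c' hc' H hH h1 => by
      obtain ⟨q, q1, q2, q3⟩ := hcon c' hc' H hH fun a ha => (h1 a ha).1
      obtain ⟨r, r1, r2⟩ := hD q q1
      exact ⟨r, r1.1.trans q2, r2, fun a ha s hs => q3 a ha s (hs.trans r1)⟩
  obtain ⟨r, r1, r2, -⟩ := T.am ∅ finite_empty fun _ h => h.elim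
  exact h1 r (r2.trans h3) (r1.trans h2)

/-- the master lemma for countably many dense sets -/
theorem master' {ι : Type*} {I : Set ι} (hI : I.Countable) (p : PP) (D : ι → PP → Prop)
    (hD : ∀ i ∈ I, ∀ q ≤ p, ∃ r ≤ q, D i r) (c : P0) :
    ∃ c' ≤ c, ∃ A : Set PP, A.Countable ∧
      ∀ i ∈ I, ∀ q ≤ p, q.c ≤ c' → ∃ a ∈ A, D i a ∧ ∃ r, r ≤ q ∧ r ≤ a := by
  obtain ⟨c', h1, h2⟩ := P0.exists_forall hI c (fun i c' => ∃ A : Set PP, A.Countable ∧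
      (∀ a ∈ A, D i a) ∧ ∀ q ≤ p, q.c ≤ c' → ∃ a ∈ A, ∃ r, r ≤ q ∧ r ≤ a)
    (fun i c1 c2 h ⟨A, a1, a2, a3⟩ => ⟨A, a1, a2, fun q hq e => a3 q hq (e.trans h)⟩)
    fun i hi c' _ => master p (D i) (hD i hi) c'
  choose! A a1 a2 a3 using h2
  exact ⟨c', h1, ⋃ i ∈ I, A i, hI.biUnion a1, fun i hi q hq e =>
    let ⟨a, b1, b2⟩ := a3 i hi q hq e; ⟨a, mem_biUnion hi b1, a2 i hi a b1, b2⟩⟩

end Pool.Agent.P.MP_95b5c3_gt
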