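import Pool.Agent.Lib.PosetForcing.CardDefs

set_option autoImplicit false

/-! The notions of the problem written inside a structure `(M, mem)`; all quantifiers range
over `M`. `X` is the space, `T` its set of open sets and `w` is `ω`. -/

open Pool.Agent.Lib.PosetForcing

namespace Pool.Agent.P.MP_95b5c3_gt

universe v

variable {M : Type v} (mem : M → M → Prop) (w X T : M)

/-- `T` is a topology on `X` -/
def IsTop : Prop :=
  (∀ V, mem V T → IsSub mem V X) ∧ mem X T ∧
  (∀ V V' Z, mem V T → mem V' T → (∀ x, mem x Z ↔ mem x V ∧ mem x V') → mem Z T) ∧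
  ∀ F Z, IsSub mem F T → (∀ x, mem x Z ↔ ∃ V, mem V F ∧ mem x V) → mem Z T

/-- `H` is a closed subset of `X` -/
def IsClosedIn (H : M) : Prop :=
  IsSub mem H X ∧ ∃ V, mem V T ∧ ∀ x, mem x V ↔ mem x X ∧ ¬ mem x H

/-- the space is `T₁` and disjoint closed sets have disjoint open neighbourhoods -/
def IsNormal : Prop :=
  (∀ x y, mem x X → mem y X → x ≠ y → ∃ V, mem V T ∧ mem x V ∧ ¬ mem y V) ∧
  ∀ H L, IsClosedIn mem X T H → IsClosedIn mem X T L → (∀ x, mem x H → ¬ mem x L) →
    ∃ V V', mem V T ∧ mem V' T ∧ IsSub mem H V ∧ IsSub mem L V' ∧ ∀ x, mem x V → ¬ mem x V'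

/-- every point has a countable base of open neighbourhoods -/
def FirstCountable : Prop :=
  ∀ x, mem x X → ∃ B, LeCard mem B w ∧ (∀ b, mem b B → mem b T ∧ mem x b) ∧
    ∀ V, mem V T → mem x V → ∃ b, mem b B ∧ IsSub mem b V

/-- the union of `F` contains `L` -/
def Covers (F L : M) : Prop := ∀ x, mem x L → ∃ V, mem V F ∧ mem x V

/-- `L` is a Lindelof subspace of `X` -/
def IsLindelofIn (L : M) : Prop :=
  IsSub mem L X ∧ ∀ F, IsSub mem F T → Covers mem F L →
    ∃ G, IsSub mem G F ∧ LeCard mem G w ∧ Covers mem G L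

/-- every family of pairwise disjoint nonempty open sets is met, member by member, by one
Lindelof subspace -/
def CellularLindelof : Prop :=
  ∀ F, IsSub mem F T → (∀ V, mem V F → ∃ x, mem x V) →
    (∀ V V' x, mem V F → mem V' F → mem x V → mem x V' → V = V') →
    ∃ L, IsLindelofIn mem w X T L ∧ ∀ V, mem V F → ∃ x, mem x V ∧ mem x L

/-- every open cover has a countable subfamily whose union meets every nonempty open set -/
def WeaklyLindelof : Prop :=
  ∀ F, IsSub mem F T → Covers mem F X →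
    ∃ G, IsSub mem G F ∧ LeCard mem G w ∧
      ∀ V, mem V T → (∃ x, mem x V) → ∃ x, mem x V ∧ ∃ V', mem V' G ∧ mem x V'

end Pool.Agent.P.MP_95b5c3_gt
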