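import Pool.Agent.P.MP_95b5c3_gt.Defs
import Pool.Agent.P.MP_95b5c3_gt.Lit

set_option autoImplicit false
set_option synthInstance.maxSize 4000

/-! The notions of the problem are given by formulas. -/

open Pool.Agent.Lib.PosetForcing

namespace Pool.Agent.P.MP_95b5c3_gt.Lit

universe v

instance ud_isTop (i j : ℕ) : UD.{v} fun _ mem v => IsTop mem (v i) (v j) := by
  unfold IsTop; infer_instance

instance ud_isClosedIn (i j k : ℕ) : UD.{v} fun _ mem v => IsClosedIn mem (v i) (v j) (v k) := by
  unfold IsClosedIn; infer_instance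

instance ud_isNormal (i j : ℕ) : UD.{v} fun _ mem v => IsNormal mem (v i) (v j) := by
  unfold IsNormal; infer_instance

instance ud_firstCountable (i j k : ℕ) :
    UD.{v} fun _ mem v => FirstCountable mem (v i) (v j) (v k) := by
  unfold FirstCountable; infer_instance

instance ud_covers (i j : ℕ) : UD.{v} fun _ mem v => Covers mem (v i) (v j) := by
  unfold Covers; infer_instance

instance ud_isLindelofIn (i j k l : ℕ) :
    UD.{v} fun _ mem v => IsLindelofIn mem (v i) (v j) (v k) (v l) := by
  unfold IsLindelofIn; infer_instance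

instance ud_cellular (i j k : ℕ) :
    UD.{v} fun _ mem v => CellularLindelof mem (v i) (v j) (v k) := by
  unfold CellularLindelof; infer_instance

instance ud_weakly (i j k : ℕ) :
    UD.{v} fun _ mem v => WeaklyLindelof mem (v i) (v j) (v k) := by
  unfold WeaklyLindelof; infer_instance

/-- the implication of the problem -/
def Imp (M : Type v) (mem : M → M → Prop) : Prop :=
  ∀ w X T : M, IsOmega mem w → IsTop mem X T → IsNormal mem X T → FirstCountable mem w X T →
    CellularLindelof mem w X T → WeaklyLindelof mem w X T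

instance ud_impl : UD.{v} fun M mem _ => Imp M mem := by
  unfold Imp; infer_instance

theorem imp_lift (M : Type) (mem : M → M → Prop) :
    Imp (ULift.{v} M) (fun a b => mem a.down b.down) ↔ Imp M mem := by
  simp only [Imp, IsOmega, IsInductive, IsSucc, IsTop, IsSub, IsNormal, IsClosedIn, FirstCountable,
    LeCard, IsInj, IsFun, IsFunOn, App, IsPair, IsUPair, CellularLindelof, IsLindelofIn, Covers,
    WeaklyLindelof, ULift.forall, ULift.exists, ULift.up.injEq, Ne]

theorem literal {N : Type v} {mem' : N → N → Prop} (hN : IsZFC mem') (h : ¬ Imp N mem') :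
    (∃ φ, ∀ (M : Type) (mem : M → M → Prop), IsZFC mem → ∀ v, Sat mem φ v ↔ Imp M mem) ∧
      ∀ φ, (∀ (M : Type) (mem : M → M → Prop), IsZFC mem → ∀ v, Sat mem φ v ↔ Imp M mem) →
        ¬ Prov {χ | ZFC χ} φ ∧ Con (insert (.neg φ) {χ | ZFC χ}) :=
  not_prov imp_lift hN h

end Pool.Agent.P.MP_95b5c3_gt.Lit
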