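import Pool.Agent.P.MP_95b5c3_gt.Normal

set_option autoImplicit false
set_option synthInstance.maxSize 100000

/-! The generic space is cellular-Lindelof and not weakly Lindelof. -/

open Set Pool.Agent.Lib.PosetForcing

namespace Pool.Agent.P.MP_95b5c3_gt

open Obj Atom Pt

instance clopen_covers (a b : Name PP) :
    Clopen fun U : Gen PP => Covers Mod.mem (a.val U) (b.val U) := by
  unfold Covers; infer_instance

instance clopen_isLindelofIn (a b c d : Name PP) :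
    Clopen fun U : Gen PP => IsLindelofIn Mod.mem (a.val U) (b.val U) (c.val U) (d.val U) := by
  unfold IsLindelofIn; infer_instance

/-- name of the open set of a level -/
noncomputable def ZN (g : K) : Name PP := setN fun q x => InZ q.s x g

/-- name of an object -/
noncomputable def ON (O : Ob) : Name PP := setN fun q x => Mem q.s x O

theorem inZ_mono (g : K) (q r : PP) (x : Pt) (h : r ≤ q) (h' : InZ q.s x g) : InZ r.s x g :=
  h'.mono h.2.1

theorem mem_mono (O : Ob) (q r : PP) (x : Pt) (h : r ≤ q) (h' : Mem q.s x O) : Mem r.s x O :=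
  h'.mono h.2.1

theorem ZN_open (g : K) (U : Gen PP) : Mod.mem ((ZN g).val U) (TN.val U) :=
  setN_open (inZ_mono g) (fun q _ h =>
    let ⟨m, hm⟩ := h.exists_nbhd; ⟨q, le_rfl, m, fun _ hs => hm _ hs.2.1⟩) U

theorem ON_open (O : Ob) (U : Gen PP) : Mod.mem ((ON O).val U) (TN.val U) :=
  setN_open (mem_mono O) (fun q _ h =>
    let ⟨m, hm⟩ := h.exists_nbhd; ⟨q, le_rfl, m, fun _ hs => hm _ hs.2.1⟩) U

/-- a member of `F` contains the `n`-th neighbourhood of `x` -/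
def Fine (F : Name PP) (r : PP) (x : Pt) (n : ℕ) : Prop :=
  Forces r fun U => ∃ V, Mod.mem V (F.val U) ∧ IsSub Mod.mem ((NN x n).val U) V

theorem Fine.mono (F : Name PP) (q r : PP) (x : Pt) (n : ℕ) (e : r ≤ q) (h : Fine F q x n) :
    Fine F r x n := Forces.mono h e

theorem exists_fine {F : Name PP} {q : PP} {x : Pt}
    (h : Forces q fun U => IsSub Mod.mem (F.val U) (TN.val U) ∧
      ∃ V, Mod.mem V (F.val U) ∧ Mod.mem ((elt x).val U) V) : ∃ r ≤ q, ∃ n, Fine F r x n := by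
  obtain ⟨V, hV⟩ := Forces.exists_name (Φ := fun U V => Mod.mem V (F.val U) ∧
    Mod.mem ((elt x).val U) V) (h.imp fun U h => h.2)
  obtain ⟨r, hr, n, h1⟩ := open_nbhd (V := V) (x := x)
    ((h.and hV).imp fun U h => ⟨h.1.1 _ h.2.1, h.2.2⟩)
  exact ⟨r, hr, n, (h1.and (hV.mono hr)).imp fun U h => ⟨_, h.2.1, h.1⟩⟩

theorem ZN_lindelof (g : K) (U : Gen PP) :
    IsLindelofIn Mod.mem (omegaName.val U) (XN.val U) (TN.val U) ((ZN g).val U) := by
  refine ⟨setN_sub _ U, fun F h1 h2 => ?_⟩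
  obtain ⟨F, rfl⟩ := F.exists_name
  refine by_forcing (Φ := fun U => IsSub Mod.mem (F.val U) (TN.val U) ∧
    Covers Mod.mem (F.val U) ((ZN g).val U)) (Ψ := fun U => ∃ G, IsSub Mod.mem G (F.val U) ∧
      LeCard Mod.mem G (omegaName.val U) ∧ Covers Mod.mem G ((ZN g).val U))
    (fun p h => ?_) U ⟨h1, h2⟩
  obtain ⟨c, hc, H, hH, h3⟩ := lind p (Fine.mono F) g (fun q hq x hx => exists_fine
    (((h.mono hq).and (forces_setN (R := fun q x => InZ q.s x g) hx)).imp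
      fun U h => ⟨h.1.1, h.1.2 _ h.2⟩)) p.c
  choose V hV using fun z : H × ℕ => max_principle fun U V => Mod.mem V (F.val U) ∧
    IsSub Mod.mem ((NN z.1.1 z.2).val U) V
  have := hH.to_subtype
  have e := mem_sepName (fam V) fun U x => Mod.mem x (F.val U)
  have h4 := forces_countable (p := p.wc c hc) V
    (Forces.of_forall (fun U z hz => ((e U z).1 hz).1) _)
  have h5 : Forces (p.wc c hc) fun U => Covers Mod.mem
      ((sepName (fam V) fun U x => Mod.mem x (F.val U)).val U) ((ZN g).val U) :=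
    forces_forall_setN (inZ_mono g) fun q hq x hx => by
      obtain ⟨r, hr, y, hy, n, a, b⟩ := h3 q (hq.trans (p.wc_le c hc)) hq.1 x hx
      exact ⟨r, hr, (Forces.and a (forces_setN (R := fun q x => MemN q.s x y n) b)).imp fun U h =>
        ⟨_, (e U _).2 ⟨mem_fam V (⟨y, hy⟩, n) U, (hV _ U h.1).1⟩, (hV (⟨y, hy⟩, n) U h.1).2 _ h.2⟩⟩
  exact ⟨_, p.wc_le c hc, (h4.and h5).imp fun U h => ⟨_, fun z hz => ((e U z).1 hz).2, h⟩⟩

theorem cellularLindelof (U : Gen PP) :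
    CellularLindelof Mod.mem (omegaName.val U) (XN.val U) (TN.val U) := by
  intro F h1 h2 h3
  obtain ⟨F, rfl⟩ := F.exists_name
  refine by_forcing (Φ := fun U => IsSub Mod.mem (F.val U) (TN.val U) ∧
    (∀ V, Mod.mem V (F.val U) → ∃ x, Mod.mem x V) ∧ ∀ V V' x, Mod.mem V (F.val U) →
      Mod.mem V' (F.val U) → Mod.mem x V → Mod.mem x V' → V = V')
    (Ψ := fun U => ∃ L, IsLindelofIn Mod.mem (omegaName.val U) (XN.val U) (TN.val U) L ∧
      ∀ V, Mod.mem V (F.val U) → ∃ x, Mod.mem x V ∧ Mod.mem x L) (fun p h => ?_) U ⟨h1, h2, h3⟩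
  obtain ⟨p', hp', γ, hγ⟩ := exists_level p (fun j c ζ => ∀ q ≤ p, q.c ≤ c → ∀ (V : Name PP) η,
      (Forces q fun U => Mod.mem (V.val U) (F.val U) ∧ pt (bot j η) V U) →
      ∃ r ≤ q, ∃ η' < ζ, Forces r (pt (bot j η') V)) fun j c _ => by
    obtain ⟨c', hc, H, hH, h4⟩ := hl p (Fine.mono F) j (S := fun q x => Forces q fun U =>
      ∃ V, Mod.mem V (F.val U) ∧ Mod.mem ((elt x).val U) V) (fun q hq x hx => exists_fine
        (((h.mono hq).and hx).imp fun U h => ⟨h.1.1, h.2⟩)) c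
    obtain ⟨ζ, hζ⟩ := exists_bound hH
    refine ⟨c', hc, ζ, fun q hq e V η hV => ?_⟩
    obtain ⟨r, hr, _, ⟨η', hη, rfl⟩, n, a, b⟩ := h4 q hq e (bot j η)
      ⟨hV.imp fun U h => ⟨_, h⟩, η, rfl⟩
    refine ⟨r, hr, η', hζ _ hη, fun U hU => ?_⟩
    obtain ⟨V', v1, v2⟩ := a U hU
    have v3 := hV.mono hr U hU
    have v4 := (h.mono (hr.trans hq) U hU).2.2 _ _ _ v3.1 v1 v3.2
      (v2 _ (forces_setN (R := fun q x => MemN q.s x (bot j η') n) b U hU))
    exact show Mod.mem _ (V.val U) from v4 ▸ v2 _ (pt_NN _ _ U)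
  have h4 : Forces p' fun U => ∀ V, Mod.mem V (F.val U) →
      ∃ x, Mod.mem x V ∧ Mod.mem x ((ZN γ).val U) := by
    refine forces_forall fun V => forces_imp fun q hq' hV => ?_
    have hq := hq'.trans hp'
    have a := (h.mono hq).and hV
    obtain ⟨x, hx⟩ := Forces.exists_name (Φ := fun U x => Mod.mem x (V.val U))
      (a.imp fun U h => h.1.2.1 _ h.2)
    obtain ⟨q1, e1, y, hy⟩ := exists_pt
      ((a.and hx).imp fun U h => (mem_top.1 (h.1.1.1 _ h.1.2)).1 _ h.2)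
    obtain ⟨q2, e2, n, hn⟩ := open_nbhd (V := V) (x := y) ((((a.and hx).mono e1).and hy).imp
      fun U h => ⟨h.1.1.1.1 _ h.1.1.2, show Mod.mem _ (V.val U) from h.2 ▸ h.1.2⟩)
    obtain ⟨q3, e3, j, η, b⟩ := q2.exists_bot y n
    have e4 := e3.trans (e2.trans e1)
    obtain ⟨q4, e5, c, ζ, c1, c2, c3⟩ := hγ j q3 (e4.trans hq')
    obtain ⟨q5, e6, η', d1, d2⟩ := c2 q4 (e5.trans (e4.trans hq)) c1 V η
      (((hV.mono e4).and (((hn.mono e3).and (forces_setN (R := fun q x => MemN q.s x y n) b)).imp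
        fun U h => h.1 _ h.2)).mono e5)
    obtain ⟨q6, e7, d3⟩ := q5.deepen (x := bot j η') trivial (c3 q5 e6 η' d1)
    exact ⟨q6, e7.trans (e6.trans (e5.trans e4)), ((d2.mono e7).and
      (forces_setN (R := fun q x => InZ q.s x γ) d3)).imp fun U h => ⟨_, h⟩⟩
  exact ⟨p', hp', h4.imp fun U h => ⟨_, ZN_lindelof γ U, h⟩⟩

/-- the members of the cover -/
noncomputable def cover : K ⊕ W → Name PP
  | .inl g => ZN g
  | .inr j => ON (Cyl j 0 [])

theorem not_weaklyLindelof (U : Gen PP) :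
    ¬ WeaklyLindelof Mod.mem (omegaName.val U) (XN.val U) (TN.val U) := by
  intro h
  obtain ⟨G, g1, ⟨f, g2⟩, g3⟩ := h ((fam cover).val U)
    (forall_mem_fam (Φ := fun U b => Mod.mem b (TN.val U)) (by
      rintro (g | j) U
      exacts [ZN_open g U, ON_open _ U]) U)
    (all_pts (Φ := fun U x => ∃ V, Mod.mem V ((fam cover).val U) ∧ Mod.mem x V) (fun x q => by
      cases x with
      | up g v => exact ⟨q, le_rfl, (forces_setN (R := fun q x => InZ q.s x g)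
          (Or.inl ⟨v, rfl⟩)).imp fun U h => ⟨_, mem_fam cover (.inl g) U, h⟩⟩
      | bot j η => exact ⟨q, le_rfl, (forces_setN (R := fun q x => Mem q.s x (Cyl j 0 []))
          (.base (.cyl j η 0))).imp fun U h => ⟨_, mem_fam cover (.inr j) U, h⟩⟩) U)
  obtain ⟨G, rfl⟩ := G.exists_name
  obtain ⟨f, rfl⟩ := f.exists_name
  refine by_forcing (Φ := fun U => IsSub Mod.mem (G.val U) ((fam cover).val U) ∧
    IsInj Mod.mem (f.val U) (G.val U) (omegaName.val U) ∧ ∀ V, Mod.mem V (TN.val U) →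
      (∃ x, Mod.mem x V) → ∃ x, Mod.mem x V ∧ ∃ V', Mod.mem V' (G.val U) ∧ Mod.mem x V')
    (Ψ := fun _ => False) (fun p h => False.elim ?_) U ⟨g1, g2, g3⟩
  let T : ℕ → K ⊕ W → PP → Prop := fun n e r =>
    Forces r fun U => App Mod.mem (f.val U) ((cover e).val U) ((natName n).val U)
  obtain ⟨c, hc, A, hA, h1⟩ := master' (countable_univ (α := ℕ)) p
    (fun n r => (∃ e, T n e r) ∨ ∀ s ≤ r, ∀ e, ¬ T n e s) (fun n _ q _ => by
      by_cases k : ∃ r ≤ q, ∃ e, T n e r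
      · obtain ⟨r, hr, e⟩ := k
        exact ⟨r, hr, Or.inl e⟩
      · exact ⟨q, le_rfl, Or.inr fun r hr e e' => k ⟨r, hr, e, e'⟩⟩) p.c
  have h2 : ∀ z : ℕ × PP, ∃ e, (∃ e, T z.1 e z.2) → T z.1 e z.2 := fun z => by
    by_cases e : ∃ e, T z.1 e z.2
    · exact ⟨e.choose, fun _ => e.choose_spec⟩
    · exact ⟨.inl (Classical.arbitrary K), fun e' => absurd e' e⟩
  choose E hE using h2
  have hE' : (E '' (univ ×ˢ A)).Countable := (countable_univ.prod hA).image _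
  obtain ⟨q, e1, j, hj, A', hA', ξ, ha⟩ := (p.wc c hc).activate
    (hE'.preimage Sum.inl_injective) (hE'.preimage Sum.inr_injective)
  have e2 := e1.trans (p.wc_le c hc)
  obtain ⟨x, hx⟩ := Forces.exists_name (p := q) (Φ := fun U x => Mod.mem x ((ON (Q j ξ)).val U) ∧
      ∃ V', Mod.mem V' (G.val U) ∧ Mod.mem x V') (((h.mono e2).and
    (forces_setN (R := fun q x => Mem q.s x (Q j ξ)) (.base (.q j ξ)))).imp fun U h =>
      h.1.2.2 _ (ON_open _ U) ⟨_, h.2⟩)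
  obtain ⟨V, hV⟩ := Forces.exists_name (Φ := fun U V => Mod.mem V (G.val U) ∧
    Mod.mem (x.val U) V) (hx.imp fun U h => h.2)
  obtain ⟨y, hy⟩ := Forces.exists_name (Φ := fun U y => App Mod.mem (f.val U) (V.val U) y)
    (((h.mono e2).and hV).imp fun U h => h.1.2.1.1.2.1 _ h.2.1)
  obtain ⟨q1, f1, z, hz⟩ := exists_pt (hx.imp fun U h => setN_sub _ U _ h.1)
  obtain ⟨q2, f2, hz'⟩ := exists_of_setN (mem_mono (Q j ξ)) (x := z)
    (((hx.mono f1).and hz).imp fun U h => show Mod.mem _ ((ON (Q j ξ)).val U) from h.2 ▸ h.1.1)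
  obtain ⟨q3, f3, e, he⟩ := Forces.exists_fam
    ((((h.mono e2).and hV).imp fun U h => h.1.1 _ h.2.1).mono (f2.trans f1))
  obtain ⟨q4, f4, ⟨n⟩, hn⟩ := Forces.exists_fam ((((h.mono e2).and hy).imp fun U h =>
    ((isZFC U).app_val h.1.2.1.1 h.2).2).mono (f3.trans (f2.trans f1)))
  have f5 := f4.trans (f3.trans (f2.trans f1))
  have t1 : T n e q4 := ((hy.mono f5).and ((he.mono f4).and hn)).imp fun U h =>
    h.2.1 ▸ h.2.2 ▸ h.1
  obtain ⟨a, a1, a2, r, r1, r2⟩ := h1 n trivial q4 (f5.trans e2) (f5.trans e1).1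
  have t2 : T n (E (n, a)) a := hE (n, a) (a2.resolve_right fun b => b r r2 e (t1.mono r1))
  have t3 : Forces r (pt z (cover (E (n, a)))) := fun U hU => by
    have b1 := (h.mono (r1.trans (f5.trans e2)) U hU).2.1.2 _ _ _ (t1.mono r1 U hU) (t2.mono r2 U hU)
    have b2 := (hV.mono (r1.trans f5) U hU).2
    rw [he.mono (r1.trans f4) U hU, b1, hz.mono (r1.trans (f4.trans (f3.trans f2))) U hU] at b2
    exact b2
  have t4 : E (n, a) ∈ E '' (univ ×ˢ A) := ⟨_, ⟨trivial, a1⟩, rfl⟩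
  have r3 := r1.trans (f4.trans f3)
  obtain ⟨η, rfl, -⟩ := hz'.q q2.ok.wf
  rcases e' : E (n, a) with g | j'
  · rw [e'] at t3 t4
    obtain ⟨s, hs, ⟨_, ⟨⟩⟩ | ⟨v, b⟩⟩ := exists_of_setN (inZ_mono g) t3
    exact s.ok.not_blocked b ⟨j, A', ξ, (hs.trans (r1.trans f5)).2.2 ha, hA' t4,
      hz'.mono (hs.trans r3).2.1⟩
  · rw [e'] at t3 t4
    obtain ⟨s, hs, b⟩ := exists_of_setN (mem_mono (Cyl j' 0 [])) t3
    obtain ⟨_, ⟨⟩, -⟩ := b.cyl
    exact hj t4

end Pool.Agent.P.MP_95b5c3_gt
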