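import Pool.Agent.P.MP_95b5c3_gt.Top

set_option autoImplicit false
set_option synthInstance.maxSize 100000

/-! The generic space is normal. -/

open Set Pool.Agent.Lib.PosetForcing

namespace Pool.Agent.P.MP_95b5c3_gt

open Obj Atom Pt

/-- disjointness -/
def Disj {U : Gen PP} (a b : Mod U) : Prop := ∀ z, Mod.mem z a → ¬ Mod.mem z b

instance clopen_disj (a b : Name PP) : Clopen fun U : Gen PP => Disj (a.val U) (b.val U) := by
  unfold Disj; infer_instance

instance clopen_isClosedIn (a b c : Name PP) :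
    Clopen fun U : Gen PP => IsClosedIn Mod.mem (a.val U) (b.val U) (c.val U) := by
  unfold IsClosedIn; infer_instance

/-- separation by open sets -/
def Sep {U : Gen PP} (H L : Mod U) : Prop :=
  ∃ V V', Mod.mem V (TN.val U) ∧ Mod.mem V' (TN.val U) ∧ IsSub Mod.mem H V ∧ IsSub Mod.mem L V' ∧
    ∀ x, Mod.mem x V → ¬ Mod.mem x V'

instance clopen_sep (a b : Name PP) : Clopen fun U : Gen PP => Sep (a.val U) (b.val U) := by
  unfold Sep; infer_instance

theorem Sep.symm {U : Gen PP} {H L : Mod U} (h : Sep H L) : Sep L H :=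
  let ⟨V, V', h1, h2, h3, h4, h5⟩ := h; ⟨V', V, h2, h1, h4, h3, fun x a b => h5 x b a⟩

/-- trimmed pieces -/
noncomputable def piece (D : ℕ → Name PP) (H L : Name PP) (e i : ℕ) : Name PP :=
  sepName XN fun U x => Mod.mem x ((D i).val U) ∧ Disj ((D i).val U) (L.val U) ∧
    ∀ k < i + e, Disj ((D k).val U) (H.val U) → ¬ Mod.mem x ((D k).val U)

theorem mem_piece (D : ℕ → Name PP) (H L : Name PP) (e i : ℕ) (U : Gen PP) (x : Mod U) :
    Mod.mem x ((piece D H L e i).val U) ↔ Mod.mem x (XN.val U) ∧ Mod.mem x ((D i).val U) ∧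
      Disj ((D i).val U) (L.val U) ∧
      ∀ k < i + e, Disj ((D k).val U) (H.val U) → ¬ Mod.mem x ((D k).val U) :=
  mem_sepName _ _ U x

/-- the union of the pieces -/
noncomputable def pieces (D : ℕ → Name PP) (H L : Name PP) (e : ℕ) : Name PP :=
  unionName (fam fun i : ULift.{1} ℕ => piece D H L e i.down)

theorem sep_of_cover (D : ℕ → Name PP) (h1 : ∀ i U, Mod.mem ((D i).val U) (TN.val U))
    (h2 : ∀ i U, OpenP U fun x => ¬ Mod.mem x ((D i).val U)) {H L : Name PP} {p : PP}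
    (hH : Forces p fun U => IsSub Mod.mem (H.val U) (XN.val U) ∧ IsSub Mod.mem (L.val U) (XN.val U))
    (hc : ∀ x : Pt, ∀ q ≤ p, ∃ r ≤ q, ∃ i, Forces r fun U => pt x (D i) U ∧
      (Disj ((D i).val U) (H.val U) ∨ Disj ((D i).val U) (L.val U))) :
    Forces p fun U => Sep (H.val U) (L.val U) := by
  have op : ∀ H L e U, Mod.mem ((pieces D H L e).val U) (TN.val U) := fun H L e U =>
    (isTop U).2.2.2 _ _ (forall_mem_fam (Φ := fun U b => Mod.mem b (TN.val U)) (fun i U =>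
      ((openP_of_mem (h1 i.down U)).and ((OpenP.const U _).and
        (OpenP.forall_lt (fun k => (h2 k U).imp _) _))).mem_top (mem_piece D H L e i.down U)) U)
      (mem_unionName _ U)
  have sub : ∀ (H L : Name PP) e, (∀ x : Pt, ∀ q ≤ p, ∃ r ≤ q, ∃ i, Forces r fun U => pt x (D i) U ∧
      (Disj ((D i).val U) (H.val U) ∨ Disj ((D i).val U) (L.val U))) → Forces p fun U =>
      ∀ z, Mod.mem z (XN.val U) → Mod.mem z (H.val U) → Mod.mem z ((pieces D H L e).val U) :=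
    fun H L e hc => forces_pts fun x q hq => by
      obtain ⟨r, hr, i, h⟩ := hc x q hq
      refine ⟨r, hr, h.imp fun U h a => (mem_unionName _ U _).2
        ⟨_, mem_fam (fun i : ULift.{1} ℕ => piece D H L e i.down) ⟨i⟩ U, ?_⟩⟩
      exact (mem_piece D H L e i U _).2 ⟨pt_XN x U, h.1, h.2.resolve_left fun b => b _ h.1 a,
        fun k _ b c => b _ c a⟩
  have dj : ∀ U a, Mod.mem a ((fam fun i : ULift.{1} ℕ => piece D H L 0 i.down).val U) →
      ∀ b, Mod.mem b ((fam fun i : ULift.{1} ℕ => piece D L H 1 i.down).val U) → Disj a b := by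
    refine forall_mem_fam fun i => ?_
    refine forall_mem_fam fun k U z a b => ?_
    rw [mem_piece] at a b
    rcases lt_or_ge k.down i.down with e | e
    · exact a.2.2.2 _ e b.2.2.1 b.2.1
    · exact b.2.2.2 _ (Nat.lt_succ_of_le e) a.2.2.1 a.2.1
  refine (hH.and ((sub H L 0 hc).and (sub L H 1 fun x q hq => ?_))).imp fun U h =>
    ⟨_, _, op H L 0 U, op L H 1 U, fun z hz => h.2.1 z (h.1.1 z hz) hz,
      fun z hz => h.2.2 z (h.1.2 z hz) hz, fun z a b => ?_⟩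
  · obtain ⟨r, hr, i, h⟩ := hc x q hq
    exact ⟨r, hr, i, h.imp fun U h => ⟨h.1, h.2.symm⟩⟩
  · obtain ⟨a, a1, a2⟩ := (mem_unionName _ U z).1 a
    obtain ⟨b, b1, b2⟩ := (mem_unionName _ U z).1 b
    exact dj U a a1 b b1 z a2 b2

theorem closed_nbhd {p : PP} {H : Name PP} {x : Pt}
    (h : Forces p fun U => IsClosedIn Mod.mem (XN.val U) (TN.val U) (H.val U) ∧ ¬ pt x H U) :
    ∃ q ≤ p, ∃ n, Forces q fun U => Disj ((NN x n).val U) (H.val U) := by
  obtain ⟨V, hV⟩ := Forces.exists_name (Φ := fun U V => Mod.mem V (TN.val U) ∧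
    ∀ x, Mod.mem x V ↔ Mod.mem x (XN.val U) ∧ ¬ Mod.mem x (H.val U)) (h.imp fun U h => h.1.2)
  obtain ⟨q, hq, n, h1⟩ := open_nbhd (V := V) (x := x)
    ((h.and hV).imp fun U h => ⟨h.2.1, (h.2.2 _).2 ⟨pt_XN x U, h.1.2⟩⟩)
  exact ⟨q, hq, n, (h1.and (hV.mono hq)).imp fun U h z hz => ((h.2.2 z).1 (h.1 z hz)).2⟩

theorem sep_small {p : PP} {H L : Name PP}
    (h : Forces p fun U => (IsClosedIn Mod.mem (XN.val U) (TN.val U) (H.val U) ∧
      IsClosedIn Mod.mem (XN.val U) (TN.val U) (L.val U)) ∧ Disj (H.val U) (L.val U))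
    (F : List Ob) (hF : ∀ r ≤ p, ∀ x, Forces r (pt x H) → ∃ O ∈ F, Mem r.s x O) :
    ∃ q ≤ p, Forces q fun U => Sep (H.val U) (L.val U) := by
  obtain ⟨c, hc, A, hA, h1⟩ := lind_obs p (Dec := fun r x n => Forces r fun U =>
      Disj ((NN x n).val U) (H.val U) ∨ Disj ((NN x n).val U) (L.val U))
    (fun q r x n e h => h.mono e) (fun q hq x => by
      obtain ⟨r, hr, e | e⟩ := exists_decide (pt x H) q
      · obtain ⟨s, hs, n, e'⟩ := closed_nbhd (H := L) (x := x)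
          (((h.mono (hr.trans hq)).and e).imp fun U h => ⟨h.1.1.2, h.1.2 _ h.2⟩)
        exact ⟨s, hs.trans hr, n, e'.imp fun U => Or.inr⟩
      · obtain ⟨s, hs, n, e'⟩ := closed_nbhd (H := H) (x := x)
          (((h.mono (hr.trans hq)).and e).imp fun U h => ⟨h.1.1.1, h.2⟩)
        exact ⟨s, hs.trans hr, n, e'.imp fun U => Or.inl⟩) F p.c
  obtain ⟨e, he⟩ := (((hA.prod (countable_univ (α := ℕ))).image some).insert none).exists_eq_range
    (insert_nonempty _ _)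
  let R : PP → Pt → Prop := fun q x => ∀ O ∈ F, ∀ r ≤ q, ¬ Mem r.s x O
  have hR : ∀ q r x, r ≤ q → R q x → R r x := fun q r x e h O hO s hs => h O hO s (hs.trans e)
  let D : Option (Pt × ℕ) → Name PP := fun z => z.elim (setN R) fun z => NN z.1 z.2
  refine ⟨_, p.wc_le c hc, sep_of_cover (fun i => D (e i)) (fun i U => ?_) (fun i U => ?_)
    ((h.mono (p.wc_le c hc)).imp fun U h => ⟨h.1.1.1, h.1.2.1⟩) fun x q hq => ?_⟩
  · rcases e i with _ | z
    · refine setN_open hR (fun q x hx => ?_) U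
      obtain ⟨r, hr, m, hm⟩ := q.exists_dis F.finite_toSet fun O hO => hx O hO q le_rfl
      exact ⟨r, hr, m, fun s hs z hz O hO s' hs' =>
        PP.not_mem_of_dis ((hs'.trans hs).2.1 (hm O hO)) (hz.1.mono hs'.2.1)⟩
    · exact NN_open _ _ U
  · rcases e i with _ | z
    · refine setN_closed hR (fun q x hx => ?_) U
      simp only [R, not_forall, not_not] at hx
      obtain ⟨O, hO, r, hr, hx⟩ := hx
      obtain ⟨n, hn⟩ := hx.exists_nbhd
      exact ⟨r, hr, n, fun s hs z hz a => a O hO s le_rfl (hn _ hs.2.1 z hz)⟩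
    · exact NN_closed _ _ U
  have hq' := hq.trans (p.wc_le c hc)
  by_cases hx : R q x
  · obtain ⟨i, hi⟩ : none ∈ range e := he ▸ Or.inl rfl
    have h2 : Forces q fun U => ∀ z, Mod.mem z ((setN R).val U) → ¬ Mod.mem z (H.val U) :=
      forces_forall_setN hR fun r hr z hz => ⟨r, le_rfl, forces_not_iff.2 fun s hs a =>
        let ⟨O, hO, b⟩ := hF s (hs.trans (hr.trans hq')) z a; hz O hO s hs b⟩
    refine ⟨q, le_rfl, i, ?_⟩
    rw [hi]
    exact ((forces_setN hx).and h2).imp fun U h => ⟨h.1, Or.inl h.2⟩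
  · simp only [R, not_forall, not_not] at hx
    obtain ⟨O, hO, r, hr, hx⟩ := hx
    obtain ⟨s, hs, y, hy, n, a, b⟩ := h1 r (hr.trans hq') (hr.trans hq).1 x ⟨O, hO, hx⟩
    obtain ⟨i, hi⟩ : some (y, n) ∈ range e := he ▸ Or.inr ⟨(y, n), ⟨hy, trivial⟩, rfl⟩
    refine ⟨s, hs.trans hr, i, ?_⟩
    rw [hi]
    exact (forces_setN (R := fun q x => MemN q.s x y n) b).and a

theorem big_tail {p : PP} {H : Name PP}
    (h : Forces p fun U => IsClosedIn Mod.mem (XN.val U) (TN.val U) (H.val U))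
    (hF : ∀ q ≤ p, ∀ F : List Ob, ∃ r ≤ q, ∃ x, Forces r (pt x H) ∧ ∀ O ∈ F, ¬ Mem r.s x O)
    (c : P0) : ∃ c' ≤ c, ∃ β, ∀ α ≥ β, ∀ q ≤ p, q.c ≤ c' → Forces q (pt (up α []) H) := by
  obtain ⟨c', hc, β, h1⟩ := p2b p (S := fun r x => Forces r (pt x H))
    (fun q r x e h => h.mono e) hF c
  refine ⟨c', hc, β, fun α hα q hq e => ?_⟩
  by_contra hcon
  obtain ⟨r, hr, a⟩ := exists_forces_not hcon
  obtain ⟨s, hs, n, b⟩ := closed_nbhd ((h.mono (hr.trans hq)).and a)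
  obtain ⟨s', hs', x, d1, d2⟩ := h1 α hα [] n s (hs.trans (hr.trans hq))
    ((hs.trans hr).1.trans e)
  have d3 : Forces s' (pt x (NN (up α []) n)) := forces_setN ⟨d2, by rintro _ _ ⟨⟩⟩
  exact Forces.not_false (((b.mono hs').and (d1.and d3)).imp fun U h => h.1 _ h.2.2 h.2.1)

theorem isNormal (U : Gen PP) : IsNormal Mod.mem (XN.val U) (TN.val U) := by
  refine ⟨fun x y hx hy => isT1 U x hx y hy, fun H L h1 h2 h3 => ?_⟩
  obtain ⟨H, rfl⟩ := H.exists_name
  obtain ⟨L, rfl⟩ := L.exists_name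
  refine by_forcing (Φ := fun U => (IsClosedIn Mod.mem (XN.val U) (TN.val U) (H.val U) ∧
      IsClosedIn Mod.mem (XN.val U) (TN.val U) (L.val U)) ∧ Disj (H.val U) (L.val U))
    (Ψ := fun U => Sep (H.val U) (L.val U)) (fun p h => ?_) U ⟨⟨h1, h2⟩, h3⟩
  by_cases a : ∃ q ≤ p, ∃ F : List Ob, ∀ r ≤ q, ∀ x, Forces r (pt x H) → ∃ O ∈ F, Mem r.s x O
  · obtain ⟨q, hq, F, a⟩ := a
    obtain ⟨r, hr, b⟩ := sep_small (h.mono hq) F a
    exact ⟨r, hr.trans hq, b⟩
  by_cases b : ∃ q ≤ p, ∃ F : List Ob, ∀ r ≤ q, ∀ x, Forces r (pt x L) → ∃ O ∈ F, Mem r.s x O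
  · obtain ⟨q, hq, F, b⟩ := b
    obtain ⟨r, hr, b⟩ := sep_small
      ((h.mono hq).imp fun U h => ⟨h.1.symm, fun z c d => h.2 z d c⟩) F b
    exact ⟨r, hr.trans hq, b.imp fun U => Sep.symm⟩
  push Not at a b
  obtain ⟨c, hc, β, a'⟩ := big_tail (h.imp fun U h => h.1.1) a p.c
  obtain ⟨c', hc', β', b'⟩ := big_tail (h.imp fun U h => h.1.2) b c
  have e := p.wc_le c' (hc'.trans hc)
  exact (Forces.not_false (((h.mono e).and ((a' _ (le_max_left β β') _ e hc').and
    (b' _ (le_max_right β β') _ e le_rfl))).imp fun U h => h.1.2 _ h.2.1 h.2.2)).elim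

end Pool.Agent.P.MP_95b5c3_gt
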