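import Pool.Agent.P.MP_95b5c3_gt.Basic

set_option autoImplicit false

/-! Points, objects, atoms and the structure described by a set of atoms. -/

open Set

namespace Pool.Agent.P.MP_95b5c3_gt

universe u u' u''

/-- the node `v` extends a child `k > m` of `t` -/
def Under (v t : List ℕ) (m : ℕ) : Prop := ∃ k, m < k ∧ t ++ [k] <+: v

theorem Under.ext {v v' t : List ℕ} {m : ℕ} (h : Under v t m) (h' : v <+: v') : Under v' t m :=
  let ⟨k, h1, h2⟩ := h; ⟨k, h1, h2.trans h'⟩

theorem Under.mono {v t : List ℕ} {m m' : ℕ} (h : Under v t m) (h' : m' ≤ m) : Under v t m' :=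
  let ⟨k, h1, h2⟩ := h; ⟨k, h'.trans_lt h1, h2⟩

theorem Under.pre {v t : List ℕ} {m : ℕ} (h : Under v t m) : t <+: v :=
  let ⟨_, _, h2⟩ := h; (List.prefix_append _ _).trans h2

theorem Under.length_lt {v t : List ℕ} {m : ℕ} (h : Under v t m) : t.length < v.length := by
  obtain ⟨k, -, h2⟩ := h
  have := h2.length_le
  simp at this
  omega

theorem Under.exists_mem {v t : List ℕ} {m : ℕ} (h : Under v t m) : ∃ k ∈ v, m < k :=
  let ⟨k, h1, h2⟩ := h; ⟨k, h2.subset (by simp), h1⟩

theorem under_concat {σ t : List ℕ} {k m : ℕ} (h : Under (σ ++ [k]) t m) :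
    σ = t ∨ Under σ t m := by
  obtain ⟨k', h1, h2⟩ := h
  rcases List.prefix_concat_iff.1 h2 with h3 | h3
  · exact Or.inl (List.append_inj_left' h3 rfl).symm
  · exact Or.inr ⟨k', h1, h3⟩

theorem under_zeros {v t : List ℕ} {l m : ℕ} (h : Under (v ++ List.replicate l 0) t m) :
    Under v t m := by
  induction l with
  | zero => simpa using h
  | succ l ih =>
    rw [List.replicate_succ', ← List.append_assoc] at h
    obtain ⟨k, h1, h2⟩ := h
    rcases List.prefix_concat_iff.1 h2 with h3 | h3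
    · have := List.append_inj_right' h3 rfl
      simp at this
      omega
    · exact ih ⟨k, h1, h3⟩

theorem pre_total {a b c : List ℕ} (h : a <+: c) (h' : b <+: c) : a <+: b ∨ b <+: a :=
  List.prefix_or_prefix_of_prefix h h'

/-- if `v` is under `(t, m)`, `u` is comparable with `v` and not an initial segment of `t`,
then `u` is under `(t, m)` -/
theorem Under.of_comp {v u t : List ℕ} {m : ℕ} (h : Under v t m) (h1 : v <+: u ∨ u <+: v)
    (h2 : ¬ u <+: t) : Under u t m := by
  rcases h1 with h1 | h1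
  · exact h.ext h1
  · obtain ⟨k, h3, h4⟩ := h
    rcases pre_total h4 h1 with h5 | h5
    · exact ⟨k, h3, h5⟩
    · rcases List.prefix_concat_iff.1 h5 with h6 | h6
      · exact ⟨k, h3, h6 ▸ List.prefix_rfl⟩
      · exact absurd h6 h2

/-- objects -/
inductive Obj (A : Type u) (B : Type) : Type u
  | B (g : A) (t : List ℕ) (m : ℕ) : Obj A B
  | Cyl (j : B) (n : ℕ) (τ : List Bool) : Obj A B
  | Q (j ξ : B) : Obj A B

/-- atoms -/
inductive Atom (A : Type u) (B : Type) : Type u
  | asg (O : Obj A B) (g : A) (v : List ℕ) : Atom A B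
  | le (j ξ η : B) : Atom A B
  | dis (O O' : Obj A B) : Atom A B

deriving instance Countable for Obj
deriving instance Countable for Atom

section map
variable {A : Type u} {A' : Type u'} {A'' : Type u''} {B B' B'' : Type}

/-- renaming in objects -/
def Obj.map (f : A → A') (h : B → B') : Obj A B → Obj A' B'
  | .B g t m => .B (f g) t m
  | .Cyl j n τ => .Cyl (h j) n τ
  | .Q j ξ => .Q (h j) (h ξ)

/-- renaming in atoms -/
def Atom.map (f : A → A') (h : B → B') : Atom A B → Atom A' B'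
  | .asg O g v => .asg (O.map f h) (f g) v
  | .le j ξ η => .le (h j) (h ξ) (h η)
  | .dis O O' => .dis (O.map f h) (O'.map f h)

/-- levels of an object -/
def Obj.lv : Obj A B → Set A
  | .B g _ _ => {g}
  | _ => ∅

/-- countable ordinals of an object -/
def Obj.wv : Obj A B → Set B
  | .B _ _ _ => ∅
  | .Cyl j _ _ => {j}
  | .Q j ξ => {j, ξ}

/-- length of a cylinder -/
def Obj.len : Obj A B → ℕ
  | .Cyl _ n _ => n
  | _ => 0

/-- node of an object -/
def Obj.node : Obj A B → List ℕ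
  | .B _ t _ => t
  | _ => []

/-- objects of an atom -/
def Atom.obs : Atom A B → Set (Obj A B)
  | .asg O _ _ => {O}
  | .le j ξ η => {.Q j ξ, .Q j η}
  | .dis O O' => {O, O'}

/-- levels of an atom -/
def Atom.lv : Atom A B → Set A
  | .asg O g _ => insert g O.lv
  | .le _ _ _ => ∅
  | .dis O O' => O.lv ∪ O'.lv

/-- node of an atom -/
def Atom.node : Atom A B → List ℕ
  | .asg _ _ v => v
  | _ => []

theorem Obj.lv_finite (O : Obj A B) : O.lv.Finite := by
  cases O <;> simp [Obj.lv]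

theorem Obj.wv_finite (O : Obj A B) : O.wv.Finite := by
  cases O <;> simp [Obj.wv]

theorem Atom.obs_finite (a : Atom A B) : a.obs.Finite := by
  cases a <;> simp [Atom.obs]

theorem Atom.lv_finite (a : Atom A B) : a.lv.Finite := by
  cases a <;> simp [Atom.lv, Obj.lv_finite]

theorem Atom.lv_of_obs {a : Atom A B} {O : Obj A B} (h : O ∈ a.obs) : O.lv ⊆ a.lv := by
  cases a with
  | asg O' g v => obtain rfl : O = O' := h; exact subset_insert _ _
  | le j ξ η => rcases h with rfl | rfl <;> exact subset_rfl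
  | dis O1 O2 =>
    rcases h with rfl | rfl
    exacts [subset_union_left, subset_union_right]

theorem Obj.len_map (f : A → A') (h : B → B') (O : Obj A B) : (O.map f h).len = O.len := by
  cases O <;> rfl

theorem Obj.map_map (f : A → A') (h : B → B') (f' : A' → A'') (h' : B' → B'') (O : Obj A B) :
    (O.map f h).map f' h' = O.map (f' ∘ f) (h' ∘ h) := by
  cases O <;> rfl

theorem Atom.map_map (f : A → A') (h : B → B') (f' : A' → A'') (h' : B' → B'') (a : Atom A B) :
    (a.map f h).map f' h' = a.map (f' ∘ f) (h' ∘ h) := by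
  cases a <;> simp [Atom.map, Obj.map_map]

theorem Obj.map_congr {f f' : A → A'} {h h' : B → B'} {O : Obj A B} (e : ∀ g ∈ O.lv, f g = f' g)
    (e' : ∀ j ∈ O.wv, h j = h' j) : O.map f h = O.map f' h' := by
  cases O <;> simp_all [Obj.map, Obj.lv, Obj.wv]

theorem Atom.map_congr {f f' : A → A'} {h h' : B → B'} {a : Atom A B} (e : ∀ g ∈ a.lv, f g = f' g)
    (e' : ∀ O ∈ a.obs, ∀ j ∈ O.wv, h j = h' j) : a.map f h = a.map f' h' := by
  cases a with
  | asg O g v =>
    simp only [Atom.map]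
    rw [e g (mem_insert _ _), Obj.map_congr (fun x hx => e x (mem_insert_of_mem _ hx)) (e' O rfl)]
  | le j ξ η =>
    simp only [Atom.map]
    rw [e' (.Q j ξ) (Or.inl rfl) j (Or.inl rfl), e' (.Q j ξ) (Or.inl rfl) ξ (Or.inr rfl),
      e' (.Q j η) (Or.inr rfl) η (Or.inr rfl)]
  | dis O O' =>
    simp only [Atom.map]
    rw [Obj.map_congr (fun x hx => e x (Or.inl hx)) (e' O (Or.inl rfl)),
      Obj.map_congr (fun x hx => e x (Or.inr hx)) (e' O' (Or.inr rfl))]

theorem Obj.map_id (O : Obj A B) : O.map id id = O := by cases O <;> rfl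

theorem Atom.map_id (a : Atom A B) : a.map id id = a := by
  cases a <;> simp [Atom.map, Obj.map_id]

theorem Obj.map_fix {f : A → A} {h : B → B} {O : Obj A B} (e : ∀ g ∈ O.lv, f g = g)
    (e' : ∀ j ∈ O.wv, h j = j) : O.map f h = O :=
  (Obj.map_congr (f' := id) (h' := id) e e').trans O.map_id

theorem Atom.map_fix {f : A → A} {h : B → B} {a : Atom A B} (e : ∀ g ∈ a.lv, f g = g)
    (e' : ∀ O ∈ a.obs, ∀ j ∈ O.wv, h j = j) : a.map f h = a :=
  (Atom.map_congr (f' := id) (h' := id) e e').trans a.map_id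

end map

/-- objects over the real index types -/
abbrev Ob : Type 1 := Obj K W
/-- atoms over the real index types -/
abbrev At : Type 1 := Atom K W
/-- activations -/
abbrev Act : Type 1 := W × Set K × W

/-- points -/
inductive Pt : Type 1
  | up (g : K) (t : List ℕ) : Pt
  | bot (j η : W) : Pt

open Obj Atom Pt

/-- the object lies below the level `g` -/
def Obj.below (O : Ob) (g : K) : Prop := ∀ g' ∈ O.lv, g' < g

/-- the point lies below the level `g` -/
def Pt.below : Pt → K → Prop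
  | .up g' _, g => g' < g
  | .bot _ _, _ => True

/-- well formed atoms -/
def Atom.wf : At → Prop
  | .asg O g _ => O.below g
  | .le _ ξ η => ξ < η
  | .dis _ _ => True

/-- renaming in points -/
def Pt.map (f : K → K) (h : W → W) : Pt → Pt
  | .up g t => .up (f g) t
  | .bot j η => .bot (h j) (h η)

/-- the points that an object has from the start -/
inductive Base : Pt → Ob → Prop
  | self (g : K) (t : List ℕ) (m : ℕ) : Base (up g t) (B g t m)
  | under (g : K) {t t' : List ℕ} {m : ℕ} (h : Under t' t m) : Base (up g t') (B g t m)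
  | cyl (j η : W) (n : ℕ) : Base (bot j η) (Cyl j n (rs η n))
  | q (j η : W) : Base (bot j η) (Q j η)

/-- membership in the structure described by `s` -/
inductive Mem (s : Set At) (w : Pt) : Ob → Prop
  | base {O : Ob} (h : Base w O) : Mem s w O
  | asg {O : Ob} {g : K} {v t : List ℕ} {m : ℕ} (h : Mem s w O) (ha : asg O g v ∈ s)
      (hu : Under v t m) : Mem s w (B g t m)
  | le {j ξ η : W} (h : Mem s w (Q j η)) (ha : le j ξ η ∈ s) : Mem s w (Q j ξ)

/-- pairs of objects that have to be disjoint -/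
inductive Req (s : Set At) (t : Set Act) : Ob → Ob → Prop
  | dis {O O' : Ob} (h : dis O O' ∈ s) : Req s t O O'
  | asg {C C' : Ob} {g : K} {u u' : List ℕ} (h : asg C g u ∈ s) (h' : asg C' g u' ∈ s)
      (h1 : ¬ u <+: u') (h2 : ¬ u' <+: u) : Req s t C C'
  | act {C : Ob} {g : K} {u : List ℕ} {j ξ : W} {A : Set K} (h : asg C g u ∈ s)
      (h' : (j, A, ξ) ∈ t) (hg : g ∈ A) : Req s t C (Q j ξ)

/-- valid finite parts -/
structure Ok (s : Set At) (t : Set Act) : Prop where
  wf : ∀ a ∈ s, a.wf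
  disj : ∀ O O', Req s t O O' → ∀ w, Mem s w O → ¬ Mem s w O'

/-- the objects mentioned in `(s, t)` -/
def obs (s : Set At) (t : Set Act) : Set Ob := (⋃ a ∈ s, a.obs) ∪ (fun a => Q a.1 a.2.2) '' t

/-- `w` is in a set assigned to the node `v` of level `g` -/
def In (s : Set At) (w : Pt) (g : K) (v : List ℕ) : Prop := ∃ C, asg C g v ∈ s ∧ Mem s w C

/-- `w` is blocked at level `g` -/
def Blocked (s : Set At) (t : Set Act) (w : Pt) (g : K) : Prop :=
  ∃ j A ξ, (j, A, ξ) ∈ t ∧ g ∈ A ∧ Mem s w (Q j ξ)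

/-- small objects around a point -/
noncomputable def tiny : Pt → ℕ → Ob
  | .up g t, n => B g t n
  | .bot j η, n => Cyl j n (rs η n)

variable {s s' : Set At} {t t' : Set Act} {w : Pt} {O O' : Ob}

theorem Mem.mono (h : Mem s w O) (hs : s ⊆ s') : Mem s' w O := by
  induction h with
  | base h => exact .base h
  | asg _ ha hu ih => exact .asg ih (hs ha) hu
  | le _ ha ih => exact .le ih (hs ha)

theorem Req.mono (h : Req s t O O') (hs : s ⊆ s') (ht : t ⊆ t') : Req s' t' O O' := by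
  cases h with
  | dis h => exact .dis (hs h)
  | asg h h' h1 h2 => exact .asg (hs h) (hs h') h1 h2
  | act h h' hg => exact .act (hs h) (ht h') hg

theorem Ok.anti (h : Ok s' t') (hs : s ⊆ s') (ht : t ⊆ t') : Ok s t :=
  ⟨fun a ha => h.wf a (hs ha), fun O O' hr w h1 h2 =>
    h.disj O O' (hr.mono hs ht) w (h1.mono hs) (h2.mono hs)⟩

theorem In.mono {g : K} {v : List ℕ} (h : In s w g v) (hs : s ⊆ s') : In s' w g v :=
  let ⟨C, h1, h2⟩ := h; ⟨C, hs h1, h2.mono hs⟩

theorem Blocked.mono {g : K} (h : Blocked s t w g) (hs : s ⊆ s') (ht : t ⊆ t') :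
    Blocked s' t' w g :=
  let ⟨j, A, ξ, h1, h2, h3⟩ := h; ⟨j, A, ξ, ht h1, h2, h3.mono hs⟩

theorem In.mem {g : K} {v u : List ℕ} {m : ℕ} (h : In s w g v) (hu : Under v u m) :
    Mem s w (B g u m) :=
  let ⟨_, h1, h2⟩ := h; .asg h2 h1 hu

theorem Ok.comp (h : Ok s t) {g : K} {v v' : List ℕ} (h1 : In s w g v) (h2 : In s w g v') :
    v <+: v' ∨ v' <+: v := by
  by_contra hc
  push Not at hc
  obtain ⟨C, a1, a2⟩ := h1
  obtain ⟨C', b1, b2⟩ := h2
  exact h.disj _ _ (.asg a1 b1 hc.1 hc.2) w a2 b2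

theorem Ok.not_blocked (h : Ok s t) {g : K} {v : List ℕ} (h1 : In s w g v) :
    ¬ Blocked s t w g := by
  rintro ⟨j, A, ξ, b1, b2, b3⟩
  obtain ⟨C, a1, a2⟩ := h1
  exact h.disj _ _ (.act a1 b1 b2) w a2 b3

theorem obs_finite (hs : s.Finite) (ht : t.Finite) : (obs s t).Finite :=
  (hs.biUnion fun a _ => a.obs_finite).union (ht.image _)

theorem mem_obs {a : At} (ha : a ∈ s) (h : O ∈ a.obs) : O ∈ obs s t :=
  Or.inl (mem_biUnion ha h)

theorem mem_obs_act {j ξ : W} {A : Set K} (h : (j, A, ξ) ∈ t) : Q j ξ ∈ obs s t :=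
  Or.inr ⟨_, h, rfl⟩

theorem obs_mono (hs : s ⊆ s') (ht : t ⊆ t') : obs s t ⊆ obs s' t' :=
  union_subset_union (biUnion_subset_biUnion_left hs) (image_mono ht)

theorem Req.mem_obs (h : Req s t O O') : O ∈ obs s t ∧ O' ∈ obs s t := by
  cases h with
  | dis h => exact ⟨MP_95b5c3_gt.mem_obs h (Or.inl rfl), MP_95b5c3_gt.mem_obs h (Or.inr rfl)⟩
  | asg h h' h1 h2 => exact ⟨MP_95b5c3_gt.mem_obs h rfl, MP_95b5c3_gt.mem_obs h' rfl⟩
  | act h h' hg => exact ⟨MP_95b5c3_gt.mem_obs h rfl, mem_obs_act h'⟩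

theorem Mem.cyl {j : W} {n : ℕ} {τ : List Bool} (h : Mem s w (Cyl j n τ)) :
    ∃ η, w = bot j η ∧ rs η n = τ := by
  cases h with
  | base h => cases h; exact ⟨_, rfl, rfl⟩

theorem Mem.q' (hs : ∀ a ∈ s, a.wf) (h : Mem s w O) :
    ∀ j ξ, O = Q j ξ → ∃ η, w = bot j η ∧ ξ ≤ η := by
  induction h with
  | base h => rintro j ξ rfl; cases h; exact ⟨_, rfl, le_rfl⟩
  | asg _ _ _ _ => rintro j ξ ⟨⟩
  | le _ ha ih =>
    rintro j ξ ⟨⟩
    obtain ⟨η, h1, h2⟩ := ih _ _ rfl
    exact ⟨η, h1, (le_of_lt (hs _ ha)).trans h2⟩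

theorem Mem.q (hs : ∀ a ∈ s, a.wf) {j ξ : W} (h : Mem s w (Q j ξ)) : ∃ η, w = bot j η ∧ ξ ≤ η :=
  h.q' hs j ξ rfl

/-- an upper point lies only in upper objects that are not lower -/
theorem Mem.up (hs : ∀ a ∈ s, a.wf) {g : K} {v : List ℕ} (h : Mem s (up g v) O) :
    ∃ g' u m, O = B g' u m ∧ g ≤ g' := by
  induction h with
  | base h => cases h <;> exact ⟨_, _, _, rfl, le_rfl⟩
  | asg _ ha hu ih =>
    obtain ⟨g', u, m, rfl, h1⟩ := ih
    exact ⟨_, _, _, rfl, h1.trans (le_of_lt (hs _ ha g' rfl))⟩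
  | le _ _ ih => obtain ⟨g', u, m, ⟨⟩, -⟩ := ih

theorem Mem.not_below (hs : ∀ a ∈ s, a.wf) {g g' : K} {v : List ℕ} (h : Mem s (.up g v) O)
    (hb : O.below g') : g < g' := by
  obtain ⟨g1, u, m, rfl, h1⟩ := h.up hs
  exact h1.trans_lt (hb g1 rfl)

theorem Mem.pt_below (hs : ∀ a ∈ s, a.wf) {g : K} (h : Mem s w O) (hb : O.below g) : w.below g := by
  cases w with
  | up g' v => exact h.not_below hs hb
  | bot j η => trivial

theorem In.below (hs : ∀ a ∈ s, a.wf) {g : K} {v : List ℕ} (h : In s w g v) : w.below g :=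
  let ⟨_, h1, h2⟩ := h; h2.pt_below hs (hs _ h1)

theorem base_tiny (w : Pt) (n : ℕ) : Base w (tiny w n) := by
  cases w
  exacts [.self _ _ _, .cyl _ _ _]

theorem tiny_below {g : K} (h : w.below g) (n : ℕ) : (tiny w n).below g := by
  cases w with
  | up g' v => rintro _ rfl; exact h
  | bot j η => rintro _ ⟨⟩

theorem Mem.of_B {g : K} {u : List ℕ} {m : ℕ} (h : Mem s w (B g u m)) :
    Base w (B g u m) ∨ ∃ v, In s w g v ∧ Under v u m := by
  cases h with
  | base h => exact Or.inl h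
  | asg h ha hu => exact Or.inr ⟨_, ⟨_, ha, h⟩, hu⟩

theorem Mem.tiny_anti {x : Pt} {m n : ℕ} (h : Mem s w (tiny x n)) (hm : m ≤ n) :
    Mem s w (tiny x m) := by
  cases x with
  | up g v =>
    rcases h.of_B with h | ⟨v, h1, h2⟩
    · cases h with
      | self => exact .base (.self _ _ _)
      | under _ h => exact .base (.under _ (h.mono hm))
    · exact h1.mem (h2.mono hm)
  | bot j η =>
    obtain ⟨ζ, rfl, h1⟩ := h.cyl
    simp only [tiny]
    rw [← rs_mono h1 hm]
    exact .base (.cyl _ _ _)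

/-- a small object around `x` misses the base of an object whose base misses `x` -/
theorem exists_tiny_base (x : Pt) (O : Ob) : ∃ n, ∀ m ≥ n, ∀ w, Base w (tiny x m) → Base w O →
    Base x O := by
  cases x with
  | up g v =>
    obtain ⟨n, hn⟩ := O.node.finite_toSet.bddAbove
    refine ⟨n, fun m hm w h1 h2 => ?_⟩
    cases h1 with
    | self => exact h2
    | under _ h1 =>
      obtain ⟨k, k1, k2⟩ := h1
      cases h2 with
      | self => exact absurd (hn (k2.subset (by simp) : k ∈ _)) (by omega)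
      | under _ h2 =>
        obtain ⟨k', l1, l2⟩ := h2
        rcases pre_total l2 k2 with h3 | h3
        · rcases under_concat ⟨k', l1, h3⟩ with rfl | h4
          exacts [.self _ _ _, .under _ h4]
        · rcases List.prefix_concat_iff.1 h3 with h4 | h4
          · obtain rfl := List.append_inj_left' h4 rfl
            exact .self _ _ _
          · exact absurd (hn (h4.subset (by simp) : k ∈ _)) (by omega)
  | bot j η =>
    cases O with
    | B g u m => exact ⟨0, fun m _ w h1 h2 => by cases h2 <;> cases h1⟩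
    | Cyl j' n τ =>
      refine ⟨n, fun m hm w h1 h2 => ?_⟩
      obtain ⟨ζ, rfl, h3⟩ := (Mem.base (s := ∅) h1).cyl
      obtain ⟨ζ', ⟨⟩, rfl⟩ := (Mem.base (s := ∅) h2).cyl
      rw [rs_mono h3 hm]
      exact .cyl _ _ _
    | Q j' ξ =>
      by_cases e : ξ = η
      · refine ⟨0, fun m hm w h1 h2 => ?_⟩
        obtain ⟨ζ, rfl, h3⟩ := (Mem.base (s := ∅) h1).cyl
        cases h2
        exact e ▸ .q _ _
      · obtain ⟨n, hn⟩ := exists_rs_ne e
        refine ⟨n, fun m hm w h1 h2 => ?_⟩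
        obtain ⟨ζ, rfl, h3⟩ := (Mem.base (s := ∅) h1).cyl
        cases h2
        exact absurd (rs_mono h3 hm) hn

theorem exists_forall_ge {ι : Type*} {F : Set ι} (hF : F.Finite) {R : ι → ℕ → Prop}
    (h : ∀ i, ∃ n, ∀ m ≥ n, R i m) : ∃ n, ∀ m ≥ n, ∀ i ∈ F, R i m := by
  choose n hn using h
  obtain ⟨N, hN⟩ := (hF.image n).bddAbove
  exact ⟨N, fun m hm i hi => hn i m ((hN ⟨i, hi, rfl⟩).trans hm)⟩

/-- the points of `U` behave like `x` for the objects in `F` -/
def Like (s : Set At) (F : Set Ob) (U : Set Pt) (x : Pt) : Prop :=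
  ∀ w ∈ U, ∀ O ∈ F, Mem s w O → Mem s x O

theorem like_of_base {F : Set Ob} (hF : obs s ∅ ⊆ F) {U : Set Pt} {x : Pt}
    (h : ∀ w ∈ U, ∀ O ∈ F, Base w O → Mem s x O) : Like s F U x := by
  intro w hw O hO h1
  induction h1 with
  | base h1 => exact h w hw _ hO h1
  | asg _ ha hu ih => exact .asg (ih (hF (mem_obs ha rfl))) ha hu
  | le _ ha ih => exact .le (ih (hF (mem_obs ha (Or.inr rfl)))) ha

/-- nothing is assigned into a small enough object around `x`, and its points behave like `x` -/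
theorem exists_tiny (hs : s.Finite) {F : Set Ob} (hF : F.Finite) (x : Pt) : ∃ n, ∀ m ≥ n,
    (∀ O g v u, tiny x m = B g u m → asg O g v ∈ s → ¬ Under v u m) ∧
      Like s F {w | Base w (tiny x m)} x := by
  obtain ⟨n, hn⟩ := exists_forall_ge (hF.union (obs_finite hs finite_empty)) (exists_tiny_base x)
  obtain ⟨n', hn'⟩ := (hs.biUnion fun a _ => a.node.finite_toSet).bddAbove
  refine ⟨max n n', fun m hm => ⟨fun O g v u _ ha hu => ?_, fun w hw O hO => ?_⟩⟩
  · obtain ⟨k, h1, h2⟩ := hu.exists_mem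
    have := hn' (mem_biUnion ha h1)
    omega
  · exact like_of_base (F := F ∪ obs s ∅) subset_union_right (fun w hw O hO h =>
      .base (hn m (le_of_max_le_left hm) O hO w hw h)) w hw O (Or.inl hO)

theorem base_of_mem_tiny {x : Pt} {m : ℕ}
    (h : ∀ O g v u, tiny x m = B g u m → asg O g v ∈ s → ¬ Under v u m)
    (h1 : Mem s w (tiny x m)) : Base w (tiny x m) := by
  cases x with
  | up g v =>
    rcases h1.of_B with h1 | ⟨v', ⟨C, h2, -⟩, h3⟩
    · exact h1
    · exact absurd h3 (h C g v' v rfl h2)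
  | bot j η =>
    cases h1 with
    | base h1 => exact h1

end Pool.Agent.P.MP_95b5c3_gt
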