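import Pool.Agent.P.MP_95b5c3_gt.Cond

set_option autoImplicit false

/-! The properties of the generic space, in combinatorial form. -/

open Set Pool.Agent.Lib.PosetForcing

namespace Pool.Agent.P.MP_95b5c3_gt

open Obj Atom Pt

/-- `x` lies in the `n`-th neighbourhood of `y` -/
def MemN (s : Set At) (x y : Pt) (n : ℕ) : Prop :=
  Mem s x (tiny y n) ∧ ∀ j η, y = bot j η → Mem s x (Q j η)

/-- `x` lies in the open set of level `g` -/
def InZ (s : Set At) (x : Pt) (g : K) : Prop := (∃ v, x = up g v) ∨ ∃ v, In s x g v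

section
variable {s s' : Set At} {x y z : Pt} {m n : ℕ} {O : Ob} {g : K}

theorem memN_self (s : Set At) (x : Pt) (n : ℕ) : MemN s x x n :=
  ⟨.base (base_tiny x n), by rintro j η rfl; exact .base (.q _ _)⟩

theorem MemN.mono (h : MemN s x y n) (hs : s ⊆ s') : MemN s' x y n :=
  ⟨h.1.mono hs, fun j η e => (h.2 j η e).mono hs⟩

theorem MemN.anti (h : MemN s x y n) (hm : m ≤ n) : MemN s x y m := ⟨h.1.tiny_anti hm, h.2⟩

theorem InZ.mono (h : InZ s x g) (hs : s ⊆ s') : InZ s' x g :=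
  h.imp id fun ⟨v, h⟩ => ⟨v, h.mono hs⟩

theorem Mem.inZ {u : List ℕ} (h : Mem s x (B g u m)) : InZ s x g := by
  rcases h.of_B with h | ⟨v, h, -⟩
  · cases h <;> exact Or.inl ⟨_, rfl⟩
  · exact Or.inr ⟨v, h⟩

theorem Mem.exists_nbhd (h : Mem s x O) : ∃ n, ∀ s' ⊇ s, ∀ z, MemN s' z x n → Mem s' z O := by
  induction h with
  | base b =>
    cases b with
    | self g t m => exact ⟨m, fun s' _ z hz => hz.1⟩
    | under g b =>
      refine ⟨0, fun s' _ z hz => ?_⟩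
      rcases hz.1.of_B with h | ⟨v, h1, h2⟩
      · cases h with
        | self => exact .base (.under _ b)
        | under _ h => exact .base (.under _ (b.ext h.pre))
      · exact h1.mem (b.ext h2.pre)
    | cyl j η n => exact ⟨n, fun s' _ z hz => hz.1⟩
    | q j η => exact ⟨0, fun s' _ z hz => hz.2 j η rfl⟩
  | asg _ a hu ih =>
    obtain ⟨n, hn⟩ := ih
    exact ⟨n, fun s' hs z hz => .asg (hn s' hs z hz) (hs a) hu⟩
  | le _ a ih =>
    obtain ⟨n, hn⟩ := ih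
    exact ⟨n, fun s' hs z hz => .le (hn s' hs z hz) (hs a)⟩

theorem MemN.exists_nbhd (h : MemN s x y n) :
    ∃ m, ∀ s' ⊇ s, ∀ z, MemN s' z x m → MemN s' z y n := by
  obtain ⟨m, hm⟩ := h.1.exists_nbhd
  cases y with
  | up g v => exact ⟨m, fun s' hs z hz => ⟨hm s' hs z hz, by rintro _ _ ⟨⟩⟩⟩
  | bot j η =>
    obtain ⟨k, hk⟩ := (h.2 j η rfl).exists_nbhd
    exact ⟨max m k, fun s' hs z hz => ⟨hm s' hs z (hz.anti (le_max_left _ _)), by
      rintro _ _ ⟨⟩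
      exact hk s' hs z (hz.anti (le_max_right _ _))⟩⟩

theorem InZ.exists_nbhd (h : InZ s x g) : ∃ n, ∀ s' ⊇ s, ∀ z, MemN s' z x n → InZ s' z g := by
  rcases h with ⟨v, rfl⟩ | ⟨v, C, h1, h2⟩
  · exact ⟨0, fun s' _ z hz => Mem.inZ hz.1⟩
  · obtain ⟨n, hn⟩ := h2.exists_nbhd
    exact ⟨n, fun s' hs z hz => Or.inr ⟨v, C, hs h1, hn s' hs z hz⟩⟩

end

theorem PP.exists_dis (p : PP) {x : Pt} {F : Set Ob} (hF : F.Finite)
    (hx : ∀ O ∈ F, ¬ Mem p.s x O) : ∃ q ≤ p, ∃ m, ∀ O ∈ F, dis (tiny x m) O ∈ q.s := by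
  obtain ⟨m, hm⟩ := p.ok.exists_dis p.fs hF hx
  exact ⟨_, p.add_le _ (hF.image _) hm, m, fun O hO => Or.inr ⟨O, hO, rfl⟩⟩

theorem PP.not_mem_of_dis {p : PP} {x z : Pt} {m : ℕ} {O : Ob} (h : dis (tiny x m) O ∈ p.s)
    (hz : Mem p.s z (tiny x m)) : ¬ Mem p.s z O := p.ok.disj _ _ (.dis h) z hz

/-- a point outside an object has a neighbourhood that stays disjoint from it -/
theorem PP.exists_miss (p : PP) {x : Pt} {O : Ob} (hx : ¬ Mem p.s x O) :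
    ∃ q ≤ p, ∃ m, ∀ r ≤ q, ∀ z, MemN r.s z x m → ¬ Mem r.s z O := by
  obtain ⟨q, hq, m, hm⟩ := p.exists_dis (finite_singleton O) (by rintro _ rfl; exact hx)
  exact ⟨q, hq, m, fun r hr z hz => PP.not_mem_of_dis (hr.2.1 (hm O rfl)) hz.1⟩

theorem PP.exists_missN (p : PP) {x y : Pt} {n : ℕ} (hx : ¬ MemN p.s x y n) :
    ∃ q ≤ p, ∃ m, ∀ r ≤ q, ∀ z, MemN r.s z x m → ¬ MemN r.s z y n := by
  by_cases h : Mem p.s x (tiny y n)
  · obtain ⟨j, η, rfl, h1⟩ : ∃ j η, y = bot j η ∧ ¬ Mem p.s x (Q j η) := by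
      by_contra hc
      push Not at hc
      exact hx ⟨h, hc⟩
    obtain ⟨q, hq, m, hm⟩ := p.exists_miss h1
    exact ⟨q, hq, m, fun r hr z hz h2 => hm r hr z hz (h2.2 j η rfl)⟩
  · obtain ⟨q, hq, m, hm⟩ := p.exists_miss h
    exact ⟨q, hq, m, fun r hr z hz h2 => hm r hr z hz h2.1⟩

theorem PP.exists_sep (p : PP) {x y : Pt} (h : x ≠ y) :
    ∃ q ≤ p, ∃ n, ∀ r ≤ q, ¬ MemN r.s y x n := by
  obtain ⟨n, hn⟩ := exists_tiny p.fs finite_empty x
  obtain ⟨k, hk⟩ : ∃ k, ∀ m ≥ k, ¬ Base y (tiny x m) := by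
    cases x with
    | up g v =>
      cases y with
      | up g' v' =>
        obtain ⟨k, hk⟩ := v'.finite_toSet.bddAbove
        refine ⟨k, fun m hm b => ?_⟩
        cases b with
        | self => exact h rfl
        | under _ b =>
          obtain ⟨i, h1, h2⟩ := b.exists_mem
          exact absurd (hk h1) (by omega)
      | bot j η => exact ⟨0, fun m _ b => by cases b⟩
    | bot j η =>
      obtain ⟨k, hk⟩ := exists_tiny_base (bot j η) (match y with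
        | up g v => B g v 0
        | bot j' η' => Q j' η')
      refine ⟨k, fun m hm b => ?_⟩
      obtain ⟨ζ, rfl, -⟩ := (Mem.base (s := ∅) b).cyl
      cases hk m hm _ b (.q _ _)
      exact h rfl
  obtain ⟨q, hq, m, hm⟩ := p.exists_miss (x := y) (O := tiny x (max n k)) fun a =>
    hk _ (le_max_right _ _) (base_of_mem_tiny (hn _ (le_max_left _ _)).1 a)
  exact ⟨q, hq, _, fun r hr a => hm r hr y (memN_self _ _ _) a.1⟩

theorem PP.deepen (p : PP) {x : Pt} {g : K} (hx : x.below g) (hb : ¬ Blocked p.s p.t x g) :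
    ∃ q ≤ p, InZ q.s x g := by
  obtain ⟨n, u, Γ, h1, h2, A⟩ := p.ok.exists_align p.fs p.ft hx hb
  exact ⟨_, p.add_le n h1 h2, Or.inr ⟨_, A.at0⟩⟩

theorem PP.exists_bot (p : PP) (x : Pt) (n : ℕ) : ∃ q ≤ p, ∃ j η, MemN q.s (bot j η) x n := by
  cases x with
  | bot j η => exact ⟨p, le_rfl, j, η, memN_self _ _ _⟩
  | up g v =>
    obtain ⟨j, hj⟩ := exists_not_mem p.wv_finite.countable
    have h1 : ∀ O ∈ obs p.s p.t, j ∉ O.wv := fun O hO h => hj (mem_biUnion hO h)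
    obtain ⟨a, h2, h3⟩ := Ok.exists_near (s := p.s) (t := p.t) (sa := ∅) (ta := ∅) (x := bot j j)
      (α := g) (by simpa using p.ok) (by simpa using p.fs) (by simpa using p.ft) trivial
      (fun O hO h => h1 O hO (h.fresh fun O hO =>
        h1 O (obs_mono (by simp) (empty_subset _) hO))) (by simp) (by simp) v n
    simp only [union_empty] at h2 h3
    exact ⟨_, p.add_le _ (finite_singleton a) h2, j, j, h3, by rintro _ _ ⟨⟩⟩

theorem PP.activate (p : PP) {A0 : Set K} (hA : A0.Countable) {E : Set W} (hE : E.Countable) :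
    ∃ q ≤ p, ∃ j ∉ E, ∃ A ⊇ A0, ∃ ξ, (j, A, ξ) ∈ q.t := by
  obtain ⟨c, hc, j, hj, A, h1, ξ, h2⟩ := exists_actOk p.c hA (hE.union p.wv_finite.countable)
  exact ⟨⟨c, p.s, insert (j, A, ξ) p.t, p.fs, p.ft.insert _,
    p.ok.add_act (fun O hO h => hj (Or.inr (mem_biUnion
      (obs_mono subset_rfl (empty_subset _) hO) h))) A ξ, by
      rintro _ (rfl | ha)
      exacts [h2, (p.act _ ha).mono hc]⟩,
    ⟨hc, subset_rfl, subset_insert _ _⟩, j, fun h => hj (Or.inl h), A, h1, ξ, Or.inl rfl⟩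

/-- below `p` and `c`, the points in `S` are covered by chosen neighbourhoods of points of `H` -/
def Cov (p : PP) (c : P0) (S : PP → Pt → Prop) (Dec : PP → Pt → ℕ → Prop) (H : Set Pt) : Prop :=
  ∀ q ≤ p, q.c ≤ c → ∀ x, S q x → ∃ r ≤ q, ∃ y ∈ H, ∃ n, Dec r y n ∧ MemN r.s x y n

section cover
variable (p : PP) {Dec : PP → Pt → ℕ → Prop} (hm : ∀ q r x n, r ≤ q → Dec q x n → Dec r x n)
include hm

/-- the bottom levels are hereditarily Lindelof -/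
theorem hl (j : W) {S : PP → Pt → Prop} (h : ∀ q ≤ p, ∀ x, S q x → ∃ r ≤ q, ∃ n, Dec r x n)
    (c : P0) : ∃ c' ≤ c, ∃ H : Set W, H.Countable ∧
      Cov p c' (fun q x => S q x ∧ ∃ η, x = bot j η) Dec (bot j '' H) := by
  by_contra hcon
  simp only [Cov] at hcon
  push Not at hcon
  obtain ⟨⟨q, ξ, n⟩, ⟨q', η, n'⟩, h1, -, h2, a, a1, b, b1, -, f, g, T⟩ :=
    exists_twins (α := PP × W × ℕ) c (fun z => Dec z.1 (bot j z.2.1) z.2.2)
      (fun z z' => ∀ r ≤ z'.1, ∀ n, Dec r (bot j z.2.1) n → ¬ MemN r.s (bot j z'.2.1) (bot j z.2.1) n)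
      (fun z => z.1) (fun z => [tiny (bot j z.2.1) z.2.2, Q j z.2.1]) fun c' hc' H hH _ => by
        obtain ⟨q, q1, q2, _, ⟨q3, η, rfl⟩, q4⟩ := hcon c' hc' _ (hH.image fun z => z.2.1)
        obtain ⟨r, r1, n, r2⟩ := h q q1 _ q3
        exact ⟨(r, η, n), r1.1.trans q2, r2, fun z hz s hs m =>
          q4 s (hs.trans r1) _ ⟨_, ⟨z, hz, rfl⟩, rfl⟩ m⟩
  have e := T.map
  simp only [List.map, tiny, Obj.map, List.cons.injEq, Cyl.injEq, Q.injEq] at e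
  obtain ⟨⟨-, rfl, e1⟩, ⟨-, e2⟩, -⟩ := e
  rcases T.lt j ξ (by simp) with e3 | e3
  · obtain ⟨r, r1, r2, -⟩ := T.am ∅ finite_empty fun _ h => h.elim
    obtain rfl : ξ = η := e3.symm.trans e2
    exact h2 r (r2.trans b1) n (hm _ _ _ _ (r1.trans a1) h1) (memN_self _ _ _)
  · obtain ⟨r, r1, r2, r3⟩ := T.am {le j ξ (g ξ)} (finite_singleton _)
      fun _ h => Or.inr ⟨j, ξ, by simp, e3, h⟩
    refine h2 r (r2.trans b1) n (hm _ _ _ _ (r1.trans a1) h1) ⟨?_, ?_⟩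
    · simp only [tiny]
      rw [e1]
      exact .base (.cyl _ _ _)
    · rintro _ _ ⟨⟩
      exact .le (.base (.q _ _)) (e2 ▸ r3 rfl)

omit hm in
theorem lv_of_obs {s : Set At} {t : Set Act} {O : Ob} (h : O ∈ obs s t) : O.lv ⊆ ⋃ a ∈ s, a.lv := by
  rcases h with h | ⟨a, -, rfl⟩
  · obtain ⟨a, ha, h1⟩ := mem_iUnion₂.1 h
    exact fun g hg => mem_biUnion ha (Atom.lv_of_obs h1 hg)
  · exact empty_subset _

theorem lind' (α : K) (h : ∀ q ≤ p, ∀ g ≤ α, ∀ v, ∃ r ≤ q, ∃ n, Dec r (up g v) n) (c : P0) :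
    ∃ c' ≤ c, ∃ (H : Set Pt) (J : Set W), H.Countable ∧ J.Countable ∧
      Cov p c' (fun q x => InZ q.s x α ∧ ∀ j ∈ J, ∀ η, x ≠ bot j η) Dec H := by
  induction α using WellFoundedLT.induction generalizing c with
  | ind α ih =>
  obtain ⟨c1, h1, A, hA, hA'⟩ := master' (countable_univ (α := List ℕ)) p
    (fun v r => ∃ n, Dec r (up α v) n) (fun v _ q hq => h q hq α le_rfl v) c
  have hS : (insert α (⋃ a ∈ A, a.lv)).Countable :=
    (hA.biUnion fun a _ => a.lv_finite.countable).insert α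
  obtain ⟨c2, h2, pr, -⟩ := c1.exists_prep hS countable_empty
  obtain ⟨δ, hδ⟩ := exists_bound ((hA.biUnion fun a _ => a.wv_finite.countable).union
    (c2.cnt.image fun z => z.1.2))
  have hI : (insert α (⋃ a ∈ A, a.lv) ∩ Iio α).Countable := hS.mono inter_subset_left
  obtain ⟨c3, h3, h4⟩ := P0.exists_forall hI c2 (fun η c' => ∃ (H : Set Pt) (J : Set W),
      H.Countable ∧ J.Countable ∧
        Cov p c' (fun q x => InZ q.s x η ∧ ∀ j ∈ J, ∀ η, x ≠ bot j η) Dec H)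
    (fun η c' c'' e ⟨H, J, a1, a2, a3⟩ => ⟨H, J, a1, a2, fun q hq e' => a3 q hq (e'.trans e)⟩)
    fun η hη c' _ => ih η hη.2 (fun q hq g hg => h q hq g (hg.trans (le_of_lt hη.2))) c'
  choose! H J H1 J1 H2 using h4
  refine ⟨c3, h3.trans (h2.trans h1), range (up α) ∪ ⋃ η ∈ insert α (⋃ a ∈ A, a.lv) ∩ Iio α, H η,
    Iic δ ∪ ⋃ η ∈ insert α (⋃ a ∈ A, a.lv) ∩ Iio α, J η, (countable_range _).union (hI.biUnion H1),
    (countable_Iic δ).union (hI.biUnion J1), ?_⟩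
  rintro q hq hc x ⟨⟨v, rfl⟩ | ⟨v, hx⟩, hJ⟩
  · obtain ⟨r, hr, n, hn⟩ := h q hq α le_rfl v
    exact ⟨r, hr, _, Or.inl ⟨v, rfl⟩, n, hn, memN_self _ _ _⟩
  by_cases low : ∃ r ≤ q, ∃ η ∈ insert α (⋃ a ∈ A, a.lv) ∩ Iio α, InZ r.s x η
  · obtain ⟨r, hr, η, hη, e⟩ := low
    obtain ⟨r', hr', y, hy, e'⟩ := H2 η hη r (hr.trans hq) (hr.1.trans hc) x
      ⟨e, fun j hj => hJ j (Or.inr (mem_biUnion hη hj))⟩
    exact ⟨r', hr'.trans hr, y, Or.inr (mem_biUnion hη hy), e'⟩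
  obtain ⟨n, u, Γ, n1, n2, Al⟩ := q.ok.exists_align q.fs q.ft (hx.below q.ok.wf)
    (q.ok.not_blocked hx)
  have q1 := q.add_le n n1 n2
  obtain ⟨a, ha, ⟨m, a1⟩, r, r1, r2⟩ := hA' (u α) trivial _ (q1.trans hq)
    (hc.trans (h3.trans h2))
  have q2 := (PP.join_le r1 r2).trans q1
  have hj : ∀ j η, x = bot j η → δ < j := fun j η e => lt_of_not_ge fun e' => hJ j (Or.inl e') η e
  obtain ⟨b, b1, b2⟩ := Al.exists_child (PP.join r1 r2).ok (PP.join r1 r2).fs (PP.join r1 r2).ft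
    (fun C hC e e' => by
      cases C with
      | B g w k =>
        exact low ⟨_, q2, g, ⟨Or.inr (mem_biUnion ha (lv_of_obs hC rfl)), e g rfl⟩, e'.inZ⟩
      | Cyl j k τ =>
        obtain ⟨η, e1, -⟩ := e'.cyl
        exact (hj j η e1).not_gt (hδ j (Or.inl (mem_biUnion ha (mem_biUnion hC rfl))))
      | Q j ξ =>
        obtain ⟨η, e1, -⟩ := e'.q (PP.join r1 r2).ok.wf
        exact (hj j η e1).not_gt (hδ j (Or.inl (mem_biUnion ha (mem_biUnion hC (Or.inl rfl))))))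
    (fun a' ha' g hg e ⟨j, A', ξ, e1, e2, e3⟩ => by
      obtain ⟨η, e4, -⟩ := e3.q (PP.join r1 r2).ok.wf
      obtain ⟨i, k, e5⟩ := pr g (Or.inr (mem_biUnion ha (mem_biUnion ha' hg))) α (Or.inl rfl) e.le
      exact (PP.join r1 r2).ok.not_blocked (Al.at0.mono subset_union_left) ⟨j, A', ξ, e1,
        ((PP.join r1 r2).act _ e1).mem e2 ((hδ i (Or.inr ⟨_, e5, rfl⟩)).trans (hj j η e4))
          (P0.s_mono (q2.1.trans (hc.trans h3)) e5), e3⟩) m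
  have q3 := (PP.join r1 r2).add_le _ (finite_singleton b) b1
  exact ⟨_, q3.trans q2, up α (u α), Or.inl ⟨_, rfl⟩, m,
    hm _ _ _ _ (q3.trans (PP.join_le' r1 r2)) a1, b2, by rintro _ _ ⟨⟩⟩

omit hm in
theorem cov_union {ι : Type*} {I : Set ι} (hI : I.Countable) (S : ι → PP → Pt → Prop) (c : P0)
    (h : ∀ i ∈ I, ∀ c, ∃ c' ≤ c, ∃ H : Set Pt, H.Countable ∧ Cov p c' (S i) Dec H) :
    ∃ c' ≤ c, ∃ H : Set Pt, H.Countable ∧ Cov p c' (fun q x => ∃ i ∈ I, S i q x) Dec H := by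
  obtain ⟨c', h1, h2⟩ := P0.exists_forall hI c
    (fun i c' => ∃ H : Set Pt, H.Countable ∧ Cov p c' (S i) Dec H)
    (fun η c' c'' e ⟨H, a1, a3⟩ => ⟨H, a1, fun q hq e' => a3 q hq (e'.trans e)⟩)
    fun i hi c' _ => h i hi c'
  choose! H H1 H2 using h2
  refine ⟨c', h1, ⋃ i ∈ I, H i, hI.biUnion H1, fun q hq e x ⟨i, hi, hx⟩ => ?_⟩
  obtain ⟨r, hr, y, hy, e'⟩ := H2 i hi q hq e x hx
  exact ⟨r, hr, y, mem_biUnion hi hy, e'⟩

/-- the open set of a level is Lindelof -/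
theorem lind (α : K) (h : ∀ q ≤ p, ∀ x, InZ q.s x α → ∃ r ≤ q, ∃ n, Dec r x n) (c : P0) :
    ∃ c' ≤ c, ∃ H : Set Pt, H.Countable ∧ Cov p c' (fun q x => InZ q.s x α) Dec H := by
  obtain ⟨c1, h1, H, J, hH, hJ, h2⟩ := lind' p hm α (fun q hq g hg v => by
    rcases hg.eq_or_lt with rfl | hg
    · exact h q hq _ (Or.inl ⟨v, rfl⟩)
    · obtain ⟨r, hr, e⟩ := q.deepen (x := up g v) hg (not_blocked_up q.ok)
      obtain ⟨r', hr', e'⟩ := h r (hr.trans hq) _ e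
      exact ⟨r', hr'.trans hr, e'⟩) c
  obtain ⟨c2, h3, H', hH', h4⟩ := cov_union p hJ
    (fun j q x => InZ q.s x α ∧ ∃ η, x = bot j η) c1 fun j _ c => by
      obtain ⟨c', e, H, e1, e2⟩ := hl p hm j h c
      exact ⟨c', e, _, e1.image _, e2⟩
  refine ⟨c2, h3.trans h1, H ∪ H', hH.union hH', fun q hq e x hx => ?_⟩
  by_cases e' : ∀ j ∈ J, ∀ η, x ≠ bot j η
  · obtain ⟨r, hr, y, hy, e'⟩ := h2 q hq (e.trans h3) x ⟨hx, e'⟩
    exact ⟨r, hr, y, Or.inl hy, e'⟩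
  · push Not at e'
    obtain ⟨j, hj, η, e'⟩ := e'
    obtain ⟨r, hr, y, hy, e'⟩ := h4 q hq e x ⟨j, hj, hx, η, e'⟩
    exact ⟨r, hr, y, Or.inr hy, e'⟩

/-- finite unions of objects are Lindelof -/
theorem lind_obs (h : ∀ q ≤ p, ∀ x, ∃ r ≤ q, ∃ n, Dec r x n) (F : List Ob) (c : P0) :
    ∃ c' ≤ c, ∃ H : Set Pt, H.Countable ∧ Cov p c' (fun q x => ∃ O ∈ F, Mem q.s x O) Dec H :=
  cov_union p F.finite_toSet.countable (fun O q x => Mem q.s x O) c fun O _ c => by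
    cases O with
    | B g v m =>
      obtain ⟨c', e, H, e1, e2⟩ := lind p hm g (fun q hq x _ => h q hq x) c
      exact ⟨c', e, H, e1, fun q hq e x hx => e2 q hq e x hx.inZ⟩
    | Cyl j n τ =>
      obtain ⟨c', e, H, e1, e2⟩ := hl p hm j (S := fun _ _ => True) (fun q hq x _ => h q hq x) c
      exact ⟨c', e, _, e1.image _, fun q hq e x hx => e2 q hq e x
        ⟨trivial, let ⟨η, h, _⟩ := hx.cyl; ⟨η, h⟩⟩⟩
    | Q j ξ =>
      obtain ⟨c', e, H, e1, e2⟩ := hl p hm j (S := fun _ _ => True) (fun q hq x _ => h q hq x) c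
      exact ⟨c', e, _, e1.image _, fun q hq e x hx => e2 q hq e x
        ⟨trivial, let ⟨η, h, _⟩ := hx.q q.ok.wf; ⟨η, h⟩⟩⟩

end cover

section big
variable (p : PP) {S : PP → Pt → Prop} (hm : ∀ q r x, r ≤ q → S q x → S r x)
  (h : ∀ q ≤ p, ∀ F : List Ob, ∃ r ≤ q, ∃ x, S r x ∧ ∀ O ∈ F, ¬ Mem r.s x O)
include hm h

theorem p2a (c : P0) : ∃ c' ≤ c, ∃ H : Set Pt, H.Countable ∧ ∀ q ≤ p, q.c ≤ c' →
    ∀ F : List Ob, ∃ r ≤ q, ∃ x ∈ H, S r x ∧ ∀ O ∈ F, ¬ Mem r.s x O := by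
  by_contra hcon
  push Not at hcon
  obtain ⟨⟨q, x, n, F⟩, ⟨q', x', n', F'⟩, h1, h3, h2, a, a1, b, b1, b2, f, g, T⟩ :=
    exists_twins (α := PP × Pt × ℕ × List Ob) c
      (fun z => S z.1 z.2.1 ∧ ∀ O ∈ z.2.2.2, dis (tiny z.2.1 z.2.2.1) O ∈ z.1.s)
      (fun z z' => ∀ r ≤ z'.1, S r z.2.1 → ∃ O ∈ z'.2.2.2, Mem r.s z.2.1 O)
      (fun z => z.1) (fun z => tiny z.2.1 z.2.2.1 :: z.2.2.2) fun c' hc' H hH _ => by
        obtain ⟨q, q1, q2, F, q3⟩ := hcon c' hc' _ (hH.image fun z => z.2.1)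
        obtain ⟨r, r1, x, r2, r3⟩ := h q q1 F
        obtain ⟨s, s1, m, s2⟩ := r.exists_dis F.finite_toSet r3
        exact ⟨(s, x, m, F), (s1.trans r1).1.trans q2, ⟨hm _ _ _ s1 r2, s2⟩, fun z hz s' hs =>
          q3 s' (hs.trans (s1.trans r1)) _ ⟨z, hz, rfl⟩⟩
  have e := T.map
  simp only [List.map, List.cons.injEq] at e
  obtain ⟨r, r1, r2, r3⟩ := T.am (dis (tiny x n) '' {O | O ∈ F'}) (F'.finite_toSet.image _) (by
    rintro _ ⟨O, hO, rfl⟩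
    exact Or.inl ⟨_, List.mem_cons_self, O, List.mem_cons_of_mem _ hO, rfl,
      by rw [e.1, b2]; exact h3.2 O hO⟩)
  obtain ⟨O, hO, e'⟩ := h2 r (r2.trans b1) (hm _ _ _ (r1.trans a1) h1.1)
  exact PP.not_mem_of_dis (r3 ⟨O, hO, rfl⟩) (.base (base_tiny x n)) e'

/-- a set that is not covered by finitely many objects accumulates at all high nodes -/
theorem p2b (c : P0) : ∃ c' ≤ c, ∃ β, ∀ α ≥ β, ∀ v m, ∀ q ≤ p, q.c ≤ c' →
    ∃ r ≤ q, ∃ x, S r x ∧ Mem r.s x (B α v m) := by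
  obtain ⟨c1, h1, H, hH, h2⟩ := p2a p hm h c
  obtain ⟨c2, h3, A, hA, h4⟩ := master' hH p (fun x r => S r x ∨ ∀ r' ≤ r, ¬ S r' x)
    (fun x _ q _ => by
      by_cases e : ∃ r ≤ q, S r x
      · obtain ⟨r, hr, e⟩ := e
        exact ⟨r, hr, Or.inl e⟩
      · exact ⟨q, le_rfl, Or.inr fun r hr e' => e ⟨r, hr, e'⟩⟩) c1
  obtain ⟨β, hβ⟩ := exists_boundK (((hH.image fun x => match x with
      | up g _ => g
      | bot _ _ => Classical.arbitrary K).union (hA.biUnion fun a _ => a.lv_finite.countable)).union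
    (hA.biUnion fun a _ => a.ft.countable.biUnion fun x hx => (a.act x hx).countable))
  refine ⟨c2, h3.trans h1, β, fun α hα v m q hq hc => ?_⟩
  obtain ⟨r, r1, x, hx, r2, r3⟩ := h2 q hq (hc.trans h3) q.obs_finite.toFinset.toList
  obtain ⟨s, s1, k, s2⟩ := r.exists_dis q.obs_finite fun O hO => r3 O (by simpa using hO)
  obtain ⟨a, ha, a1, r', a2, a3⟩ := h4 x hx s (s1.trans (r1.trans hq)) ((s1.trans r1).1.trans hc)
  have a4 : S a x := a1.resolve_right fun e => e r' a3 (hm _ _ _ (a2.trans s1) r2)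
  have a5 : r' ≤ q := a2.trans (s1.trans r1)
  obtain ⟨b, b1, b2⟩ := Ok.exists_near (x := x) (α := α) (PP.join a5 a3).ok (PP.join a5 a3).fs
    (PP.join a5 a3).ft (by
      cases x with
      | up g w => exact (hβ g (Or.inl (Or.inl ⟨_, hx, rfl⟩))).trans_le hα
      | bot => trivial)
    (fun O hO e => PP.not_mem_of_dis (a2.2.1 (s2 O hO)) (.base (base_tiny x k))
      (e.mono (PP.le_join a5 a3).2.1))
    (fun y hy g hg => (hβ g (Or.inl (Or.inr (mem_biUnion ha (mem_biUnion hy hg))))).trans_le hα)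
    (fun j A' ξ hy g hg => (hβ g (Or.inr (mem_biUnion ha (mem_biUnion hy hg)))).trans_le hα) v m
  have q3 := (PP.join a5 a3).add_le _ (finite_singleton b) b1
  exact ⟨_, q3.trans (PP.join_le a5 a3), x, hm _ _ _ (q3.trans (PP.join_le' a5 a3)) a4, b2⟩

end big

/-- one level takes care of a given name of a bound -/
theorem exists_level (p : PP) (G : W → P0 → W → Prop)
    (hG : ∀ j, ∀ c ≤ p.c, ∃ c' ≤ c, ∃ ζ, G j c' ζ) : ∃ p' ≤ p, ∃ γ, ∀ j, ∀ q ≤ p', ∃ r ≤ q, ∃ c ζ,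
      r.c ≤ c ∧ G j c ζ ∧ ∀ r' ≤ r, ∀ η < ζ, ¬ Blocked r'.s r'.t (bot j η) γ := by
  obtain ⟨c0, h0, γ, hγ⟩ := p.c.exists_side G hG
  refine ⟨_, p.wc_le c0 h0, γ, fun j q hq => ?_⟩
  obtain ⟨c', c1, ζ', c2⟩ := q.c.exists_dec γ j
  obtain ⟨c, ζ, c3, c4, c5⟩ := hγ j c' (c1.trans hq.1) ζ' c2
  refine ⟨_, q.wc_le c' c1, c, ζ, c3, c4, fun r' hr' η hη ⟨j', A, ξ, e1, e2, e3⟩ => ?_⟩
  obtain ⟨_, ⟨⟩, e4⟩ := e3.q r'.ok.wf
  obtain ⟨ζ'', e5, e6⟩ := (r'.act _ e1).tk γ e2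
  cases r'.c.zfn _ _ _ e6 (P0.z_mono hr'.1 c2)
  exact ((c5.trans (e5.trans e4)).trans_lt hη).false

end Pool.Agent.P.MP_95b5c3_gt
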