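import Pool.Agent.P.MP_95b5c3_gt.Props
import Pool.Agent.P.MP_95b5c3_gt.Defs

set_option autoImplicit false
set_option synthInstance.maxSize 100000

/-! Names of the space and of its topology. -/

open Set Pool.Agent.Lib.PosetForcing

namespace Pool.Agent.P.MP_95b5c3_gt

open Obj Atom Pt

theorem by_forcing {Φ Ψ : Gen PP → Prop} [Clopen Φ] [Clopen Ψ]
    (h : ∀ p, Forces p Φ → ∃ q ≤ p, Forces q Ψ) : ∀ U, Φ U → Ψ U :=
  of_forces_all (Φ := fun U => Φ U → Ψ U) fun p => ⟨p, le_rfl, forces_imp fun q _ => h q⟩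

theorem exists_decide (Φ : Gen PP → Prop) [Clopen Φ] (p : PP) :
    ∃ q ≤ p, Forces q Φ ∨ Forces q fun U => ¬ Φ U := by
  by_cases h : Forces p Φ
  · exact ⟨p, le_rfl, Or.inl h⟩
  · obtain ⟨q, hq, h1⟩ := exists_forces_not h
    exact ⟨q, hq, Or.inr h1⟩

instance clopen_forall_lt (n : ℕ) (Φ : ℕ → Gen PP → Prop) [∀ m, Clopen (Φ m)] :
    Clopen fun U => ∀ m < n, Φ m U :=
  Clopen.congr (Φ := fun U => ¬ ∃ m < n, ¬ Φ m U) fun U => by simp

/-- the point `x` lies in the set named `a` -/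
abbrev pt (x : Pt) (a : Name PP) (U : Gen PP) : Prop := Mod.mem ((elt x : Name PP).val U) (a.val U)

/-- name of the space -/
noncomputable def XN : Name PP := tyName Pt

/-- name of the set of points put in by `R` -/
noncomputable def setN (R : PP → Pt → Prop) : Name PP :=
  .mk {z : Pt × PP // R z.2 z.1} (fun z => elt z.1.1) fun z => z.1.2

/-- name of a basic neighbourhood -/
noncomputable def NN (y : Pt) (n : ℕ) : Name PP := setN fun q x => MemN q.s x y n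

/-- name of the base -/
noncomputable def BN : Name PP := fam fun z : Pt × ℕ => NN z.1 z.2

/-- name of the topology -/
noncomputable def TN : Name PP := sepName (powName XN) fun U V =>
  ∀ x, Mod.mem x V → ∃ b, Mod.mem b (BN.val U) ∧ Mod.mem x b ∧ IsSub Mod.mem b V

section setN
variable {R : PP → Pt → Prop} {p : PP} {x : Pt}

theorem pt_XN (x : Pt) (U : Gen PP) : pt x XN U := elt_mem_tyName x U

theorem forces_setN (h : R p x) : Forces p (pt x (setN R)) :=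
  forces_el_mem (b := setN R) ⟨(x, p), h⟩ le_rfl

theorem forces_forall_setN (hR : ∀ q r x, r ≤ q → R q x → R r x) {Φ : ∀ U : Gen PP, Mod U → Prop}
    [∀ a : Name PP, Clopen fun U => Φ U (a.val U)]
    (h : ∀ q ≤ p, ∀ x, R q x → ∃ r ≤ q, Forces r fun U => Φ U ((elt x).val U)) :
    Forces p fun U => ∀ z, Mod.mem z ((setN R).val U) → Φ U z :=
  forces_forall_mem (b := setN R) fun i q hq hi => h q hq i.1.1 (hR _ _ _ hi i.2)

theorem exists_of_setN (hR : ∀ q r x, r ≤ q → R q x → R r x) (h : Forces p (pt x (setN R))) :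
    ∃ q ≤ p, R q x := by
  obtain ⟨q, hq, ⟨⟨y, r⟩, h1⟩, h2, h3⟩ := h.exists_el
  obtain rfl := h3.elt_inj
  exact ⟨q, hq, hR _ _ _ h2 h1⟩

theorem forces_not_setN (hR : ∀ q r x, r ≤ q → R q x → R r x) (h : ∀ q ≤ p, ¬ R q x) :
    Forces p fun U => ¬ pt x (setN R) U :=
  forces_not_iff.2 fun _ hq h1 =>
    let ⟨r, hr, h2⟩ := exists_of_setN hR h1; h r (hr.trans hq) h2

theorem setN_sub (R : PP → Pt → Prop) (U : Gen PP) : IsSub Mod.mem ((setN R).val U) (XN.val U) :=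
  forall_mem (b := setN R) (Φ := fun U z => Mod.mem z (XN.val U))
    (fun _ q _ => ⟨q, le_rfl, Forces.of_forall (pt_XN _) q⟩) U

end setN

theorem forces_pts {Φ : ∀ U : Gen PP, Mod U → Prop}
    [∀ a : Name PP, Clopen fun U => Φ U (a.val U)] {p : PP}
    (h : ∀ x : Pt, ∀ q ≤ p, ∃ r ≤ q, Forces r fun U => Φ U ((elt x).val U)) :
    Forces p fun U => ∀ z, Mod.mem z (XN.val U) → Φ U z :=
  forces_forall_mem_fam h

theorem all_pts {Φ : ∀ U : Gen PP, Mod U → Prop} [∀ a : Name PP, Clopen fun U => Φ U (a.val U)]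
    (h : ∀ (x : Pt) q, ∃ r ≤ q, Forces r fun U => Φ U ((elt x).val U)) (U : Gen PP) :
    ∀ z, Mod.mem z (XN.val U) → Φ U z :=
  of_forces_all (Φ := fun U => ∀ z, Mod.mem z (XN.val U) → Φ U z)
    (fun p => ⟨p, le_rfl, forces_pts fun x q _ => h x q⟩) U

theorem exists_pt {p : PP} {a : Name PP} (h : Forces p fun U => Mod.mem (a.val U) (XN.val U)) :
    ∃ q ≤ p, ∃ x : Pt, Forces q fun U => a.val U = (elt x).val U := h.exists_fam

theorem memN_mono (y : Pt) (n : ℕ) (q r : PP) (x : Pt) (h : r ≤ q) (h' : MemN q.s x y n) :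
    MemN r.s x y n := h'.mono h.2.1

theorem pt_NN (x : Pt) (n : ℕ) (U : Gen PP) : pt x (NN x n) U :=
  of_forces_all (Φ := pt x (NN x n)) (fun p => ⟨p, le_rfl, forces_setN (memN_self _ _ _)⟩) U

theorem NN_mem_BN (y : Pt) (n : ℕ) (U : Gen PP) : Mod.mem ((NN y n).val U) (BN.val U) :=
  mem_fam (fun z : Pt × ℕ => NN z.1 z.2) (y, n) U

theorem NN_anti (y : Pt) {m n : ℕ} (h : m ≤ n) (U : Gen PP) :
    IsSub Mod.mem ((NN y n).val U) ((NN y m).val U) :=
  of_forces_all (Φ := fun U => IsSub Mod.mem ((NN y n).val U) ((NN y m).val U)) (fun p =>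
    ⟨p, le_rfl, forces_forall_setN (memN_mono y n) fun q _ _ h' =>
      ⟨q, le_rfl, forces_setN (h'.anti h)⟩⟩) U

theorem mem_top {U : Gen PP} {V : Mod U} : Mod.mem V (TN.val U) ↔ IsSub Mod.mem V (XN.val U) ∧
    ∀ x, Mod.mem x V → ∃ b, Mod.mem b (BN.val U) ∧ Mod.mem x b ∧ IsSub Mod.mem b V := by
  rw [TN, mem_sepName, mem_powName]
  rfl

theorem base_nbhd {p : PP} {b : Name PP} {x : Pt}
    (h : Forces p fun U => Mod.mem (b.val U) (BN.val U) ∧ pt x b U) :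
    ∃ q ≤ p, ∃ n, Forces q fun U => IsSub Mod.mem ((NN x n).val U) (b.val U) := by
  obtain ⟨q, hq, ⟨y, m⟩, h1⟩ := (h.imp fun _ h => h.1).exists_fam
  obtain ⟨r, hr, h2⟩ := exists_of_setN (memN_mono y m) (x := x)
    (((h.mono hq).and h1).imp fun U h =>
      show Mod.mem _ ((NN y m).val U) from (show b.val U = (NN y m).val U from h.2) ▸ h.1.2)
  obtain ⟨n, hn⟩ := h2.exists_nbhd
  have h3 : Forces r fun U => IsSub Mod.mem ((NN x n).val U) ((NN y m).val U) :=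
    forces_forall_setN (memN_mono x n) fun s hs z hz => ⟨s, le_rfl, forces_setN (hn _ hs.2.1 z hz)⟩
  exact ⟨r, hr.trans hq, n, (h3.and (h1.mono hr)).imp fun U h => h.2 ▸ h.1⟩

theorem open_nbhd {p : PP} {V : Name PP} {x : Pt}
    (h : Forces p fun U => Mod.mem (V.val U) (TN.val U) ∧ pt x V U) :
    ∃ q ≤ p, ∃ n, Forces q fun U => IsSub Mod.mem ((NN x n).val U) (V.val U) := by
  obtain ⟨b, hb⟩ := Forces.exists_name (Φ := fun U b => Mod.mem b (BN.val U) ∧
    Mod.mem ((elt x).val U) b ∧ IsSub Mod.mem b (V.val U)) (h.imp fun U h => (mem_top.1 h.1).2 _ h.2)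
  obtain ⟨q, hq, n, h1⟩ := base_nbhd (hb.imp fun _ h => ⟨h.1, h.2.1⟩)
  exact ⟨q, hq, n, (h1.and (hb.mono hq)).imp fun U h z hz => h.2.2.2 z (h.1 z hz)⟩

/-- open predicates -/
def OpenP (U : Gen PP) (φ : Mod U → Prop) : Prop :=
  ∀ x, Mod.mem x (XN.val U) → φ x →
    ∃ b, Mod.mem b (BN.val U) ∧ Mod.mem x b ∧ ∀ z, Mod.mem z b → φ z

theorem base_inter (U : Gen PP) : ∀ x, Mod.mem x (XN.val U) → ∀ b b', (Mod.mem b (BN.val U) ∧
    Mod.mem x b) ∧ Mod.mem b' (BN.val U) ∧ Mod.mem x b' → ∃ e, Mod.mem e (BN.val U) ∧ Mod.mem x e ∧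
      IsSub Mod.mem e b ∧ IsSub Mod.mem e b' := by
  revert U
  refine all_pts fun x p => ⟨p, le_rfl, forces_forall fun b => forces_forall fun b' =>
    forces_imp fun q _ h => ?_⟩
  obtain ⟨r, hr, n, h1⟩ := base_nbhd (h.imp fun _ h => h.1)
  obtain ⟨s, hs, m, h2⟩ := base_nbhd ((h.mono hr).imp fun _ h => h.2)
  exact ⟨s, hs.trans hr, ((h1.mono hs).and h2).imp fun U h => ⟨_, NN_mem_BN x (max n m) U,
    pt_NN x _ U, fun z hz => h.1 z (NN_anti x (le_max_left _ _) U z hz),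
    fun z hz => h.2 z (NN_anti x (le_max_right _ _) U z hz)⟩⟩

theorem OpenP.and {U : Gen PP} {φ ψ : Mod U → Prop} (h : OpenP U φ) (h' : OpenP U ψ) :
    OpenP U fun x => φ x ∧ ψ x := fun x hx a => by
  obtain ⟨b, b1, b2, b3⟩ := h x hx a.1
  obtain ⟨b', b4, b5, b6⟩ := h' x hx a.2
  obtain ⟨e, e1, e2, e3, e4⟩ := base_inter U x hx b b' ⟨⟨b1, b2⟩, b4, b5⟩
  exact ⟨e, e1, e2, fun z hz => ⟨b3 z (e3 z hz), b6 z (e4 z hz)⟩⟩

theorem OpenP.const (U : Gen PP) (A : Prop) : OpenP U fun _ => A := fun x hx a => by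
  obtain ⟨b, b1, b2⟩ := all_pts (Φ := fun U x => ∃ b, Mod.mem b (BN.val U) ∧ Mod.mem x b)
    (fun x q => ⟨q, le_rfl, Forces.of_forall (fun U => ⟨_, NN_mem_BN x 0 U, pt_NN x 0 U⟩) q⟩) U x hx
  exact ⟨b, b1, b2, fun _ _ => a⟩

theorem OpenP.imp {U : Gen PP} {φ : Mod U → Prop} (h : OpenP U φ) (A : Prop) :
    OpenP U fun x => A → φ x := by
  by_cases a : A
  · simpa [a] using h
  · simpa [a] using OpenP.const U True

theorem OpenP.forall_lt {U : Gen PP} {φ : ℕ → Mod U → Prop} (h : ∀ i, OpenP U (φ i)) (n : ℕ) :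
    OpenP U fun x => ∀ i < n, φ i x := by
  induction n with
  | zero => simpa using OpenP.const U True
  | succ n ih => simpa only [Nat.forall_lt_succ_right] using ih.and (h n)

theorem BN_sub (U : Gen PP) : ∀ b, Mod.mem b (BN.val U) → IsSub Mod.mem b (XN.val U) :=
  forall_mem_fam (Φ := fun U b => IsSub Mod.mem b (XN.val U)) (fun _ U => setN_sub _ U) U

theorem OpenP.mem_top {U : Gen PP} {φ : Mod U → Prop} (h : OpenP U φ) {V : Mod U}
    (hV : ∀ x, Mod.mem x V ↔ Mod.mem x (XN.val U) ∧ φ x) : Mod.mem V (TN.val U) :=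
  MP_95b5c3_gt.mem_top.2 ⟨fun x hx => ((hV x).1 hx).1, fun x hx => by
    obtain ⟨b, b1, b2, b3⟩ := h x ((hV x).1 hx).1 ((hV x).1 hx).2
    exact ⟨b, b1, b2, fun z hz => (hV z).2 ⟨BN_sub U b b1 z hz, b3 z hz⟩⟩⟩

theorem openP_of_mem {U : Gen PP} {V : Mod U} (h : Mod.mem V (TN.val U)) :
    OpenP U fun x => Mod.mem x V := fun x _ hx => (mem_top.1 h).2 x hx

theorem isTop (U : Gen PP) : IsTop Mod.mem (XN.val U) (TN.val U) := by
  refine ⟨fun V h => (mem_top.1 h).1, (OpenP.const U True).mem_top fun x => by simp,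
    fun V W Z hV hW hZ => ((openP_of_mem hV).and (openP_of_mem hW)).mem_top fun x =>
      (hZ x).trans ⟨fun h => ⟨(mem_top.1 hV).1 x h.1, h⟩, fun h => h.2⟩, fun F Z hF hZ => ?_⟩
  refine mem_top.2 ⟨fun x hx => ?_, fun x hx => ?_⟩
  · obtain ⟨V, h1, h2⟩ := (hZ x).1 hx
    exact (mem_top.1 (hF V h1)).1 x h2
  · obtain ⟨V, h1, h2⟩ := (hZ x).1 hx
    obtain ⟨b, b1, b2, b3⟩ := (mem_top.1 (hF V h1)).2 x h2
    exact ⟨b, b1, b2, fun z hz => (hZ z).2 ⟨V, h1, b3 z hz⟩⟩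

section setN
variable {R : PP → Pt → Prop} (hR : ∀ q r x, r ≤ q → R q x → R r x)
include hR

theorem setN_open (h : ∀ q x, R q x → ∃ r ≤ q, ∃ n, ∀ s ≤ r, ∀ z, MemN s.s z x n → R s z)
    (U : Gen PP) : Mod.mem ((setN R).val U) (TN.val U) := by
  refine mem_top.2 ⟨setN_sub R U, ?_⟩
  revert U
  refine of_forces_all fun p => ⟨p, le_rfl, forces_forall_setN hR fun q _ x hx => ?_⟩
  obtain ⟨r, hr, n, h1⟩ := h q x hx
  have h2 : Forces r fun U => IsSub Mod.mem ((NN x n).val U) ((setN R).val U) :=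
    forces_forall_setN (memN_mono x n) fun s hs z hz => ⟨s, le_rfl, forces_setN (h1 s hs z hz)⟩
  exact ⟨r, hr, h2.imp fun U h => ⟨_, NN_mem_BN x n U, pt_NN x n U, h⟩⟩

theorem setN_closed (h : ∀ q x, ¬ R q x → ∃ r ≤ q, ∃ n, ∀ s ≤ r, ∀ z, MemN s.s z x n → ¬ R s z)
    (U : Gen PP) : OpenP U fun x => ¬ Mod.mem x ((setN R).val U) := by
  revert U
  refine all_pts fun x p => ⟨p, le_rfl, forces_imp fun q _ hx => ?_⟩
  obtain ⟨r, hr, n, h1⟩ := h q x fun e => forces_not_iff.1 hx q le_rfl (forces_setN e)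
  have h2 : Forces r fun U => ∀ z, Mod.mem z ((NN x n).val U) → ¬ Mod.mem z ((setN R).val U) :=
    forces_forall_setN (memN_mono x n) fun s hs z hz => ⟨s, le_rfl,
      forces_not_setN hR fun s' hs' => h1 s' (hs'.trans hs) z (hz.mono hs'.2.1)⟩
  exact ⟨r, hr, h2.imp fun U h => ⟨_, NN_mem_BN x n U, pt_NN x n U, h⟩⟩

end setN

theorem NN_open (y : Pt) (n : ℕ) (U : Gen PP) : Mod.mem ((NN y n).val U) (TN.val U) :=
  setN_open (memN_mono y n) (fun q _ h =>
    let ⟨m, hm⟩ := h.exists_nbhd; ⟨q, le_rfl, m, fun _ hs => hm _ hs.2.1⟩) U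

theorem NN_closed (y : Pt) (n : ℕ) (U : Gen PP) :
    OpenP U fun x => ¬ Mod.mem x ((NN y n).val U) :=
  setN_closed (memN_mono y n) (fun q _ h => q.exists_missN h) U

theorem forces_countable {ι : Type 1} [Countable ι] (a : ι → Name PP) {A : Name PP} {p : PP}
    (h : Forces p fun U => IsSub Mod.mem (A.val U) ((fam a).val U)) :
    Forces p fun U => LeCard Mod.mem (A.val U) (omegaName.val U) := by
  obtain ⟨f, hf⟩ := exists_injective_nat ι
  exact forces_leCard a (fun i => natName (f i)) (fun x q hq hx => Forces.exists_fam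
    (((h.mono hq).and hx).imp fun U h => h.1 _ h.2))
    (fun i => Forces.of_forall (natName_mem_omega _) p) fun i j hij q _ e => hij (hf e.natName_inj)

theorem firstCountable (U : Gen PP) :
    FirstCountable Mod.mem (omegaName.val U) (XN.val U) (TN.val U) := by
  revert U
  refine all_pts fun x p => ⟨p, le_rfl, ?_⟩
  have h1 := forces_countable (p := p) (fun n : ULift.{1} ℕ => NN x n.down)
    (Forces.of_forall (fun U z hz => hz) p)
  have h2 : Forces p fun U => ∀ V, Mod.mem V (TN.val U) ∧ Mod.mem ((elt x).val U) V →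
      ∃ b, Mod.mem b ((fam fun n : ULift.{1} ℕ => NN x n.down).val U) ∧ IsSub Mod.mem b V :=
    forces_forall fun V => forces_imp fun q _ h => by
      obtain ⟨r, hr, n, h1⟩ := open_nbhd h
      exact ⟨r, hr, h1.imp fun U h => ⟨_, mem_fam (fun n : ULift.{1} ℕ => NN x n.down) ⟨n⟩ U, h⟩⟩
  exact (h1.and h2).imp fun U h => ⟨_, h.1, forall_mem_fam (Φ := fun U b =>
    Mod.mem b (TN.val U) ∧ Mod.mem ((elt x).val U) b) (fun n U => ⟨NN_open _ _ U, pt_NN _ _ U⟩) U,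
    fun V a b => h.2 V ⟨a, b⟩⟩

theorem isT1 (U : Gen PP) : ∀ x, Mod.mem x (XN.val U) → ∀ y, Mod.mem y (XN.val U) → x ≠ y →
    ∃ V, Mod.mem V (TN.val U) ∧ Mod.mem x V ∧ ¬ Mod.mem y V := by
  revert U
  refine all_pts fun x p => ⟨p, le_rfl, forces_pts fun y q _ => ?_⟩
  by_cases e : x = y
  · exact ⟨q, le_rfl, Forces.of_forall (fun U h => absurd (by rw [e]) h) q⟩
  · obtain ⟨r, hr, n, h⟩ := q.exists_sep e
    exact ⟨r, hr, (forces_not_setN (memN_mono x n) h).imp fun U h _ =>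
      ⟨_, NN_open x n U, pt_NN x n U, h⟩⟩

end Pool.Agent.P.MP_95b5c3_gt
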